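import Pool.Agent.Lib_MP_a20b56_co.Halving

namespace MPa20b56

open scoped BigOperators Classical
open MeasureTheory

noncomputable section

theorem approx_log {n D t : ℕ} (hn : 1 ≤ n) (hD : 1 ≤ D) (ht : t ≤ (n + 1) ^ D + 1) {s : ℝ}
    (hs : s ^ 4 = n) : Real.log (2 * t + 1) ≤ 3 * D * (2 * s ^ 2) := by
  have h1 : (2 : ℕ) ≤ (n + 1) ^ D := by
    calc 2 ≤ n + 1 := by omega
      _ = (n + 1) ^ 1 := (pow_one _).symm
      _ ≤ (n + 1) ^ D := Nat.pow_le_pow_right (by omega) hD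
  have h2 : 2 * t + 1 ≤ (n + 1) ^ (D + 2) := by
    have h3 : 4 ≤ (n + 1) ^ 2 := by nlinarith
    calc 2 * t + 1 ≤ 4 * (n + 1) ^ D := by omega
      _ ≤ (n + 1) ^ 2 * (n + 1) ^ D := Nat.mul_le_mul_right _ h3
      _ = (n + 1) ^ (D + 2) := by ring
  have h3 : Real.log (n + 1) ≤ 2 * s ^ 2 := by
    rw [Real.log_le_iff_le_exp (by positivity)]
    have h4 := Real.quadratic_le_exp_of_nonneg (x := 2 * s ^ 2) (by positivity)
    have h5 : (n : ℝ) = s ^ 4 := hs.symm
    rw [h5]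
    nlinarith [sq_nonneg s, sq_nonneg (s ^ 2)]
  have h4 : Real.log (2 * t + 1) ≤ (D + 2) * Real.log (n + 1) := by
    have h5 : ((2 * t + 1 : ℕ) : ℝ) ≤ (((n + 1) ^ (D + 2) : ℕ) : ℝ) := by exact_mod_cast h2
    push_cast at h5
    calc Real.log (2 * t + 1) ≤ Real.log (((n : ℝ) + 1) ^ (D + 2)) :=
          Real.log_le_log (by positivity) h5
      _ = (D + 2) * Real.log (n + 1) := by rw [Real.log_pow]; push_cast; ring
  have h6 : (0 : ℝ) ≤ Real.log (n + 1) := Real.log_nonneg (by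
    have : (0 : ℝ) ≤ n := Nat.cast_nonneg n
    linarith)
  have hD' : (1 : ℝ) ≤ D := by exact_mod_cast hD
  calc Real.log (2 * t + 1) ≤ (D + 2) * Real.log (n + 1) := h4
    _ ≤ 3 * D * Real.log (n + 1) := by nlinarith
    _ ≤ 3 * D * (2 * s ^ 2) := by nlinarith

/-- one halving step with its error -/
theorem approx_step {ι : Type} (J : Finset ι) (F : Set (Finset ι)) (D : ℕ) (hD : 1 ≤ D)
    (hG : Growth J F D) (Y : Finset ι) (hY : Y ⊆ J) (s q : ℝ) (hs : s ^ 4 = Y.card)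
    (hq : q ^ 2 = D) (hq1 : 1 ≤ q) (hsq : 8 * q ≤ s) :
    ∃ Y' ⊆ Y, (Y.card : ℝ) / 4 ≤ Y'.card ∧ (Y'.card : ℝ) ≤ 3 / 4 * Y.card ∧ ∀ B ∈ F,
      |((Y' ∩ B).card : ℝ) / Y'.card - ((Y ∩ B).card : ℝ) / Y.card| ≤ 16 * q / s := by
  have hs0 : 0 < s := by linarith
  have hn : 1 ≤ Y.card := by
    by_contra hcon
    have h0 : Y.card = 0 := by omega
    rw [h0] at hs
    have : 0 < s ^ 4 := by positivity
    simp at hs
    linarith
  obtain ⟨T, hTc, hT⟩ := hG Y hY
  obtain ⟨Y', hY', hdisc⟩ := halving Y (insert Y (T.filter (fun A => A ⊆ Y))) (by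
    intro A hA
    rcases Finset.mem_insert.1 hA with rfl | hA
    · exact Finset.Subset.refl _
    · exact (Finset.mem_filter.1 hA).2)
  have hcard : (insert Y (T.filter (fun A => A ⊆ Y))).card ≤ (Y.card + 1) ^ D + 1 :=
    (Finset.card_insert_le _ _).trans (Nat.add_le_add_right ((Finset.card_filter_le _ _).trans hTc) 1)
  set δ := Real.sqrt (2 * Y.card * Real.log (2 * (insert Y (T.filter (fun A => A ⊆ Y))).card + 1))
    with hδ
  have hδ1 : δ ≤ 4 * q * s ^ 3 := by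
    rw [hδ]
    refine Real.sqrt_le_iff.2 ⟨by positivity, ?_⟩
    have h1 := approx_log hn hD hcard hs
    calc 2 * (Y.card : ℝ) * Real.log (2 * (insert Y (T.filter (fun A => A ⊆ Y))).card + 1)
        ≤ 2 * (Y.card : ℝ) * (3 * D * (2 * s ^ 2)) :=
          mul_le_mul_of_nonneg_left h1 (by positivity)
      _ = 12 * q ^ 2 * s ^ 6 := by rw [← hs, ← hq]; ring
      _ ≤ (4 * q * s ^ 3) ^ 2 := by nlinarith [sq_nonneg (q * s ^ 3)]
  have hδ0 : 0 ≤ δ := Real.sqrt_nonneg _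
  have hn4 : (Y.card : ℝ) = s ^ 4 := hs.symm
  have hδ2 : δ ≤ s ^ 4 / 2 := by
    have h1 : 0 ≤ s ^ 3 := by positivity
    have h2 : 8 * q * s ^ 3 ≤ s * s ^ 3 := mul_le_mul_of_nonneg_right hsq h1
    nlinarith
  have hdY := hdisc Y (Finset.mem_insert_self _ _)
  rw [Finset.inter_eq_left.2 hY', abs_le] at hdY
  have hs4 : 0 < s ^ 4 := by positivity
  have hlow : (Y.card : ℝ) / 4 ≤ Y'.card := by rw [hn4] at hdY ⊢; linarith
  have hup : (Y'.card : ℝ) ≤ 3 / 4 * Y.card := by rw [hn4] at hdY ⊢; linarith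
  refine ⟨Y', hY', hlow, hup, ?_⟩
  intro B hB
  have hmem : Y ∩ B ∈ insert Y (T.filter (fun A => A ⊆ Y)) :=
    Finset.mem_insert_of_mem (Finset.mem_filter.2 ⟨hT B hB, Finset.inter_subset_left⟩)
  have hdB := hdisc _ hmem
  have hint : Y' ∩ (Y ∩ B) = Y' ∩ B := by
    rw [← Finset.inter_assoc, Finset.inter_eq_left.2 hY']
  rw [hint, abs_le] at hdB
  have hbn : ((Y ∩ B).card : ℝ) ≤ Y.card := by
    exact_mod_cast Finset.card_le_card Finset.inter_subset_left
  have hb0 : (0 : ℝ) ≤ ((Y ∩ B).card : ℝ) := Nat.cast_nonneg _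
  set n : ℝ := (Y.card : ℝ) with hndef
  set n' : ℝ := (Y'.card : ℝ) with hn'def
  set b : ℝ := ((Y ∩ B).card : ℝ) with hbdef
  set b' : ℝ := ((Y' ∩ B).card : ℝ) with hb'def
  have hnpos : 0 < n := by rw [hn4]; exact hs4
  have hn'pos : 0 < n' := by linarith
  have key : |b' / n' - b / n| ≤ δ / n' := by
    have h1 : b' / n' - b / n = (n * b' - b * n') / (n' * n) := by
      field_simp
    rw [h1, abs_div, abs_of_pos (mul_pos hn'pos hnpos), div_le_div_iff₀ (mul_pos hn'pos hnpos) hn'pos]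
    have h2 : |n * b' - b * n'| ≤ n * δ := by
      rw [abs_le]
      constructor
      · nlinarith [mul_le_mul_of_nonneg_left hdB.1 hnpos.le, mul_le_mul_of_nonneg_left hdY.2 hb0,
          mul_le_mul_of_nonneg_right hbn hδ0]
      · nlinarith [mul_le_mul_of_nonneg_left hdB.2 hnpos.le, mul_le_mul_of_nonneg_left hdY.1 hb0,
          mul_le_mul_of_nonneg_right hbn hδ0]
    nlinarith
  calc |b' / n' - b / n| ≤ δ / n' := key
    _ ≤ δ / (n / 4) := div_le_div_of_nonneg_left hδ0 (by positivity) hlow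
    _ ≤ (4 * q * s ^ 3) / (n / 4) := div_le_div_of_nonneg_right hδ1 (by positivity)
    _ = 16 * q / s := by
        rw [hn4]
        field_simp
        ring

theorem approx_ind {ι : Type} (J : Finset ι) (F : Set (Finset ι)) (D : ℕ) (hD : 1 ≤ D)
    (hG : Growth J F D) (q : ℝ) (hq : q ^ 2 = D) (hq1 : 1 ≤ q) (s₀ : ℝ) (hs₀ : 256 * q ≤ s₀) :
    ∀ (N : ℕ) (Y : Finset ι), Y.card ≤ N → Y ⊆ J → Y.Nonempty → ∀ s : ℝ, 0 < s →
      s ^ 4 = Y.card →
      ∃ R ⊆ Y, R.Nonempty ∧ (R.card : ℝ) ≤ s₀ ^ 4 ∧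
        ∀ B ∈ F, |((R ∩ B).card : ℝ) / R.card - ((Y ∩ B).card : ℝ) / Y.card| ≤
          (if s ≤ s₀ then 0 else q * (256 / s₀ - 240 / s)) := by
  intro N
  induction N with
  | zero =>
    intro Y hY _ hne
    have := Finset.card_pos.2 hne
    omega
  | succ N ih =>
    intro Y hYc hYJ hne s hs hs4
    by_cases hss : s ≤ s₀
    · refine ⟨Y, Finset.Subset.refl _, hne, ?_, ?_⟩
      · rw [← hs4]
        exact pow_le_pow_left₀ hs.le hss 4
      · intro B _
        rw [if_pos hss]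
        simp
    · have hss' : s₀ < s := not_le.1 hss
      have hs₀0 : 0 < s₀ := by linarith
      obtain ⟨Y', hY', hlow, hup, herr⟩ := approx_step J F D hD hG Y hYJ s q hs4 hq hq1
        (by linarith)
      have hYpos : (0 : ℝ) < Y.card := by exact_mod_cast Finset.card_pos.2 hne
      have hY'pos : (0 : ℝ) < Y'.card := by linarith
      have hne' : Y'.Nonempty := Finset.card_pos.1 (by exact_mod_cast hY'pos)
      have hlt : Y'.card < Y.card := by
        have : (Y'.card : ℝ) < Y.card := by linarith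
        exact_mod_cast this
      set s' : ℝ := Real.sqrt (Real.sqrt Y'.card) with hs'
      have hs'0 : 0 < s' := Real.sqrt_pos.2 (Real.sqrt_pos.2 hY'pos)
      have hs'4 : s' ^ 4 = Y'.card := by
        rw [hs', show (4 : ℕ) = 2 * 2 from rfl, pow_mul, Real.sq_sqrt (Real.sqrt_nonneg _),
          Real.sq_sqrt hY'pos.le]
      obtain ⟨R, hR, hRne, hRc, hRe⟩ := ih Y' (by omega) (hY'.trans hYJ) hne' s' hs'0 hs'4
      refine ⟨R, hR.trans hY', hRne, hRc, ?_⟩
      intro B hB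
      rw [if_neg hss]
      have h1 := hRe B hB
      have h2 := herr B hB
      have hss1 : s' ≤ 15 / 16 * s := by
        by_contra hcon
        push Not at hcon
        have h3 : (15 / 16 * s) ^ 4 < s' ^ 4 := pow_lt_pow_left₀ hcon (by positivity) (by norm_num)
        rw [hs'4] at h3
        have h4 : (15 / 16 * s) ^ 4 = (15 / 16) ^ 4 * (Y.card : ℝ) := by rw [← hs4]; ring
        rw [h4] at h3
        nlinarith
      have h3 : |((R ∩ B).card : ℝ) / R.card - ((Y ∩ B).card : ℝ) / Y.card| ≤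
          |((R ∩ B).card : ℝ) / R.card - ((Y' ∩ B).card : ℝ) / Y'.card| +
          |((Y' ∩ B).card : ℝ) / Y'.card - ((Y ∩ B).card : ℝ) / Y.card| := abs_sub_le _ _ _
      refine h3.trans ((add_le_add h1 h2).trans ?_)
      split_ifs with hc
      · rw [zero_add]
        have h4 : 256 / s ≤ 256 / s₀ := div_le_div_of_nonneg_left (by norm_num) hs₀0 hss'.le
        have h5 : 16 * q / s = q * (256 / s - 240 / s) := by field_simp; ring
        rw [h5]
        exact mul_le_mul_of_nonneg_left (by linarith) (by linarith)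
      · have h4 : 256 / s ≤ 240 / s' := by
          rw [div_le_div_iff₀ hs hs'0]
          nlinarith
        have h5 : 16 * q / s = q * (16 / s) := by ring
        rw [h5, ← mul_add]
        refine mul_le_mul_of_nonneg_left ?_ (by linarith)
        have h6 : 256 / s = 240 / s + 16 / s := by ring
        linarith

/-- P3 approximations by repeated halving -/
theorem approx : ∃ A : ℝ, 0 < A ∧ ∀ (ι : Type) (J : Finset ι) (F : Set (Finset ι)) (D : ℕ)
    (e : ℝ), J.Nonempty → 1 ≤ D → 0 < e → e ≤ 1 → Growth J F D →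
    ∃ R ⊆ J, R.Nonempty ∧ (R.card : ℝ) ≤ A * (D : ℝ) ^ 2 / e ^ 4 ∧
      ∀ B ∈ F, |((R ∩ B).card : ℝ) / R.card - ((J ∩ B).card : ℝ) / J.card| ≤ e := by
  refine ⟨256 ^ 4, by norm_num, ?_⟩
  intro ι J F D e hJ hD he he1 hG
  set q : ℝ := Real.sqrt D with hqdef
  have hD' : (1 : ℝ) ≤ D := by exact_mod_cast hD
  have hq : q ^ 2 = D := Real.sq_sqrt (by linarith)
  have hq1 : 1 ≤ q := by
    rw [hqdef]
    exact Real.one_le_sqrt.2 hD'
  set s₀ : ℝ := 256 * q / e with hs₀def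
  have hs₀ : 256 * q ≤ s₀ := by
    rw [hs₀def, le_div_iff₀ he]
    nlinarith
  have hJpos : (0 : ℝ) < J.card := by exact_mod_cast Finset.card_pos.2 hJ
  set s : ℝ := Real.sqrt (Real.sqrt J.card) with hs
  have hs0 : 0 < s := Real.sqrt_pos.2 (Real.sqrt_pos.2 hJpos)
  have hs4 : s ^ 4 = J.card := by
    rw [hs, show (4 : ℕ) = 2 * 2 from rfl, pow_mul, Real.sq_sqrt (Real.sqrt_nonneg _),
      Real.sq_sqrt hJpos.le]
  obtain ⟨R, hR, hRne, hRc, hRe⟩ := approx_ind J F D hD hG q hq hq1 s₀ hs₀ J.card J le_rfl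
    (Finset.Subset.refl _) hJ s hs0 hs4
  refine ⟨R, hR, hRne, ?_, ?_⟩
  · refine hRc.trans (le_of_eq ?_)
    rw [hs₀def, ← hq]
    ring
  · intro B hB
    refine (hRe B hB).trans ?_
    split_ifs with hc
    · exact he.le
    · have h1 : q * (256 / s₀) = e := by
        rw [hs₀def]
        field_simp
      have h2 : 0 ≤ q * (240 / s) := by positivity
      rw [mul_sub, h1]
      linarith

end

end MPa20b56
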