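import Pool.Agent.Lib_MP_a20b56_co.Defs

namespace MPa20b56

open scoped BigOperators Classical
open MeasureTheory

noncomputable section

/-- P9b volume of a parallelotope -/
theorem box_volume {d : ℕ} (x : V d) (w : Fin d → V d) (κ : ℝ) (hκ : 0 ≤ κ) :
    MeasurableSet {y : V d | ∃ t : Fin d → ℝ, (∀ i, |t i| ≤ κ) ∧ y = x + ∑ i, t i • w i} ∧
    volume {y : V d | ∃ t : Fin d → ℝ, (∀ i, |t i| ≤ κ) ∧ y = x + ∑ i, t i • w i} =
      ENNReal.ofReal ((2 * κ) ^ d * |Matrix.det (Matrix.of w)|) := by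
  set L : (Fin d → ℝ) →ₗ[ℝ] (Fin d → ℝ) := Matrix.toLin' (Matrix.of w).transpose with hL
  have hLt : ∀ t : Fin d → ℝ, L t = ∑ i, t i • w i := by
    intro t
    rw [hL, Matrix.toLin'_apply, Matrix.mulVec_transpose]
    ext j
    simp [Matrix.vecMul, dotProduct, Finset.sum_apply]
  set I : Set (Fin d → ℝ) := Set.Icc (fun _ => -κ) (fun _ => κ) with hI
  have hset : {y : V d | ∃ t : Fin d → ℝ, (∀ i, |t i| ≤ κ) ∧ y = x + ∑ i, t i • w i} =
      (fun z => x + z) '' (L '' I) := by
    ext y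
    constructor
    · rintro ⟨t, ht, rfl⟩
      refine ⟨L t, ⟨t, ?_, rfl⟩, by rw [hLt]⟩
      exact ⟨fun i => (abs_le.mp (ht i)).1, fun i => (abs_le.mp (ht i)).2⟩
    · rintro ⟨_, ⟨t, ht, rfl⟩, rfl⟩
      exact ⟨t, fun i => abs_le.mpr ⟨ht.1 i, ht.2 i⟩, by rw [← hLt]⟩
  rw [hset]
  have hcont : Continuous L := L.continuous_of_finiteDimensional
  constructor
  · have : IsCompact ((fun z => x + z) '' (L '' I)) :=
      (isCompact_Icc.image hcont).image (continuous_const.add continuous_id)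
    exact this.measurableSet
  · rw [Set.image_add_left, measure_preimage_add, Measure.addHaar_image_linearMap, hI,
      Real.volume_Icc_pi, hL, LinearMap.det_toLin', Matrix.det_transpose]
    have h1 : ∀ i : Fin d, ENNReal.ofReal (κ - -κ) = ENNReal.ofReal (2 * κ) := by
      intro _
      congr 1
      ring
    rw [Finset.prod_congr rfl (fun i _ => h1 i), Finset.prod_const, Finset.card_univ,
      Fintype.card_fin, ← ENNReal.ofReal_pow (by positivity),
      ← ENNReal.ofReal_mul (abs_nonneg _), mul_comm]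

end

end MPa20b56
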