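import Pool.Agent.Lib_MP_a20b56_co.HalfGrowth
import Pool.Agent.Lib_MP_a20b56_co.Approx

namespace MPa20b56

open scoped BigOperators Classical
open MeasureTheory

noncomputable section

theorem center_convex_pos {d : ℕ} (f : Aff d) : Convex ℝ {x : V d | 0 < ev f x} := by
  intro x hx y hy a b ha hb hab
  simp only [Set.mem_setOf_eq] at hx hy ⊢
  have h : ev f (a • x + b • y) = a * ev f x + b * ev f y := by
    unfold ev
    simp only [Pi.add_apply, Pi.smul_apply, smul_eq_mul, mul_add, Finset.sum_add_distrib]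
    rw [Finset.mul_sum, Finset.mul_sum]
    have h1 : ∑ i, f.1 i * (a * x i) = ∑ i, a * (f.1 i * x i) :=
      Finset.sum_congr rfl fun i _ => by ring
    have h2 : ∑ i, f.1 i * (b * y i) = ∑ i, b * (f.1 i * y i) :=
      Finset.sum_congr rfl fun i _ => by ring
    rw [h1, h2]
    have h3 : f.2 = a * f.2 + b * f.2 := by rw [← add_mul, hab, one_mul]
    linarith
  rw [h]
  rcases eq_or_lt_of_le ha with h0 | h0
  · rw [← h0] at hab ⊢
    have : b = 1 := by linarith
    rw [this]
    linarith
  · have h1 : 0 < a * ev f x := mul_pos h0 hx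
    have h2 : 0 ≤ b * ev f y := mul_nonneg hb hy.le
    linarith

/-- P4a centerpoint theorem (Helly) -/
theorem centerpoint {d : ℕ} {ι : Type} (J : Finset ι) (hJ : J.Nonempty) (y : ι → V d) :
    ∃ x : V d, ∀ f : Aff d, ev f x ≤ 0 →
      (J.card : ℝ) ≤ ((d : ℝ) + 1) * (J.filter (fun j => ev f (y j) ≤ 0)).card := by
  set S : Finset (Finset ι) := J.powerset.filter (fun G => d * J.card < (d + 1) * G.card) with hS
  have h1 : (⋂ G ∈ S, convexHull ℝ (y '' (G : Set ι))).Nonempty := by
    refine Convex.helly_theorem' (𝕜 := ℝ) (fun G _ => convex_convexHull ℝ _) ?_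
    intro I hI hIc
    rw [Module.finrank_fin_fun] at hIc
    have h2 : ∃ j ∈ J, ∀ G ∈ I, j ∈ G := by
      by_contra hcon
      push Not at hcon
      have h3 : J ⊆ I.biUnion (fun G => J \ G) := by
        intro j hj
        obtain ⟨G, hG, hjG⟩ := hcon j hj
        exact Finset.mem_biUnion.mpr ⟨G, hG, Finset.mem_sdiff.mpr ⟨hj, hjG⟩⟩
      have h4 := (Finset.card_le_card h3).trans Finset.card_biUnion_le
      have h5 : ∀ G ∈ I, (d + 1) * (J \ G).card + 1 ≤ J.card := by
        intro G hG
        have h6 := hI hG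
        rw [hS, Finset.mem_filter, Finset.mem_powerset] at h6
        have h7 := Finset.card_sdiff_add_card_eq_card h6.1
        have h8 := h6.2
        nlinarith
      have h6 : (d + 1) * ∑ G ∈ I, (J \ G).card + I.card ≤ I.card * J.card := by
        have h7 : ∑ G ∈ I, ((d + 1) * (J \ G).card + 1) ≤ ∑ _G ∈ I, J.card :=
          Finset.sum_le_sum h5
        rw [Finset.sum_add_distrib, ← Finset.mul_sum, Finset.sum_const, Finset.sum_const,
          smul_eq_mul, smul_eq_mul, mul_one] at h7
        exact h7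
      have h7 : (d + 1) * J.card + I.card ≤ (d + 1) * J.card := by
        calc (d + 1) * J.card + I.card ≤ (d + 1) * ∑ G ∈ I, (J \ G).card + I.card := by
              gcongr
          _ ≤ I.card * J.card := h6
          _ ≤ (d + 1) * J.card := Nat.mul_le_mul_right _ hIc
      have h8 : I.card = 0 := by omega
      rw [Finset.card_eq_zero] at h8
      rw [h8] at h3
      obtain ⟨j, hj⟩ := hJ
      have := h3 hj
      simp at this
    obtain ⟨j, _, hj⟩ := h2
    refine ⟨y j, ?_⟩
    simp only [Set.mem_iInter]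
    intro G hG
    exact subset_convexHull ℝ _ (Set.mem_image_of_mem y (hj G hG))
  obtain ⟨x, hx⟩ := h1
  refine ⟨x, fun f hf => ?_⟩
  by_contra hcon
  push Not at hcon
  set G : Finset ι := J.filter (fun j => 0 < ev f (y j)) with hG
  have h2 : (J.filter (fun j => ev f (y j) ≤ 0)).card + G.card = J.card := by
    rw [hG]
    have := Finset.card_filter_add_card_filter_not (s := J) (fun j => ev f (y j) ≤ 0)
    simpa only [not_le] using this
  have h3 : (d + 1) * (J.filter (fun j => ev f (y j) ≤ 0)).card < J.card := by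
    exact_mod_cast hcon
  have h4 : G ∈ S := by
    rw [hS, Finset.mem_filter, Finset.mem_powerset]
    refine ⟨Finset.filter_subset _ _, ?_⟩
    nlinarith
  simp only [Set.mem_iInter] at hx
  have h5 := hx G h4
  have h6 : convexHull ℝ (y '' (G : Set ι)) ⊆ {x : V d | 0 < ev f x} := by
    refine convexHull_min ?_ (center_convex_pos f)
    rintro _ ⟨j, hj, rfl⟩
    rw [hG, Finset.mem_coe, Finset.mem_filter] at hj
    exact hj.2
  have h7 := h6 h5
  simp only [Set.mem_setOf_eq] at h7
  linarith

/-- a chosen centre of a tuple -/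
def centerOf {d l : ℕ} (t : Fin l → V d) : V d :=
  if h : (Finset.univ : Finset (Fin l)).Nonempty then (centerpoint Finset.univ h t).choose else 0

theorem centerOf_spec {d l : ℕ} (hl : 0 < l) (t : Fin l → V d) (f : Aff d)
    (hf : ev f (centerOf t) ≤ 0) :
    (l : ℝ) ≤ ((d : ℝ) + 1) * (Finset.univ.filter (fun j => ev f (t j) ≤ 0)).card := by
  have h : (Finset.univ : Finset (Fin l)).Nonempty := ⟨⟨0, hl⟩, Finset.mem_univ _⟩
  rw [centerOf, dif_pos h] at hf
  have := (centerpoint Finset.univ h t).choose_spec f hf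
  rwa [Finset.card_univ, Fintype.card_fin] at this

/-- P4b few candidate centres for all weights -/
theorem centers (d : ℕ) : ∃ M : ℕ, ∀ Q : Finset (V d), ∃ X : Finset (V d),
    X.card ≤ (Q.card + 1) ^ M ∧
    ∀ (ι : Type) (G : Finset ι) (q : ι → V d), G.Nonempty → (∀ j ∈ G, q j ∈ Q) →
      ∃ x ∈ X, ∀ f : Aff d, ev f x ≤ 0 →
        2 * (G.card : ℝ) ≤ 3 * ((d : ℝ) + 1) * (G.filter (fun j => ev f (q j) ≤ 0)).card := by
  obtain ⟨A, hA, happ⟩ := approx
  set e : ℝ := 1 / (3 * ((d : ℝ) + 1)) with he
  have he0 : 0 < e := by positivity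
  have he1 : e ≤ 1 := by
    rw [he, div_le_one (by positivity)]
    have : (0 : ℝ) ≤ d := Nat.cast_nonneg d
    linarith
  set k : ℕ := ⌊A * ((d + 1 : ℕ) : ℝ) ^ 2 / e ^ 4⌋₊ with hk
  refine ⟨k, fun Q => ?_⟩
  refine ⟨(Finset.range (k + 1)).biUnion fun l =>
    (Finset.univ : Finset (Fin l → Q)).image fun t => centerOf (fun i => (t i : V d)), ?_, ?_⟩
  · refine Finset.card_biUnion_le.trans ?_
    rw [add_pow]
    refine Finset.sum_le_sum fun l hl => ?_
    refine Finset.card_image_le.trans ?_
    rw [Finset.card_univ, Fintype.card_fun, Fintype.card_fin, Fintype.card_coe, one_pow, mul_one]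
    refine Nat.le_mul_of_pos_right _ (Nat.choose_pos ?_)
    rw [Finset.mem_range] at hl
    omega
  · intro ι G q hG hq
    set F : Set (Finset ι) := {B | ∃ f : Aff d, B = G.filter (fun j => ev f (q j) ≤ 0)} with hF
    have hgr : Growth G F (d + 1) := by
      intro Y hY
      obtain ⟨T, hT, hT'⟩ := halfspace_growth Y q
      refine ⟨T, hT, ?_⟩
      rintro B ⟨f, rfl⟩
      convert hT' f using 1
      ext j
      simp only [Finset.mem_inter, Finset.mem_filter]
      constructor
      · rintro ⟨h1, h2, h3⟩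
        exact ⟨h1, h3⟩
      · rintro ⟨h1, h3⟩
        exact ⟨h1, hY h1, h3⟩
    obtain ⟨R, hRG, hRne, hRc, hR⟩ := happ ι G F (d + 1) e hG (by omega) he0 he1 hgr
    have hRk : R.card ≤ k := Nat.le_floor hRc
    have hl : 0 < R.card := hRne.card_pos
    let E : Fin R.card ≃ R := R.equivFin.symm
    let t : Fin R.card → Q := fun i => ⟨q (E i), hq _ (hRG (E i).2)⟩
    refine ⟨centerOf (fun i => (t i : V d)), ?_, fun f hf => ?_⟩
    · rw [Finset.mem_biUnion]
      refine ⟨R.card, Finset.mem_range.mpr (by omega), ?_⟩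
      exact Finset.mem_image_of_mem _ (Finset.mem_univ t)
    · have h1 := centerOf_spec hl _ f hf
      have h2 : (Finset.univ.filter (fun i : Fin R.card => ev f (t i : V d) ≤ 0)).card =
          (R.filter (fun j => ev f (q j) ≤ 0)).card := by
        refine Finset.card_bij (fun i _ => (E i : ι)) ?_ ?_ ?_
        · intro i hi
          rw [Finset.mem_filter] at hi ⊢
          exact ⟨(E i).2, hi.2⟩
        · intro i _ j _ hij
          exact E.injective (Subtype.ext hij)
        · intro j hj
          rw [Finset.mem_filter] at hj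
          refine ⟨E.symm ⟨j, hj.1⟩, ?_, ?_⟩
          · rw [Finset.mem_filter]
            refine ⟨Finset.mem_univ _, ?_⟩
            simp only [t, Equiv.apply_symm_apply]
            exact hj.2
          · simp
      rw [h2] at h1
      have h3 := hR (G.filter (fun j => ev f (q j) ≤ 0)) ⟨f, rfl⟩
      have h4 : R ∩ G.filter (fun j => ev f (q j) ≤ 0) = R.filter (fun j => ev f (q j) ≤ 0) := by
        ext j
        simp only [Finset.mem_inter, Finset.mem_filter]
        constructor
        · rintro ⟨h1, h2, h3⟩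
          exact ⟨h1, h3⟩
        · rintro ⟨h1, h3⟩
          exact ⟨h1, hRG h1, h3⟩
      have h5 : G ∩ G.filter (fun j => ev f (q j) ≤ 0) = G.filter (fun j => ev f (q j) ≤ 0) :=
        Finset.inter_eq_right.mpr (Finset.filter_subset _ _)
      rw [h4, h5] at h3
      have hR0 : (0 : ℝ) < R.card := by exact_mod_cast hl
      have hG0 : (0 : ℝ) < G.card := by exact_mod_cast hG.card_pos
      have h6 : 1 / ((d : ℝ) + 1) ≤ ((R.filter (fun j => ev f (q j) ≤ 0)).card : ℝ) / R.card := by
        rw [div_le_div_iff₀ (by positivity) hR0]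
        linarith
      have h7 := (abs_le.mp h3).2
      have h8 : 2 / (3 * ((d : ℝ) + 1)) ≤ ((G.filter (fun j => ev f (q j) ≤ 0)).card : ℝ) / G.card := by
        have h9 : 2 / (3 * ((d : ℝ) + 1)) = 1 / ((d : ℝ) + 1) - e := by
          rw [he]
          field_simp
          norm_num
        rw [h9]
        linarith
      rw [div_le_div_iff₀ (by positivity) hG0] at h8
      linarith

end

end MPa20b56
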