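import Pool.Agent.Lib_MP_a20b56_co.Defs

namespace MPa20b56

open scoped BigOperators Classical
open MeasureTheory

noncomputable section

theorem deepPts_rep {d : ℕ} (S : Set (V d)) (x : V d) (hx : x ∈ convexHull ℝ S) :
    ∃ y ∈ S, ∃ q ∈ convexHull ℝ S, ∃ a : ℝ, 1 / ((d : ℝ) + 1) ≤ a ∧ a ≤ 1 ∧
      x = a • y + (1 - a) • q := by
  rw [convexHull_eq_union] at hx
  simp only [Set.mem_iUnion] at hx
  obtain ⟨t, htS, hai, hxt⟩ := hx
  have hcard : t.card ≤ d + 1 := by
    have h1 := hai.card_le_finrank_succ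
    rw [Fintype.card_coe] at h1
    have h3 := Submodule.finrank_le (vectorSpan ℝ (Set.range ((↑) : t → V d)))
    rw [Module.finrank_fin_fun] at h3
    exact h1.trans (Nat.add_le_add_right h3 1)
  obtain ⟨w, hw0, hw1, hwx⟩ := Finset.mem_convexHull'.1 hxt
  have hne : t.Nonempty := by
    rw [Finset.nonempty_iff_ne_empty]
    rintro rfl
    simp at hw1
  have hd : (0 : ℝ) < (d : ℝ) + 1 := by positivity
  obtain ⟨y, hy, hwy⟩ : ∃ y ∈ t, 1 / ((d : ℝ) + 1) ≤ w y := by
    by_contra hcon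
    push Not at hcon
    have h1 := Finset.sum_lt_sum_of_nonempty hne hcon
    rw [hw1, Finset.sum_const, nsmul_eq_mul] at h1
    have h2 : (t.card : ℝ) ≤ (d : ℝ) + 1 := by exact_mod_cast hcard
    have h3 : (t.card : ℝ) * (1 / ((d : ℝ) + 1)) ≤ 1 := by
      rw [mul_one_div, div_le_one hd]
      exact h2
    linarith
  have hwy1 : w y ≤ 1 := by
    rw [← hw1]
    exact Finset.single_le_sum hw0 hy
  have hsum : w y + ∑ z ∈ t.erase y, w z = 1 := by
    rw [Finset.add_sum_erase t w hy]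
    exact hw1
  have hsum2 : w y • y + ∑ z ∈ t.erase y, w z • z = x := by
    rw [Finset.add_sum_erase t (fun z => w z • z) hy]
    exact hwx
  by_cases h1 : w y = 1
  · refine ⟨y, htS hy, y, subset_convexHull ℝ S (htS hy), w y, hwy, hwy1, ?_⟩
    have h2 : ∑ z ∈ t.erase y, w z = 0 := by linarith
    have h3 : ∀ z ∈ t.erase y, w z = 0 :=
      (Finset.sum_eq_zero_iff_of_nonneg (fun z hz => hw0 z (Finset.mem_of_mem_erase hz))).1 h2
    have h4 : ∑ z ∈ t.erase y, w z • z = 0 :=
      Finset.sum_eq_zero (fun z hz => by rw [h3 z hz, zero_smul])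
    rw [← hsum2, h4, h1]
    simp
  · have h2 : 0 < 1 - w y := by
      have := lt_of_le_of_ne hwy1 h1
      linarith
    refine ⟨y, htS hy, ∑ z ∈ t.erase y, (w z / (1 - w y)) • z, ?_, w y, hwy, hwy1, ?_⟩
    · refine (convex_convexHull ℝ S).sum_mem (fun z hz => ?_) ?_ (fun z hz => ?_)
      · exact div_nonneg (hw0 z (Finset.mem_of_mem_erase hz)) h2.le
      · rw [← Finset.sum_div, div_eq_one_iff_eq h2.ne']
        linarith
      · exact subset_convexHull ℝ S (htS (Finset.mem_of_mem_erase hz))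
    · rw [Finset.smul_sum, ← hsum2]
      congr 1
      refine Finset.sum_congr rfl fun z _ => ?_
      rw [smul_smul]
      congr 1
      field_simp

/-- P11 deep points see many members with a large coefficient -/
theorem deep {d : ℕ} {ι : Type} (c : ι → V d) (G : Finset ι) (x : V d) (m : ℝ) (hm : 0 < m)
    (h : Deep c G x m) :
    m ≤ ((G.filter (fun j => ∃ q ∈ convexHull ℝ (c '' (G : Set ι)), ∃ a : ℝ,
      1 / ((d : ℝ) + 1) ≤ a ∧ a ≤ 1 ∧ x = a • c j + (1 - a) • q)).card : ℝ) := by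
  set P : ι → Prop := fun j => ∃ q ∈ convexHull ℝ (c '' (G : Set ι)), ∃ a : ℝ,
      1 / ((d : ℝ) + 1) ≤ a ∧ a ≤ 1 ∧ x = a • c j + (1 - a) • q with hP
  set Bad : Finset ι := G.filter (fun j => ¬ P j) with hBad
  have hx : x ∉ convexHull ℝ (c '' (Bad : Set ι)) := by
    intro hx
    obtain ⟨y, hy, q, hq, a, ha1, ha2, hxa⟩ := deepPts_rep _ x hx
    obtain ⟨j, hj, rfl⟩ := hy
    have hj' := Finset.mem_filter.1 (Finset.mem_coe.1 hj)
    apply hj'.2
    refine ⟨q, ?_, a, ha1, ha2, hxa⟩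
    refine convexHull_mono (Set.image_mono ?_) hq
    exact_mod_cast Finset.filter_subset _ _
  have hcomp : IsCompact (convexHull ℝ (c '' (Bad : Set ι))) :=
    (Bad.finite_toSet.image c).isCompact_convexHull ℝ
  obtain ⟨f, u, hfx, hfb⟩ := geometric_hahn_banach_point_closed
    (convex_convexHull ℝ (c '' (Bad : Set ι))) hcomp.isClosed hx
  set g : Aff d := (fun i => f (fun j => if i = j then 1 else 0), -u) with hg
  have hev : ∀ y : V d, ev g y = f y - u := by
    intro y
    have h1 := LinearMap.pi_apply_eq_sum_univ (f : V d →ₗ[ℝ] ℝ) y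
    have h2 : f y = ∑ i, y i • f (fun j => if i = j then 1 else 0) := h1
    unfold ev
    rw [hg, h2]
    simp only [smul_eq_mul]
    rw [sub_eq_add_neg]
    congr 1
    exact Finset.sum_congr rfl fun i _ => mul_comm _ _
  refine (h g (by rw [hev]; linarith)).trans ?_
  have hsub : G.filter (fun j => ev g (c j) ≤ 0) ⊆ G.filter P := by
    intro j hj
    obtain ⟨hjG, hje⟩ := Finset.mem_filter.1 hj
    refine Finset.mem_filter.2 ⟨hjG, ?_⟩
    by_contra hcon
    have hjB : j ∈ Bad := Finset.mem_filter.2 ⟨hjG, hcon⟩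
    have := hfb (c j) (subset_convexHull ℝ _ (Set.mem_image_of_mem c (Finset.mem_coe.2 hjB)))
    rw [hev] at hje
    linarith
  exact Nat.cast_le.2 (Finset.card_le_card hsub)

end

end MPa20b56
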