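import Mathlib

/-!
Volumetric weak epsilon-nets (MP_a20b56_co): definitions.
-/

namespace MPa20b56

open scoped BigOperators
open MeasureTheory

noncomputable section

/-- `ℝ^d` -/
abbrev V (d : ℕ) := Fin d → ℝ

/-- An affine functional `x ↦ a·x + b` on `ℝ^d`, as a vector of `ℝ^d × ℝ`. -/
abbrev Aff (d : ℕ) := V d × ℝ

/-- Evaluation of an affine functional. -/
def ev {d : ℕ} (f : Aff d) (x : V d) : ℝ := (∑ i, f.1 i * x i) + f.2

/-- The hull of the members `j ∈ G`; the member `j` is given by the points `c j ± u j i`. -/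
def Hull {d : ℕ} {ι : Type} (c : ι → V d) (u : ι → Fin d → V d) (G : Finset ι) : Set (V d) :=
  convexHull ℝ {y | ∃ j ∈ G, ∃ i : Fin d, y = c j + u j i ∨ y = c j - u j i}

/-- The constant `κ_d = 1 / ((d+1) d^2)`. -/
def kap (d : ℕ) : ℝ := 1 / (((d : ℝ) + 1) * (d : ℝ) ^ 2)

/-- The small parallelotope with centre `x` and the shape of the member `j`. -/
def Box {d : ℕ} {ι : Type} (u : ι → Fin d → V d) (x : V d) (j : ι) : Set (V d) :=
  {y | ∃ t : Fin d → ℝ, (∀ i, |t i| ≤ kap d) ∧ y = x + ∑ i, t i • u j i}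

/-- There is a net of at most `N` boxes for the subfamilies of `J` of density `≥ ε`. -/
def HasNet {d : ℕ} {ι : Type} (c : ι → V d) (u : ι → Fin d → V d) (J : Finset ι)
    (ε N : ℝ) : Prop :=
  ∃ S : Finset (V d × ι), (S.card : ℝ) ≤ N ∧
    ∀ G ⊆ J, G.Nonempty → ε * (J.card : ℝ) ≤ (G.card : ℝ) →
      ∃ p ∈ S, Box u p.1 p.2 ⊆ Hull c u G

/-- `x` has depth at least `m` in the centres of `G`: every closed half space containing `x`
contains at least `m` centres. -/
def Deep {d : ℕ} {ι : Type} (c : ι → V d) (G : Finset ι) (x : V d) (m : ℝ) : Prop :=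
  ∀ f : Aff d, ev f x ≤ 0 → m ≤ ((G.filter (fun j => ev f (c j) ≤ 0)).card : ℝ)

/-- The family `F` of index sets has growth `D` on the subsets of `J`. -/
def Growth {ι : Type} [DecidableEq ι] (J : Finset ι) (F : Set (Finset ι)) (D : ℕ) : Prop :=
  ∀ Y ⊆ J, ∃ T : Finset (Finset ι), T.card ≤ (Y.card + 1) ^ D ∧ ∀ A ∈ F, Y ∩ A ∈ T

/-- `v` is a vertex of the arrangement of the functionals `L`. -/
def IsVert {d : ℕ} (L : Finset (Aff d)) (v : V d) : Prop :=
  ∃ T ⊆ L, T.card ≤ d ∧ ∀ x : V d, (∀ f ∈ T, ev f x = 0) ↔ x = v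

/-- General position: any at most `d + 1` of the functionals are linearly independent. -/
def GenPos {d : ℕ} (L : Finset (Aff d)) : Prop :=
  ∀ T : Finset (Aff d), T ⊆ L → T.card ≤ d + 1 →
    LinearIndependent ℝ (fun f : T => (f : Aff d))

end

end MPa20b56
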