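import Pool.Agent.Lib_MP_a20b56_co.Defs

namespace MPa20b56

open scoped BigOperators Classical
open MeasureTheory

noncomputable section

/-- a partial convex combination with base point -/
theorem inscribed_mem {d : ℕ} (K : Set (V d)) (hK : Convex ℝ K) (x0 : V d) (hx0 : x0 ∈ K)
    (x : Fin d → V d) (hx : ∀ i, x i ∈ K) (a : Fin d → ℝ) (ha : ∀ i, 0 ≤ a i)
    (hs : ∑ i, a i ≤ 1) : x0 + ∑ i, a i • (x i - x0) ∈ K := by
  have h := hK.sum_mem (t := Finset.univ) (w := fun o : Option (Fin d) => o.elim (1 - ∑ i, a i) a)
    (z := fun o : Option (Fin d) => o.elim x0 x) (by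
      intro o _
      cases o with
      | none => simpa using hs
      | some i => exact ha i) (by
      rw [Fintype.sum_option]
      simp) (by
      intro o _
      cases o with
      | none => exact hx0
      | some i => exact hx i)
  rw [Fintype.sum_option] at h
  have e : x0 + ∑ i, a i • (x i - x0) = (1 - ∑ i, a i) • x0 + ∑ i, a i • x i := by
    simp only [smul_sub, Finset.sum_sub_distrib, sub_smul, one_smul, Finset.sum_smul]
    abel
  rw [e]
  exact h

/-- a set of positive volume contains a simplex with nonzero determinant -/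
theorem inscribed_exists {d : ℕ} (K : Set (V d)) (hv : volume K ≠ 0) (x0 : V d) (hx0 : x0 ∈ K) :
    ∃ x : Fin d → V d, (∀ i, x i ∈ K) ∧ Matrix.det (Matrix.of fun i => x i - x0) ≠ 0 := by
  set s : Set (V d) := (fun y => y - x0) '' K with hs
  have hspan : Submodule.span ℝ s = ⊤ := by
    by_contra hne
    have h0 : volume ((Submodule.span ℝ s : Submodule ℝ (V d)) : Set (V d)) = 0 :=
      Measure.addHaar_submodule volume _ hne
    apply hv
    have hsub : K ⊆ (fun y => -x0 + y) ⁻¹' ((Submodule.span ℝ s : Submodule ℝ (V d)) : Set (V d)) := by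
      intro y hy
      show -x0 + y ∈ Submodule.span ℝ s
      apply Submodule.subset_span
      exact ⟨y, hy, by simp only; abel⟩
    refine measure_mono_null hsub ?_
    rw [measure_preimage_add]
    exact h0
  obtain ⟨b, hbs, hbspan, hbli⟩ := exists_linearIndependent ℝ s
  have htop : ⊤ ≤ Submodule.span ℝ (Set.range ((↑) : b → V d)) := by
    rw [Subtype.range_coe, hbspan, hspan]
  set B := Module.Basis.mk hbli htop with hB
  have hfin : Fintype b := FiniteDimensional.fintypeBasisIndex B
  have hcard : Fintype.card b = d := by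
    rw [← Module.finrank_eq_card_basis B, Module.finrank_fin_fun]
  set e : Fin d ≃ b := (Fintype.equivFinOfCardEq hcard).symm with he
  have hmem : ∀ i : Fin d, ∃ y ∈ K, y - x0 = (e i : V d) := fun i => hbs (e i).2
  choose x hxK hxe using hmem
  refine ⟨x, hxK, ?_⟩
  have hrow : (Matrix.of fun i => x i - x0) = Matrix.of fun i => (e i : V d) := by
    congr 1
    funext i
    exact hxe i
  rw [hrow]
  have hli : LinearIndependent ℝ (fun i : Fin d => (e i : V d)) := hbli.comp e e.injective
  have hu : IsUnit (Matrix.of fun i : Fin d => (e i : V d)) := by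
    rw [← Matrix.linearIndependent_rows_iff_isUnit]
    exact hli
  rw [Matrix.isUnit_iff_isUnit_det] at hu
  exact hu.ne_zero

/-- P9a inscribed data of a convex set of volume one -/
theorem inscribed {d : ℕ} (hd : 1 ≤ d) (K : Set (V d)) (hK : Convex ℝ K)
    (hv : volume K = 1) :
    ∃ (c : V d) (u : Fin d → V d), (∀ i, c + u i ∈ K ∧ c - u i ∈ K) ∧
      (1 / (8 * (d : ℝ))) ^ d ≤ |Matrix.det (Matrix.of u)| := by
  have hd0 : (0 : ℝ) < d := by exact_mod_cast hd
  have hd1 : (1 : ℝ) ≤ d := by exact_mod_cast hd
  have hKne : K.Nonempty := by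
    by_contra hcon
    rw [Set.not_nonempty_iff_eq_empty] at hcon
    rw [hcon, measure_empty] at hv
    exact zero_ne_one hv
  by_cases hbig : ∃ x0 ∈ K, ∃ x : Fin d → V d, (∀ i, x i ∈ K) ∧
      (1 / 4 : ℝ) ^ d ≤ |Matrix.det (Matrix.of fun i => x i - x0)|
  · obtain ⟨x0, hx0, x, hx, hD⟩ := hbig
    refine ⟨x0 + (1 / (2 * (d : ℝ))) • ∑ k, (x k - x0),
      fun i => (1 / (2 * (d : ℝ))) • (x i - x0), ?_, ?_⟩
    · intro i
      have hsum : ∀ σ : ℝ, ∑ k, (1 / (2 * (d : ℝ)) + if k = i then σ * (1 / (2 * (d : ℝ))) else 0) =
          1 / 2 + σ * (1 / (2 * (d : ℝ))) := by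
        intro σ
        rw [Finset.sum_add_distrib, Finset.sum_const, Finset.card_univ, Fintype.card_fin,
          nsmul_eq_mul]
        simp
        field_simp
      have hvec : ∀ σ : ℝ, x0 + ∑ k, (1 / (2 * (d : ℝ)) + if k = i then σ * (1 / (2 * (d : ℝ))) else 0) •
          (x k - x0) = x0 + (1 / (2 * (d : ℝ))) • ∑ k, (x k - x0) +
            σ • ((1 / (2 * (d : ℝ))) • (x i - x0)) := by
        intro σ
        simp only [add_smul, Finset.sum_add_distrib, ite_smul, zero_smul, Finset.sum_ite_eq',
          Finset.mem_univ, if_true, Finset.smul_sum, smul_smul]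
        abel
      have hle : 1 / (2 * (d : ℝ)) ≤ 1 / 2 := by
        apply one_div_le_one_div_of_le (by norm_num)
        linarith
      have hpos : 0 < 1 / (2 * (d : ℝ)) := by positivity
      constructor
      · have h := inscribed_mem K hK x0 hx0 x hx
          (fun k => 1 / (2 * (d : ℝ)) + if k = i then 1 * (1 / (2 * (d : ℝ))) else 0)
          (by
            intro k
            split_ifs <;> linarith) (by rw [hsum]; linarith)
        rw [hvec, one_smul] at h
        exact h
      · have h := inscribed_mem K hK x0 hx0 x hx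
          (fun k => 1 / (2 * (d : ℝ)) + if k = i then (-1) * (1 / (2 * (d : ℝ))) else 0)
          (by
            intro k
            split_ifs <;> linarith) (by rw [hsum]; linarith)
        rw [hvec, neg_one_smul, ← sub_eq_add_neg] at h
        exact h
    · have e : (Matrix.of fun i => (1 / (2 * (d : ℝ))) • (x i - x0)) =
          (1 / (2 * (d : ℝ))) • (Matrix.of fun i => x i - x0) := rfl
      rw [e, Matrix.det_smul, Fintype.card_fin, abs_mul, abs_pow,
        abs_of_pos (by positivity : 0 < 1 / (2 * (d : ℝ)))]
      calc (1 / (8 * (d : ℝ))) ^ d = (1 / (2 * (d : ℝ))) ^ d * (1 / 4) ^ d := by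
            rw [← mul_pow]
            congr 1
            field_simp
            norm_num
        _ ≤ _ := mul_le_mul_of_nonneg_left hD (by positivity)
  · exfalso
    push Not at hbig
    obtain ⟨z0, hz0⟩ := hKne
    obtain ⟨z, hz, hzdet⟩ := inscribed_exists K (by rw [hv]; exact one_ne_zero) z0 hz0
    set DD : Set ℝ := {r | ∃ x0 ∈ K, ∃ x : Fin d → V d, (∀ i, x i ∈ K) ∧
      r = |Matrix.det (Matrix.of fun i => x i - x0)|} with hDD
    have hbdd : BddAbove DD := by
      refine ⟨(1 / 4 : ℝ) ^ d, ?_⟩
      rintro r ⟨x0, hx0, x, hx, rfl⟩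
      exact (hbig x0 hx0 x hx).le
    have hne : DD.Nonempty := ⟨_, z0, hz0, z, hz, rfl⟩
    set S := sSup DD with hS
    have hSpos : 0 < S := lt_of_lt_of_le (abs_pos.mpr hzdet) (le_csSup hbdd ⟨z0, hz0, z, hz, rfl⟩)
    obtain ⟨r, ⟨x0, hx0, x, hx, rfl⟩, hr⟩ := exists_lt_of_lt_csSup hne (show S / 2 < S by linarith)
    set A : Matrix (Fin d) (Fin d) ℝ := Matrix.of fun i => x i - x0 with hA
    have hApos : 0 < |A.det| := by linarith
    have hAne : A.det ≠ 0 := abs_pos.mp hApos
    have hAlt : |A.det| < (1 / 4 : ℝ) ^ d := hbig x0 hx0 x hx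
    have hcov : K ⊆ (fun v => x0 + v) '' ((Matrix.toLin' A.transpose) ''
        (Set.Icc (fun _ => (-2 : ℝ)) (fun _ => (2 : ℝ)))) := by
      intro y hy
      set t : Fin d → ℝ := (A.det)⁻¹ • Matrix.cramer A.transpose (y - x0) with ht
      have h1 : (Matrix.toLin' A.transpose) t = y - x0 := by
        rw [Matrix.toLin'_apply, ht, Matrix.mulVec_smul, Matrix.mulVec_cramer,
          Matrix.det_transpose, smul_smul, inv_mul_cancel₀ hAne, one_smul]
      have h2 : ∀ k, |t k| ≤ 2 := by
        intro k
        have h3 : Matrix.cramer A.transpose (y - x0) k =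
            Matrix.det (Matrix.of fun i => Function.update x k y i - x0) := by
          rw [Matrix.cramer_transpose_apply]
          congr 1
          ext i j
          rw [Matrix.updateRow_apply]
          by_cases hik : i = k
          · subst hik
            simp
          · rw [if_neg hik]
            simp [hA, Function.update_of_ne hik]
        have h4 : |Matrix.det (Matrix.of fun i => Function.update x k y i - x0)| ≤ S := by
          apply le_csSup hbdd
          refine ⟨x0, hx0, Function.update x k y, ?_, rfl⟩
          intro i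
          by_cases hik : i = k
          · subst hik
            rw [Function.update_self]
            exact hy
          · rw [Function.update_of_ne hik]
            exact hx i
        have h5 : t k = (A.det)⁻¹ * Matrix.cramer A.transpose (y - x0) k := rfl
        rw [h5, h3, abs_mul, abs_inv]
        calc |A.det|⁻¹ * |Matrix.det (Matrix.of fun i => Function.update x k y i - x0)|
            ≤ |A.det|⁻¹ * S := mul_le_mul_of_nonneg_left h4 (by positivity)
          _ ≤ |A.det|⁻¹ * (2 * |A.det|) := mul_le_mul_of_nonneg_left (by linarith) (by positivity)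
          _ = 2 := by field_simp
      refine ⟨y - x0, ⟨t, ⟨fun k => (abs_le.mp (h2 k)).1, fun k => (abs_le.mp (h2 k)).2⟩, h1⟩, ?_⟩
      simp
    have hvol := measure_mono (μ := volume) hcov
    rw [hv, Set.image_add_left, measure_preimage_add, Measure.addHaar_image_linearMap,
      LinearMap.det_toLin', Matrix.det_transpose, Real.volume_Icc_pi] at hvol
    simp only [Finset.prod_const, Finset.card_univ, Fintype.card_fin] at hvol
    rw [← ENNReal.ofReal_pow (by norm_num), ← ENNReal.ofReal_mul (abs_nonneg _),
      ← ENNReal.ofReal_one] at hvol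
    have hle := (ENNReal.ofReal_le_ofReal_iff (by positivity)).mp hvol
    have h6 : |A.det| * (2 - -2) ^ d < 1 := by
      calc |A.det| * (2 - -2) ^ d < (1 / 4 : ℝ) ^ d * (2 - -2) ^ d :=
            mul_lt_mul_of_pos_right hAlt (by positivity)
        _ = 1 := by
            rw [← mul_pow]
            norm_num
    linarith

end

end MPa20b56
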