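import Pool.Agent.Lib_MP_a20b56_co.Problem

namespace MPa20b56

open MeasureTheory

noncomputable section

/-- lower corner of the box number `k` -/
def lowCorner (d k : ℕ) : Fin d → ℝ := fun i => if (i : ℕ) = 0 then 2 * (k : ℝ) else 0

/-- the box number `k` -/
def lowBox (d k : ℕ) : Set (Fin d → ℝ) :=
  Set.Icc (lowCorner d k) (fun i => lowCorner d k i + 1)

theorem lowBox_volume (d k : ℕ) : volume (lowBox d k) = 1 := by
  rw [lowBox, Real.volume_Icc_pi]
  have : ∀ i : Fin d, ENNReal.ofReal (lowCorner d k i + 1 - lowCorner d k i) = 1 := by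
    intro i
    rw [add_sub_cancel_left, ENNReal.ofReal_one]
  rw [Finset.prod_congr rfl (fun i _ => this i), Finset.prod_const_one]

theorem lowBox_disj {d : ℕ} (hd : 1 ≤ d) {k l : ℕ} {x : Fin d → ℝ} (h1 : x ∈ lowBox d k)
    (h2 : x ∈ lowBox d l) : k = l := by
  have h3 := h1.1 ⟨0, hd⟩
  have h4 := h1.2 ⟨0, hd⟩
  have h5 := h2.1 ⟨0, hd⟩
  have h6 := h2.2 ⟨0, hd⟩
  simp only [lowCorner, if_true] at h3 h4 h5 h6
  rcases lt_trichotomy k l with h | h | h
  · have : (k : ℝ) + 1 ≤ l := by exact_mod_cast h
    linarith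
  · exact h
  · have : (l : ℝ) + 1 ≤ k := by exact_mod_cast h
    linarith

/-- P15 lower bound: disjoint unit boxes -/
theorem one_le_of_admissible {d : ℕ} (hd : 1 ≤ d) {α : ℝ} (h : Admissible d α) : 1 ≤ α := by
  classical
  obtain ⟨hα, v, hv, C, hC⟩ := h
  by_contra hlt
  push Not at hlt
  have key : ∀ m : ℕ, 1 ≤ m → (m : ℝ) ≤ C * (m : ℝ) ^ α := by
    intro m hm
    have hm0 : (0 : ℝ) < m := by exact_mod_cast hm
    have hm1 : (1 : ℝ) ≤ m := by exact_mod_cast hm
    set F : Finset (Set (Fin d → ℝ)) := (Finset.range m).image (lowBox d) with hF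
    have hne : ∀ k, (lowBox d k).Nonempty := by
      intro k
      apply nonempty_of_measure_ne_zero (μ := volume)
      rw [lowBox_volume]
      exact one_ne_zero
    have hinj : Function.Injective (lowBox d) := by
      intro k l hkl
      obtain ⟨x, hx⟩ := hne k
      exact lowBox_disj hd hx (hkl ▸ hx)
    have hFc : F.card = m := by
      rw [hF, Finset.card_image_of_injective _ hinj, Finset.card_range]
    obtain ⟨S, hSc, hS1, hS2⟩ := hC (1 / m) (by positivity) (by rw [div_le_one hm0]; exact hm1) F
      (by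
        rw [hF]
        exact (Finset.nonempty_range_iff.mpr (by omega)).image _)
      (by
        intro K hK
        rw [hF, Finset.mem_image] at hK
        obtain ⟨k, _, rfl⟩ := hK
        exact ⟨convex_Icc _ _, lowBox_volume d k⟩)
    have h1 : ∀ k ∈ Finset.range m, ∃ s ∈ S, s ⊆ lowBox d k := by
      intro k hk
      obtain ⟨s, hs, hs'⟩ := hS2 {lowBox d k}
        (by
          rw [Finset.singleton_subset_iff, hF]
          exact Finset.mem_image_of_mem _ hk)
        (by
          rw [hFc, Finset.card_singleton, one_div_mul_cancel hm0.ne']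
          norm_num)
      refine ⟨s, hs, hs'.trans ?_⟩
      simp only [Finset.mem_singleton, Set.iUnion_iUnion_eq_left]
      exact (convexHull_min (le_refl _) (convex_Icc _ _))
    choose! s hs hs' using h1
    have h2 : m ≤ S.card := by
      have h3 : (Finset.range m).card ≤ S.card := by
        refine Finset.card_le_card_of_injOn s (fun k hk => hs k hk) ?_
        intro k hk l hl hkl
        have h4 : (s k).Nonempty := by
          apply nonempty_of_measure_ne_zero (μ := volume)
          rw [(hS1 _ (hs k hk)).2]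
          simpa using hv
        obtain ⟨x, hx⟩ := h4
        refine lowBox_disj hd (hs' k hk hx) (hs' l hl ?_)
        rw [← hkl]
        exact hx
      rwa [Finset.card_range] at h3
    calc (m : ℝ) ≤ S.card := by exact_mod_cast h2
      _ ≤ C * (1 / m : ℝ) ^ (-α) := hSc
      _ = C * (m : ℝ) ^ α := by
        rw [one_div, Real.inv_rpow hm0.le, Real.rpow_neg hm0.le, inv_inv]
  have hlim : Filter.Tendsto (fun m : ℕ => (m : ℝ) ^ (1 - α)) Filter.atTop Filter.atTop :=
    (tendsto_rpow_atTop (by linarith)).comp tendsto_natCast_atTop_atTop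
  obtain ⟨m, hm1, hm2⟩ := ((Filter.eventually_ge_atTop 1).and
    (hlim.eventually_gt_atTop C)).exists
  have hm0 : (0 : ℝ) < m := by exact_mod_cast hm1
  have h3 := key m hm1
  rw [Real.rpow_sub hm0, Real.rpow_one, lt_div_iff₀ (by positivity)] at hm2
  linarith

end

end MPa20b56
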