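import Pool.Agent.Lib_MP_a20b56_co.Rec
import Pool.Agent.Lib_MP_a20b56_co.Inscribed
import Pool.Agent.Lib_MP_a20b56_co.BoxVol
import Pool.Agent.Lib_MP_a20b56_co.Lower

namespace MPa20b56

open scoped BigOperators Classical
open MeasureTheory

noncomputable section

/-- Every exponent larger than `d` is admissible. -/
theorem admissible_of_lt {d : ℕ} (hd : 1 ≤ d) {α : ℝ} (hα : (d : ℝ) < α) : Admissible d α := by
  have hd0 : (0 : ℝ) < d := by exact_mod_cast hd
  refine ⟨hd0.trans hα, ?_⟩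
  obtain ⟨A, hA, hnet⟩ := main_net hd (α - d) (by linarith)
  set δ : ℝ := (1 / (8 * (d : ℝ))) ^ d with hδ
  have hδ0 : 0 < δ := by rw [hδ]; positivity
  have hδ1 : δ ≤ 1 := by
    rw [hδ]
    apply pow_le_one₀ (by positivity)
    rw [div_le_one (by positivity)]
    have : (1 : ℝ) ≤ d := by exact_mod_cast hd
    linarith
  have hκ0 : 0 < kap d := by unfold kap; positivity
  refine ⟨(2 * kap d) ^ d * δ, by positivity, A, ?_⟩
  intro ε hε hε1 F hF hK
  -- the data of the members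
  have hdata : ∀ K : Set (Fin d → ℝ), ∃ p : V d × (Fin d → V d),
      δ ≤ |Matrix.det (Matrix.of p.2)| ∧
      (K ∈ F → ∀ i, p.1 + p.2 i ∈ K ∧ p.1 - p.2 i ∈ K) := by
    intro K
    by_cases h : K ∈ F
    · obtain ⟨c, u, h1, h2⟩ := inscribed hd K (hK K h).1 (hK K h).2
      exact ⟨(c, u), h2, fun _ => h1⟩
    · refine ⟨(0, fun i => (1 : Matrix (Fin d) (Fin d) ℝ) i), ?_, fun h' => absurd h' h⟩
      have : Matrix.of (fun i => (1 : Matrix (Fin d) (Fin d) ℝ) i) = 1 := by
        ext i j; rfl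
      show δ ≤ |Matrix.det (Matrix.of (fun i => (1 : Matrix (Fin d) (Fin d) ℝ) i))|
      rw [this]
      simpa using hδ1
  choose dat hdet hmem using hdata
  set c : Set (Fin d → ℝ) → V d := fun K => (dat K).1 with hc
  set u : Set (Fin d → ℝ) → Fin d → V d := fun K => (dat K).2 with hu
  have hdetpos : ∀ K, 0 < |Matrix.det (Matrix.of (u K))| := fun K => hδ0.trans_le (hdet K)
  obtain ⟨S, hScard, hS⟩ := hnet (Set (Fin d → ℝ)) c u
    (fun K => abs_pos.1 (hdetpos K)) F ε hF hε hε1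
  -- the scaled boxes
  set κ : Set (Fin d → ℝ) → ℝ := fun K =>
    kap d * (δ / |Matrix.det (Matrix.of (u K))|) ^ (1 / (d : ℝ)) with hκ
  have hκnn : ∀ K, 0 ≤ κ K := fun K => by
    rw [hκ]
    have := hdetpos K
    positivity
  have hκle : ∀ K, κ K ≤ kap d := fun K => by
    rw [hκ]
    apply mul_le_of_le_one_right hκ0.le
    apply Real.rpow_le_one
    · have := hdetpos K
      positivity
    · rw [div_le_one (hdetpos K)]; exact hdet K
    · positivity
  set bx : V d × Set (Fin d → ℝ) → Set (Fin d → ℝ) := fun p =>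
    {y : V d | ∃ t : Fin d → ℝ, (∀ i, |t i| ≤ κ p.2) ∧ y = p.1 + ∑ i, t i • u p.2 i} with hbx
  have hbxsub : ∀ p, bx p ⊆ Box u p.1 p.2 := by
    rintro p y ⟨t, ht, rfl⟩
    exact ⟨t, fun i => (ht i).trans (hκle _), rfl⟩
  have hbxvol : ∀ p, MeasurableSet (bx p) ∧
      volume (bx p) = ENNReal.ofReal ((2 * kap d) ^ d * δ) := by
    intro p
    obtain ⟨h1, h2⟩ := box_volume p.1 (u p.2) (κ p.2) (hκnn _)
    refine ⟨h1, ?_⟩
    rw [hbx]
    refine h2.trans ?_
    congr 1
    have hD := hdetpos p.2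
    have h3 : (κ p.2) ^ d = kap d ^ d * (δ / |Matrix.det (Matrix.of (u p.2))|) := by
      rw [hκ]
      simp only
      rw [mul_pow, one_div, Real.rpow_inv_natCast_pow (by positivity) (by omega)]
    rw [mul_pow, h3, mul_pow]
    field_simp
  refine ⟨S.image bx, ?_, ?_, ?_⟩
  · have h1 : ((S.image bx).card : ℝ) ≤ S.card := by exact_mod_cast Finset.card_image_le
    have h2 : -((d : ℝ) + (α - d)) = -α := by ring
    rw [h2] at hScard
    exact h1.trans hScard
  · intro s hs
    obtain ⟨p, _, rfl⟩ := Finset.mem_image.1 hs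
    exact hbxvol p
  · intro G hG hGcard
    have hGne : G.Nonempty := by
      rw [← Finset.card_pos]
      have h1 : (0 : ℝ) < F.card := by exact_mod_cast hF.card_pos
      have h2 : (0 : ℝ) < G.card := lt_of_lt_of_le (by positivity) hGcard
      exact_mod_cast h2
    obtain ⟨p, hp, hps⟩ := hS G hG hGne hGcard
    refine ⟨bx p, Finset.mem_image.2 ⟨p, hp, rfl⟩, (hbxsub p).trans (hps.trans ?_)⟩
    apply convexHull_mono
    rintro y ⟨K, hKG, i, hi⟩
    have h1 := hmem K (hG hKG) i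
    refine Set.mem_iUnion₂.2 ⟨K, hKG, ?_⟩
    rcases hi with rfl | rfl
    · exact h1.1
    · exact h1.2

theorem alpha_le {d : ℕ} (hd : 1 ≤ d) : alpha d ≤ (d : EReal) := by
  apply le_of_forall_gt
  intro b hb
  -- d < b, find a real in between
  obtain ⟨q, hq1, hq2⟩ := EReal.lt_iff_exists_real_btwn.1 hb
  refine lt_of_le_of_lt (sInf_le ⟨q, admissible_of_lt hd ?_, rfl⟩) hq2
  have : ((d : ℝ) : EReal) < (q : EReal) := by simpa using hq1
  exact_mod_cast this

theorem one_le_alpha {d : ℕ} (hd : 1 ≤ d) : 1 ≤ alpha d := by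
  apply le_sInf
  rintro a ⟨α, hα, rfl⟩
  exact_mod_cast one_le_of_admissible hd hα

theorem alpha_lt {d : ℕ} (hd : 1 ≤ d) : alpha d < (d : EReal) + 1 := by
  refine lt_of_le_of_lt (alpha_le hd) ?_
  have h : ((d : ℝ) : EReal) < (((d : ℝ) + 1 : ℝ) : EReal) := by
    exact_mod_cast lt_add_one (d : ℝ)
  simpa using h

theorem alpha_one : alpha 1 = 1 := by
  apply le_antisymm
  · simpa using alpha_le (le_refl 1)
  · exact one_le_alpha (le_refl 1)

end

end MPa20b56
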