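import Pool.Agent.Lib_MP_a20b56_co.HalfGrowth

namespace MPa20b56

open scoped BigOperators Classical
open MeasureTheory

noncomputable section

theorem generic_ev_cont {d : ℕ} (x : V d) : Continuous fun h : Aff d => ev h x := by
  unfold ev
  fun_prop

theorem generic_span_ne_top {d : ℕ} (T : Finset (Aff d)) (hT : T.card ≤ d) :
    Submodule.span ℝ (T : Set (Aff d)) ≠ ⊤ := by
  intro h
  have h1 : Module.finrank ℝ (Submodule.span ℝ (T : Set (Aff d))) ≤ T.card :=
    finrank_span_finset_le_card T
  rw [h, finrank_top] at h1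
  have h2 : Module.finrank ℝ (Aff d) = d + 1 := by
    simp [Aff, V]
  omega

/-- a generic element of an open nonempty set -/
theorem generic_step {d : ℕ} (L : Finset (Aff d)) (hL : GenPos L) (O : Set (Aff d))
    (hO : IsOpen O) (hne : O.Nonempty) : ∃ h ∈ O, GenPos (insert h L) := by
  let bad : Set (Aff d) := ⋃ T ∈ L.powerset.filter (fun T => T.card ≤ d),
    (Submodule.span ℝ (T : Set (Aff d)) : Set (Aff d))
  let μ : Measure (V d × ℝ) := (volume : Measure (V d)).prod (volume : Measure ℝ)
  have hbad : μ bad = 0 := by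
    have hz : ∀ T ∈ L.powerset.filter (fun T => T.card ≤ d),
        μ (Submodule.span ℝ (T : Set (Aff d)) : Set (Aff d)) = 0 := by
      intro T hT
      exact Measure.addHaar_submodule μ _ (generic_span_ne_top T (Finset.mem_filter.1 hT).2)
    refine le_antisymm ((measure_biUnion_finset_le _ _).trans ?_) bot_le
    rw [Finset.sum_eq_zero hz]
  have hOpos : 0 < μ O := hO.measure_pos μ hne
  obtain ⟨h, hhO, hhb⟩ : ∃ h ∈ O, h ∉ bad := by
    by_contra hcon
    push Not at hcon
    have : μ O ≤ μ bad := measure_mono hcon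
    rw [hbad] at this
    exact absurd hOpos (not_lt.2 this)
  have hnot : ∀ T ⊆ L, T.card ≤ d → h ∉ Submodule.span ℝ (T : Set (Aff d)) := by
    intro T hT hc hmem
    apply hhb
    simp only [bad, Set.mem_iUnion]
    exact ⟨T, Finset.mem_filter.2 ⟨Finset.mem_powerset.2 hT, hc⟩, hmem⟩
  refine ⟨h, hhO, ?_⟩
  intro T hT hc
  by_cases hhT : h ∈ T
  · set T' := T.erase h with hT'
    have hT'L : T' ⊆ L := by
      intro x hx
      rw [hT', Finset.mem_erase] at hx
      rcases Finset.mem_insert.1 (hT hx.2) with h1 | h1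
      · exact absurd h1 hx.1
      · exact h1
    have hT'c : T'.card ≤ d := by
      rw [hT', Finset.card_erase_of_mem hhT]
      omega
    have hli : LinearIndependent ℝ (fun f : T' => (f : Aff d)) := hL T' hT'L (by omega)
    have hli2 : LinearIndepOn ℝ id (T' : Set (Aff d)) := hli
    have hli3 : LinearIndepOn ℝ id (insert h (T' : Set (Aff d))) := by
      refine hli2.insert ?_
      simpa using hnot T' hT'L hT'c
    have hset : (insert h (T' : Set (Aff d))) = (T : Set (Aff d)) := by
      rw [hT', ← Finset.coe_insert, Finset.insert_erase hhT]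
    rw [hset] at hli3
    exact hli3
  · have hTL : T ⊆ L := by
      intro x hx
      rcases Finset.mem_insert.1 (hT hx) with h1 | h1
      · subst h1
        exact absurd hx hhT
      · exact h1
    exact hL T hTL hc

theorem generic_many {d : ℕ} (B : Finset (Aff d)) (hB : GenPos B) {α : Type} (T : Finset α)
    (O : α → Set (Aff d)) (hO : ∀ A ∈ T, IsOpen (O A)) (hne : ∀ A ∈ T, (O A).Nonempty) :
    ∃ H : Finset (Aff d), H.card ≤ T.card ∧ GenPos (B ∪ H) ∧ ∀ A ∈ T, ∃ h ∈ H, h ∈ O A := by
  induction T using Finset.induction_on with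
  | empty => exact ⟨∅, by simp, by simpa using hB, by simp⟩
  | insert A T hA ih =>
    obtain ⟨H, h1, h2, h3⟩ := ih (fun A' hA' => hO A' (Finset.mem_insert_of_mem hA'))
      (fun A' hA' => hne A' (Finset.mem_insert_of_mem hA'))
    obtain ⟨h, hhO, hgp⟩ := generic_step (B ∪ H) h2 (O A) (hO A (Finset.mem_insert_self _ _))
      (hne A (Finset.mem_insert_self _ _))
    refine ⟨insert h H, ?_, ?_, ?_⟩
    · rw [Finset.card_insert_of_notMem hA]
      exact (Finset.card_insert_le _ _).trans (by omega)
    · rw [Finset.union_insert]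
      exact hgp
    · intro A' hA'
      rcases Finset.mem_insert.1 hA' with rfl | hA'
      · exact ⟨h, Finset.mem_insert_self _ _, hhO⟩
      · obtain ⟨h', hh', hh''⟩ := h3 A' hA'
        exact ⟨h', Finset.mem_insert_of_mem hh', hh''⟩

/-- the bounding simplex -/
theorem generic_simplex {d : ℕ} (hd : 1 ≤ d) {ι : Type} (J : Finset ι) (c : ι → V d) :
    ∃ B : Finset (Aff d), B.card ≤ d + 1 ∧
      Bornology.IsBounded {x : V d | ∀ f ∈ B, 0 ≤ ev f x} ∧
      (∀ j ∈ J, ∀ f ∈ B, 0 ≤ ev f (c j)) ∧ GenPos B := by
  set M : ℝ := 1 + ∑ j ∈ J, ∑ i, |c j i| with hM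
  have hM1 : 1 ≤ M := by
    have : 0 ≤ ∑ j ∈ J, ∑ i, |c j i| :=
      Finset.sum_nonneg fun j _ => Finset.sum_nonneg fun i _ => abs_nonneg _
    linarith
  let g : Option (Fin d) → Aff d := fun o => match o with
    | none => (fun _ => -1, M)
    | some i => (Pi.single i 1, M)
  have hgnone : ∀ x : V d, ev (g none) x = M - ∑ i, x i := by
    intro x
    simp only [ev, g, neg_mul, one_mul, Finset.sum_neg_distrib]
    ring
  have hgsome : ∀ (i : Fin d) (x : V d), ev (g (some i)) x = x i + M := by
    intro i x
    simp only [ev, g]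
    congr 1
    rw [Finset.sum_eq_single i]
    · simp
    · intro b _ hb
      rw [Pi.single_eq_of_ne hb, zero_mul]
    · simp
  have hli : LinearIndependent ℝ g := by
    rw [Fintype.linearIndependent_iff]
    intro a ha
    rw [Fintype.sum_option] at ha
    have h1 : ∀ i : Fin d, a (some i) = a none := by
      intro i
      have := congrArg (fun z : Aff d => z.1 i) ha
      simp only [g, Prod.fst_add, Prod.smul_fst, Prod.fst_sum, Pi.add_apply, Pi.smul_apply,
        Finset.sum_apply, smul_eq_mul, Prod.fst_zero, Pi.zero_apply] at this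
      rw [Finset.sum_eq_single i] at this
      · rw [Pi.single_eq_same] at this
        linarith
      · intro b _ hb
        rw [Pi.single_eq_of_ne (Ne.symm hb), mul_zero]
      · simp
    have h2 := congrArg (fun z : Aff d => z.2) ha
    simp only [g, Prod.snd_add, Prod.smul_snd, Prod.snd_sum, smul_eq_mul, Prod.snd_zero] at h2
    simp_rw [h1] at h2
    rw [Finset.sum_const, Finset.card_univ, Fintype.card_fin, nsmul_eq_mul] at h2
    have h3 : a none * (M * (1 + d)) = 0 := by linarith
    have h4 : M * (1 + (d : ℝ)) ≠ 0 := by positivity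
    have h5 : a none = 0 := (mul_eq_zero.1 h3).resolve_right h4
    intro o
    cases o with
    | none => exact h5
    | some i => rw [h1 i]; exact h5
  refine ⟨Finset.univ.image g, ?_, ?_, ?_, ?_⟩
  · refine Finset.card_image_le.trans ?_
    simp
  · -- bounded
    refine (Metric.isBounded_closedBall (x := (0 : V d)) (r := d * M)).subset ?_
    intro x hx
    have hmem : ∀ o, g o ∈ Finset.univ.image g := fun o =>
      Finset.mem_image.2 ⟨o, Finset.mem_univ o, rfl⟩
    have h1 := hx (g none) (hmem none)
    rw [hgnone] at h1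
    have h2 : ∀ i, 0 ≤ x i + M := by
      intro i
      have := hx (g (some i)) (hmem (some i))
      rwa [hgsome] at this
    rw [mem_closedBall_zero_iff, pi_norm_le_iff_of_nonneg (by positivity)]
    intro i
    rw [Real.norm_eq_abs, abs_le]
    have hdR : (1 : ℝ) ≤ d := by exact_mod_cast hd
    constructor
    · have := h2 i
      nlinarith
    · have h3 : ∑ k, (x k + M) ≤ (d + 1) * M := by
        rw [Finset.sum_add_distrib, Finset.sum_const, Finset.card_univ, Fintype.card_fin,
          nsmul_eq_mul]
        linarith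
      have h4 : x i + M ≤ ∑ k, (x k + M) :=
        Finset.single_le_sum (f := fun k => x k + M) (fun k _ => h2 k) (Finset.mem_univ i)
      linarith
  · intro j hj f hf
    rw [Finset.mem_image] at hf
    obtain ⟨o, -, rfl⟩ := hf
    have h1 : ∑ i, |c j i| ≤ ∑ j ∈ J, ∑ i, |c j i| :=
      Finset.single_le_sum (f := fun j => ∑ i, |c j i|)
        (fun j _ => Finset.sum_nonneg fun i _ => abs_nonneg _) hj
    cases o with
    | none =>
      rw [hgnone]
      have h2 : ∑ i, c j i ≤ ∑ i, |c j i| := Finset.sum_le_sum fun i _ => le_abs_self _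
      linarith
    | some i =>
      rw [hgsome]
      have h2 : |c j i| ≤ ∑ i, |c j i| :=
        Finset.single_le_sum (f := fun i => |c j i|) (fun i _ => abs_nonneg _) (Finset.mem_univ i)
      have := neg_abs_le (c j i)
      linarith
  · intro T hT hc
    have h1 : LinearIndepOn ℝ id (Set.range g) := hli.linearIndepOn_id
    have h2 : LinearIndepOn ℝ id (T : Set (Aff d)) := by
      refine h1.mono ?_
      intro x hx
      have := hT hx
      rw [Finset.mem_image] at this
      obtain ⟨o, -, rfl⟩ := this
      exact ⟨o, rfl⟩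
    exact h2

/-- P5 generic representatives of all dichotomies -/
theorem generic_rep {d : ℕ} (hd : 1 ≤ d) {ι : Type} (J : Finset ι) (c : ι → V d) :
    ∃ B H : Finset (Aff d), B.card ≤ d + 1 ∧
      Bornology.IsBounded {x : V d | ∀ f ∈ B, 0 ≤ ev f x} ∧
      (∀ j ∈ J, ∀ f ∈ B, 0 ≤ ev f (c j)) ∧
      GenPos (B ∪ H) ∧
      H.card ≤ (J.card + 1) ^ (d + 1) ∧
      ∀ f : Aff d, ∃ h ∈ H, ∀ j ∈ J, (ev f (c j) < 0 → ev h (c j) < 0) ∧
        (0 < ev f (c j) → 0 < ev h (c j)) := by
  obtain ⟨B, hB1, hB2, hB3, hB4⟩ := generic_simplex hd J c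
  obtain ⟨T, hT1, hT2⟩ := halfspace_growth J c
  let O : Finset ι → Set (Aff d) := fun A => {h | ∀ j ∈ J, (j ∈ A → ev h (c j) < 0) ∧
    (j ∉ A → 0 < ev h (c j))}
  have hOopen : ∀ A, IsOpen (O A) := by
    intro A
    have : O A = ⋂ j ∈ J, {h : Aff d | (j ∈ A → ev h (c j) < 0) ∧ (j ∉ A → 0 < ev h (c j))} := by
      ext h
      simp [O]
    rw [this]
    refine isOpen_biInter_finset fun j _ => ?_
    by_cases hj : j ∈ A
    · have : {h : Aff d | (j ∈ A → ev h (c j) < 0) ∧ (j ∉ A → 0 < ev h (c j))} =
          {h : Aff d | ev h (c j) < 0} := by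
        ext h
        simp [hj]
      rw [this]
      exact isOpen_lt (generic_ev_cont _) continuous_const
    · have : {h : Aff d | (j ∈ A → ev h (c j) < 0) ∧ (j ∉ A → 0 < ev h (c j))} =
          {h : Aff d | 0 < ev h (c j)} := by
        ext h
        simp [hj]
      rw [this]
      exact isOpen_lt continuous_const (generic_ev_cont _)
  obtain ⟨H, hH1, hH2, hH3⟩ := generic_many B hB4 (T.filter (fun A => (O A).Nonempty)) O
    (fun A _ => hOopen A) (fun A hA => (Finset.mem_filter.1 hA).2)
  refine ⟨B, H, hB1, hB2, hB3, hH2, ?_, ?_⟩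
  · exact hH1.trans ((Finset.card_filter_le _ _).trans hT1)
  · intro f
    set A := J.filter (fun j => ev f (c j) ≤ 0) with hA
    -- push the functional down a little
    obtain ⟨δ, hδ, hδ2⟩ : ∃ δ : ℝ, 0 < δ ∧ ∀ j ∈ J, 0 < ev f (c j) → δ < ev f (c j) := by
      have : ∀ S : Finset ι, ∃ δ : ℝ, 0 < δ ∧ ∀ j ∈ S, 0 < ev f (c j) → δ < ev f (c j) := by
        intro S
        induction S using Finset.induction_on with
        | empty => exact ⟨1, one_pos, by simp⟩
        | insert j S hj ih =>
          obtain ⟨δ, h1, h2⟩ := ih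
          by_cases hp : 0 < ev f (c j)
          · refine ⟨min δ (ev f (c j) / 2), by positivity, ?_⟩
            intro j' hj' hp'
            rcases Finset.mem_insert.1 hj' with rfl | hj'
            · exact (min_le_right _ _).trans_lt (by linarith)
            · exact (min_le_left _ _).trans_lt (h2 j' hj' hp')
          · refine ⟨δ, h1, ?_⟩
            intro j' hj' hp'
            rcases Finset.mem_insert.1 hj' with rfl | hj'
            · exact absurd hp' hp
            · exact h2 j' hj' hp'
      exact this J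
    have hne : (O A).Nonempty := by
      refine ⟨(f.1, f.2 - δ), ?_⟩
      have hev : ∀ x : V d, ev (f.1, f.2 - δ) x = ev f x - δ := by
        intro x
        simp only [ev]
        ring
      intro j hj
      constructor
      · intro hjA
        rw [hev]
        have := (Finset.mem_filter.1 hjA).2
        linarith
      · intro hjA
        rw [hev]
        have h1 : 0 < ev f (c j) := by
          by_contra hcon
          push Not at hcon
          exact hjA (Finset.mem_filter.2 ⟨hj, hcon⟩)
        have := hδ2 j hj h1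
        linarith
    obtain ⟨h, hhH, hhO⟩ := hH3 A (Finset.mem_filter.2 ⟨hT2 f, hne⟩)
    refine ⟨h, hhH, fun j hj => ⟨fun hneg => ?_, fun hpos => ?_⟩⟩
    · exact (hhO j hj).1 (Finset.mem_filter.2 ⟨hj, hneg.le⟩)
    · refine (hhO j hj).2 fun hjA => ?_
      have := (Finset.mem_filter.1 hjA).2
      linarith

end

end MPa20b56
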