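import Pool.Agent.Lib_MP_a20b56_co.Defs

namespace MPa20b56

open scoped BigOperators Classical
open MeasureTheory

noncomputable section

lemma HalfGrowth_card_subsets {ι : Type} (J : Finset ι) (k : ℕ) :
    (J.powerset.filter (fun s => s.card ≤ k)).card ≤ (J.card + 1) ^ k := by
  induction k with
  | zero =>
    have : (J.powerset.filter (fun s => s.card ≤ 0)) ⊆ {∅} := by
      intro s hs
      simp only [Finset.mem_filter, Nat.le_zero, Finset.card_eq_zero] at hs
      simp [hs.2]
    calc _ ≤ ({∅} : Finset (Finset ι)).card := Finset.card_le_card this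
      _ = _ := by simp
  | succ k ih =>
    have hsub : (J.powerset.filter (fun s => s.card ≤ k + 1)) ⊆
        (J.powerset.filter (fun s => s.card ≤ k)) ∪ J.powersetCard (k + 1) := by
      intro s hs
      simp only [Finset.mem_filter, Finset.mem_powerset] at hs
      simp only [Finset.mem_union, Finset.mem_filter, Finset.mem_powerset, Finset.mem_powersetCard]
      rcases Nat.lt_or_ge s.card (k + 1) with h | h
      · exact Or.inl ⟨hs.1, by omega⟩
      · exact Or.inr ⟨hs.1, by omega⟩
    have h1 := (Finset.card_le_card hsub).trans (Finset.card_union_le _ _)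
    rw [Finset.card_powersetCard] at h1
    have h2 : J.card.choose (k + 1) ≤ J.card ^ (k + 1) := Nat.choose_le_pow _ _
    have h3 : J.card ^ (k + 1) ≤ J.card * (J.card + 1) ^ k := by
      rw [pow_succ, mul_comm]
      exact Nat.mul_le_mul_left _ (Nat.pow_le_pow_left (by omega) _)
    calc _ ≤ _ := h1
      _ ≤ (J.card + 1) ^ k + J.card * (J.card + 1) ^ k := by omega
      _ = (J.card + 1) ^ (k + 1) := by ring

lemma HalfGrowth_ev_comb {d : ℕ} (f : Aff d) (x y : V d) (a b : ℝ) (hab : a + b = 1) :
    ev f (a • x + b • y) = a * ev f x + b * ev f y := by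
  simp only [ev, Pi.add_apply, Pi.smul_apply, smul_eq_mul, mul_add, Finset.sum_add_distrib,
    Finset.mul_sum]
  have : f.2 = a * f.2 + b * f.2 := by rw [← add_mul, hab, one_mul]
  have e1 : ∑ i, f.1 i * (a * x i) = ∑ i, a * (f.1 i * x i) :=
    Finset.sum_congr rfl (fun i _ => by ring)
  have e2 : ∑ i, f.1 i * (b * y i) = ∑ i, b * (f.1 i * y i) :=
    Finset.sum_congr rfl (fun i _ => by ring)
  rw [e1, e2]
  linarith

lemma HalfGrowth_convex_le {d : ℕ} (f : Aff d) : Convex ℝ {x : V d | ev f x ≤ 0} := by
  intro x hx y hy a b ha hb hab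
  simp only [Set.mem_ofPred_eq] at *
  rw [HalfGrowth_ev_comb f x y a b hab]
  nlinarith [mul_nonneg ha (neg_nonneg.2 hx), mul_nonneg hb (neg_nonneg.2 hy)]

lemma HalfGrowth_convex_pos {d : ℕ} (f : Aff d) : Convex ℝ {x : V d | 0 < ev f x} := by
  intro x hx y hy a b ha hb hab
  simp only [Set.mem_ofPred_eq] at *
  rw [HalfGrowth_ev_comb f x y a b hab]
  rcases ha.eq_or_lt with h | h
  · have : b = 1 := by linarith
    rw [← h, this]; linarith
  · have := mul_pos h hx
    have := mul_nonneg hb hy.le
    linarith

/-- P2 growth of half spaces (Radon + Sauer-Shelah) -/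
theorem halfspace_growth {d : ℕ} {ι : Type} (J : Finset ι) (y : ι → V d) :
    ∃ T : Finset (Finset ι), T.card ≤ (J.card + 1) ^ (d + 1) ∧
      ∀ f : Aff d, J.filter (fun j => ev f (y j) ≤ 0) ∈ T := by
  set T : Finset (Finset ι) :=
    J.powerset.filter (fun A => ∃ f : Aff d, A = J.filter (fun j => ev f (y j) ≤ 0)) with hT
  refine ⟨T, ?_, ?_⟩
  · have hsub : T.shatterer ⊆ J.powerset.filter (fun s => s.card ≤ d + 1) := by
      intro s hs
      rw [Finset.mem_shatterer] at hs
      have hsJ : s ⊆ J := by
        obtain ⟨u, hu, hsu⟩ := hs (Finset.Subset.refl s)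
        rw [hT, Finset.mem_filter, Finset.mem_powerset] at hu
        exact (Finset.inter_eq_left.1 hsu).trans hu.1
      rw [Finset.mem_filter, Finset.mem_powerset]
      refine ⟨hsJ, ?_⟩
      by_contra hcon
      push Not at hcon
      have hdep : ¬ AffineIndependent ℝ (fun j : s => y j) := by
        intro hind
        have := hind.card_le_finrank_succ
        have h2 : Module.finrank ℝ (vectorSpan ℝ (Set.range (fun j : s => y j))) ≤ d := by
          calc _ ≤ Module.finrank ℝ (V d) := Submodule.finrank_le _
            _ = d := by simp [V]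
        rw [Fintype.card_coe] at this
        omega
      obtain ⟨I, p, hp1, hp2⟩ := Convex.radon_partition hdep
      obtain ⟨u, hu, hsu⟩ := hs (t := s.filter (fun j => ∃ h : j ∈ s, (⟨j, h⟩ : s) ∈ I))
        (Finset.filter_subset _ _)
      rw [hT, Finset.mem_filter] at hu
      obtain ⟨f, hf⟩ := hu.2
      have h1 : ∀ j : s, j ∈ I → ev f (y j) ≤ 0 := by
        intro j hj
        have : (j : ι) ∈ s ∩ u := by
          rw [hsu, Finset.mem_filter]
          exact ⟨j.2, j.2, hj⟩
        rw [hf] at this
        exact (Finset.mem_filter.1 (Finset.mem_inter.1 this).2).2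
      have h2 : ∀ j : s, j ∉ I → 0 < ev f (y j) := by
        intro j hj
        by_contra hneg
        push Not at hneg
        have hju : (j : ι) ∈ u := by
          rw [hf]
          exact Finset.mem_filter.2 ⟨hsJ j.2, hneg⟩
        have : (j : ι) ∈ s ∩ u := Finset.mem_inter.2 ⟨j.2, hju⟩
        rw [hsu, Finset.mem_filter] at this
        obtain ⟨h, hI⟩ := this.2
        exact hj hI
      have e1 : ev f p ≤ 0 := by
        have : convexHull ℝ ((fun j : s => y j) '' I) ⊆ {x : V d | ev f x ≤ 0} := by
          apply convexHull_min _ (HalfGrowth_convex_le f)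
          rintro _ ⟨j, hj, rfl⟩
          exact h1 j hj
        exact this hp1
      have e2 : 0 < ev f p := by
        have : convexHull ℝ ((fun j : s => y j) '' Iᶜ) ⊆ {x : V d | 0 < ev f x} := by
          apply convexHull_min _ (HalfGrowth_convex_pos f)
          rintro _ ⟨j, hj, rfl⟩
          exact h2 j hj
        exact this hp2
      linarith
    calc T.card ≤ T.shatterer.card := Finset.card_le_card_shatterer T
      _ ≤ _ := Finset.card_le_card hsub
      _ ≤ _ := HalfGrowth_card_subsets J (d + 1)
  · intro f
    rw [hT, Finset.mem_filter, Finset.mem_powerset]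
    exact ⟨Finset.filter_subset _ _, f, rfl⟩

/-- P10b number of shape ranges -/
theorem shape_ranges {d : ℕ} {ι : Type} (u : ι → Fin d → V d) (J : Finset ι) :
    ∃ T : Finset (Finset ι), T.card ≤ (2 * d * J.card + 1) ^ (d * (d + 1)) ∧
      ∀ φ : Fin d → V d,
        J.filter (fun j => ∀ i k, |∑ l, φ k l * u j i l| ≤ (d : ℝ) + 1) ∈ T := by
  obtain ⟨T', hT'c, hT'⟩ := halfspace_growth (d := d)
    (J ×ˢ ((Finset.univ : Finset (Fin d)) ×ˢ (Finset.univ : Finset Bool)))
    (fun z : ι × (Fin d × Bool) => if z.2.2 then u z.1 z.2.1 else - u z.1 z.2.1)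
  refine ⟨(Fintype.piFinset (fun _ : Fin d => T')).image
    (fun B => J.filter (fun j => ∀ i k (s : Bool), (j, (i, s)) ∈ B k)), ?_, ?_⟩
  · calc _ ≤ (Fintype.piFinset (fun _ : Fin d => T')).card := Finset.card_image_le
      _ = T'.card ^ d := by simp [Fintype.card_piFinset]
      _ ≤ ((2 * d * J.card + 1) ^ (d + 1)) ^ d := by
        apply Nat.pow_le_pow_left
        calc _ ≤ _ := hT'c
          _ = _ := by
            congr 1
            simp only [Finset.card_product, Finset.card_univ, Fintype.card_fin, Fintype.card_bool]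
            ring
      _ = _ := by rw [← pow_mul, mul_comm (d + 1) d]
  · intro φ
    rw [Finset.mem_image]
    refine ⟨fun k => (J ×ˢ ((Finset.univ : Finset (Fin d)) ×ˢ (Finset.univ : Finset Bool))).filter
      (fun z => ev ((φ k, -((d : ℝ) + 1)) : Aff d)
        (if z.2.2 then u z.1 z.2.1 else - u z.1 z.2.1) ≤ 0), ?_, ?_⟩
    · rw [Fintype.mem_piFinset]
      intro k
      exact hT' _
    · ext j
      simp only [Finset.mem_filter, Finset.mem_product, Finset.mem_univ, and_true, true_and,
        and_congr_right_iff]
      intro hj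
      constructor
      · intro h i k
        have h1 := (h i k true).2
        have h2 := (h i k false).2
        simp only [ev, if_true, Bool.false_eq_true, if_false, Pi.neg_apply, mul_neg,
          Finset.sum_neg_distrib] at h1 h2
        rw [abs_le]
        constructor <;> linarith
      · intro h i k s
        refine ⟨hj, ?_⟩
        have := abs_le.1 (h i k)
        cases s
        · simp only [ev, Bool.false_eq_true, if_false, Pi.neg_apply, mul_neg,
            Finset.sum_neg_distrib]
          linarith [this.1]
        · simp only [ev, if_true]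
          linarith [this.2]

end

end MPa20b56
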