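import Pool.Agent.Lib_MP_a20b56_co.Defs

namespace MPa20b56

open scoped BigOperators Classical
open MeasureTheory

noncomputable section

theorem halving_sum {ι : Type} (Y A : Finset ι) (hA : A ⊆ Y) (t : ℝ) :
    ∑ S ∈ Y.powerset, Real.exp (t * (2 * ((S ∩ A).card : ℝ) - A.card)) ≤
      (2 * Real.exp (t ^ 2 / 2)) ^ Y.card := by
  have h1 : ∏ j ∈ Y, ((if j ∈ A then Real.exp t else 1) + (if j ∈ A then Real.exp (-t) else 1)) ≤
      (2 * Real.exp (t ^ 2 / 2)) ^ Y.card := by
    rw [← Finset.prod_const]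
    refine Finset.prod_le_prod (fun j _ => by split_ifs <;> positivity) (fun j _ => ?_)
    split_ifs
    · have := Real.cosh_le_exp_half_sq t
      rw [Real.cosh_eq] at this
      linarith
    · have : (1 : ℝ) ≤ Real.exp (t ^ 2 / 2) := Real.one_le_exp (by positivity)
      linarith
  refine le_trans (le_of_eq ?_) h1
  rw [Finset.prod_add]
  refine Finset.sum_congr rfl fun S hS => ?_
  have hS' : S ⊆ Y := Finset.mem_powerset.1 hS
  have h2 : ∏ j ∈ S, (if j ∈ A then Real.exp t else 1) = Real.exp t ^ (S ∩ A).card := by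
    rw [Finset.prod_ite_mem, Finset.prod_const]
  have h3 : ∏ j ∈ Y \ S, (if j ∈ A then Real.exp (-t) else 1) =
      Real.exp (-t) ^ ((Y \ S) ∩ A).card := by
    rw [Finset.prod_ite_mem, Finset.prod_const]
  have h4 : (Y \ S) ∩ A = A \ S := by
    ext j
    simp only [Finset.mem_inter, Finset.mem_sdiff]
    constructor
    · rintro ⟨⟨_, h⟩, h'⟩
      exact ⟨h', h⟩
    · rintro ⟨h', h⟩
      exact ⟨⟨hA h', h⟩, h'⟩
  have h5 : ((A \ S).card : ℝ) = A.card - (S ∩ A).card := by
    have h6 := Finset.card_sdiff_add_card_inter A S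
    rw [Finset.inter_comm] at h6
    have h7 : ((A \ S).card : ℝ) + (S ∩ A).card = A.card := by exact_mod_cast h6
    linarith
  rw [h2, h3, h4, ← Real.exp_nat_mul, ← Real.exp_nat_mul, ← Real.exp_add, h5]
  congr 1
  ring

/-- P3a one halving step: a half `Y'` of `Y` which splits every `A ∈ T` almost evenly -/
theorem halving {ι : Type} (Y : Finset ι) (T : Finset (Finset ι)) (hT : ∀ A ∈ T, A ⊆ Y) :
    ∃ Y' ⊆ Y, ∀ A ∈ T, |2 * ((Y' ∩ A).card : ℝ) - A.card| ≤
      Real.sqrt (2 * Y.card * Real.log (2 * T.card + 1)) := by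
  rcases Finset.eq_empty_or_nonempty T with rfl | hTne
  · exact ⟨∅, Finset.empty_subset _, fun A hA => by simp at hA⟩
  rcases Finset.eq_empty_or_nonempty Y with rfl | hYne
  · refine ⟨∅, Finset.empty_subset _, fun A hA => ?_⟩
    have hA' : A = ∅ := Finset.subset_empty.1 (hT A hA)
    subst hA'
    simp
  by_contra hcon
  push Not at hcon
  have hTpos : (0 : ℝ) < T.card := by exact_mod_cast Finset.card_pos.2 hTne
  have hNpos : (0 : ℝ) < Y.card := by exact_mod_cast Finset.card_pos.2 hYne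
  set lam : ℝ := Real.sqrt (2 * Y.card * Real.log (2 * T.card + 1)) with hlam
  have hlog : 0 < Real.log (2 * T.card + 1) := Real.log_pos (by linarith)
  have hlam2 : lam ^ 2 = 2 * Y.card * Real.log (2 * T.card + 1) :=
    Real.sq_sqrt (by positivity)
  have hlampos : 0 < lam := Real.sqrt_pos.2 (by positivity)
  set t : ℝ := lam / Y.card with ht
  have htpos : 0 < t := by positivity
  have h1 : ∀ S ∈ Y.powerset, Real.exp (t * lam) <
      ∑ A ∈ T, (Real.exp (t * (2 * ((S ∩ A).card : ℝ) - A.card)) +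
        Real.exp ((-t) * (2 * ((S ∩ A).card : ℝ) - A.card))) := by
    intro S hS
    obtain ⟨A, hA, hAl⟩ := hcon S (Finset.mem_powerset.1 hS)
    have h2 : Real.exp (t * (2 * ((S ∩ A).card : ℝ) - A.card)) +
        Real.exp ((-t) * (2 * ((S ∩ A).card : ℝ) - A.card)) ≤
        ∑ A ∈ T, (Real.exp (t * (2 * ((S ∩ A).card : ℝ) - A.card)) +
          Real.exp ((-t) * (2 * ((S ∩ A).card : ℝ) - A.card))) :=
      Finset.single_le_sum (f := fun A : Finset ι =>
        Real.exp (t * (2 * ((S ∩ A).card : ℝ) - A.card)) +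
          Real.exp ((-t) * (2 * ((S ∩ A).card : ℝ) - A.card))) (fun _ _ => by positivity) hA
    refine lt_of_lt_of_le ?_ h2
    rcases lt_abs.1 hAl with h3 | h3
    · have h4 : Real.exp (t * lam) < Real.exp (t * (2 * ((S ∩ A).card : ℝ) - A.card)) :=
        Real.exp_lt_exp.2 (mul_lt_mul_of_pos_left h3 htpos)
      have h5 := Real.exp_pos ((-t) * (2 * ((S ∩ A).card : ℝ) - A.card))
      linarith
    · have h4 : Real.exp (t * lam) < Real.exp ((-t) * (2 * ((S ∩ A).card : ℝ) - A.card)) := by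
        refine Real.exp_lt_exp.2 ?_
        have := mul_lt_mul_of_pos_left h3 htpos
        linarith
      have h5 := Real.exp_pos (t * (2 * ((S ∩ A).card : ℝ) - A.card))
      linarith
  have h2 : (2 : ℝ) ^ Y.card * Real.exp (t * lam) <
      ∑ S ∈ Y.powerset, ∑ A ∈ T, (Real.exp (t * (2 * ((S ∩ A).card : ℝ) - A.card)) +
        Real.exp ((-t) * (2 * ((S ∩ A).card : ℝ) - A.card))) := by
    have h3 := Finset.sum_lt_sum_of_nonempty (s := Y.powerset) ⟨∅, Finset.empty_mem_powerset _⟩ h1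
    rw [Finset.sum_const, Finset.card_powerset, nsmul_eq_mul] at h3
    push_cast at h3
    exact h3
  rw [Finset.sum_comm] at h2
  have h3 : ∀ A ∈ T, ∑ S ∈ Y.powerset, (Real.exp (t * (2 * ((S ∩ A).card : ℝ) - A.card)) +
        Real.exp ((-t) * (2 * ((S ∩ A).card : ℝ) - A.card))) ≤
      2 * (2 * Real.exp (t ^ 2 / 2)) ^ Y.card := by
    intro A hA
    rw [Finset.sum_add_distrib]
    have h4 := halving_sum Y A (hT A hA) t
    have h5 := halving_sum Y A (hT A hA) (-t)
    rw [neg_sq] at h5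
    linarith
  have h4 := Finset.sum_le_sum h3
  rw [Finset.sum_const, nsmul_eq_mul] at h4
  have h5 : (2 * Real.exp (t ^ 2 / 2)) ^ Y.card = 2 ^ Y.card * Real.exp (lam ^ 2 / (2 * Y.card)) := by
    rw [mul_pow, ← Real.exp_nat_mul]
    congr 2
    rw [ht]
    field_simp
  have h6 : t * lam = lam ^ 2 / (2 * Y.card) + lam ^ 2 / (2 * Y.card) := by
    rw [ht]
    field_simp
    ring
  have h7 : lam ^ 2 / (2 * Y.card) = Real.log (2 * T.card + 1) := by
    rw [hlam2]
    field_simp
  rw [h5, h7] at h4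
  rw [h6, h7, Real.exp_add, Real.exp_log (by positivity)] at h2
  rw [Real.exp_log (by positivity)] at h4
  have h8 : (0 : ℝ) < 2 ^ Y.card := by positivity
  have h9 := lt_of_lt_of_le h2 h4
  have h10 : (2 : ℝ) ^ Y.card * (2 * T.card + 1) * (2 * T.card + 1) <
      (2 : ℝ) ^ Y.card * (2 * T.card + 1) * (2 * T.card) := by
    calc (2 : ℝ) ^ Y.card * (2 * T.card + 1) * (2 * T.card + 1) =
        (2 : ℝ) ^ Y.card * ((2 * T.card + 1) * (2 * T.card + 1)) := by ring
      _ < T.card * (2 * (2 ^ Y.card * (2 * T.card + 1))) := h9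
      _ = (2 : ℝ) ^ Y.card * (2 * T.card + 1) * (2 * T.card) := by ring
  have h11 := lt_of_mul_lt_mul_left h10 (by positivity)
  linarith

end

end MPa20b56
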