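import Pool.Agent.Lib_MP_a20b56_co.Defs

namespace MPa20b56

open scoped BigOperators Classical
open MeasureTheory

noncomputable section

/-- The greedy step, iterated. -/
theorem hitting_aux {α : Type} (X : Finset α) (w : α → ℝ) (hw : ∀ a ∈ X, 0 ≤ w a)
    (hW : 0 < ∑ a ∈ X, w a) (R : Finset (Finset α)) (hR : ∀ A ∈ R, A ⊆ X)
    (ε : ℝ) (hε1 : ε ≤ 1)
    (hwR : ∀ A ∈ R, ε * ∑ a ∈ X, w a ≤ ∑ a ∈ A, w a) (s : ℕ) :
    ∃ N ⊆ X, N.card ≤ s ∧
      ((R.filter (fun A => ¬ (N ∩ A).Nonempty)).card : ℝ) ≤ R.card * (1 - ε) ^ s := by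
  induction s with
  | zero =>
    refine ⟨∅, by simp, by simp, ?_⟩
    simp
  | succ s ih =>
    obtain ⟨N, hNX, hNc, hN⟩ := ih
    set R' := R.filter (fun A => ¬ (N ∩ A).Nonempty) with hR'
    have hsum : ε * (∑ a ∈ X, w a) * R'.card ≤
        ∑ a ∈ X, w a * ((R'.filter (fun A => a ∈ A)).card : ℝ) := by
      have h1 : ∑ A ∈ R', ε * ∑ a ∈ X, w a ≤ ∑ A ∈ R', ∑ a ∈ A, w a :=
        Finset.sum_le_sum (fun A hA => hwR A (Finset.mem_filter.1 hA).1)
      have h2 : ∑ A ∈ R', ∑ a ∈ A, w a = ∑ A ∈ R', ∑ a ∈ X, (if a ∈ A then w a else 0) := by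
        refine Finset.sum_congr rfl (fun A hA => ?_)
        rw [← Finset.sum_filter]
        refine Finset.sum_congr ?_ (fun _ _ => rfl)
        ext a
        simp only [Finset.mem_filter]
        exact ⟨fun h => ⟨hR A (Finset.mem_filter.1 hA).1 h, h⟩, fun h => h.2⟩
      rw [h2, Finset.sum_comm] at h1
      have h3 : ∑ a ∈ X, ∑ A ∈ R', (if a ∈ A then w a else 0) =
          ∑ a ∈ X, w a * ((R'.filter (fun A => a ∈ A)).card : ℝ) := by
        refine Finset.sum_congr rfl (fun a _ => ?_)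
        rw [← Finset.sum_filter, Finset.sum_const, nsmul_eq_mul, mul_comm]
      rw [h3] at h1
      refine le_trans (le_of_eq ?_) h1
      rw [Finset.sum_const, nsmul_eq_mul]
      ring
    have hex : ∃ a ∈ X, ε * R'.card ≤ ((R'.filter (fun A => a ∈ A)).card : ℝ) := by
      by_contra hcon
      push Not at hcon
      have hpos : ∃ a ∈ X, 0 < w a := by
        by_contra h0
        push Not at h0
        have : ∑ a ∈ X, w a ≤ 0 := Finset.sum_nonpos h0
        linarith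
      obtain ⟨a0, ha0, hwa0⟩ := hpos
      have : ∑ a ∈ X, w a * ((R'.filter (fun A => a ∈ A)).card : ℝ) <
          ∑ a ∈ X, w a * (ε * R'.card) := by
        refine Finset.sum_lt_sum (fun a ha => ?_) ⟨a0, ha0, ?_⟩
        · exact mul_le_mul_of_nonneg_left (hcon a ha).le (hw a ha)
        · exact mul_lt_mul_of_pos_left (hcon a0 ha0) hwa0
      rw [← Finset.sum_mul] at this
      nlinarith
    obtain ⟨x, hx, hxc⟩ := hex
    refine ⟨insert x N, Finset.insert_subset hx hNX,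
      le_trans (Finset.card_insert_le _ _) (by omega), ?_⟩
    have hsub : R.filter (fun A => ¬ (insert x N ∩ A).Nonempty) ⊆
        R'.filter (fun A => ¬ x ∈ A) := by
      intro A hA
      rw [Finset.mem_filter] at hA
      rw [Finset.mem_filter, hR', Finset.mem_filter]
      refine ⟨⟨hA.1, fun h => hA.2 ?_⟩, fun h => hA.2 ⟨x, by simp [h]⟩⟩
      obtain ⟨y, hy⟩ := h
      refine ⟨y, ?_⟩
      rw [Finset.mem_inter] at hy ⊢
      exact ⟨Finset.mem_insert_of_mem hy.1, hy.2⟩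
    have hcard : (R'.filter (fun A => x ∈ A)).card + (R'.filter (fun A => ¬ x ∈ A)).card =
        R'.card := Finset.card_filter_add_card_filter_not _
    have hle : ((R.filter (fun A => ¬ (insert x N ∩ A).Nonempty)).card : ℝ) ≤
        ((R'.filter (fun A => ¬ x ∈ A)).card : ℝ) := by
      exact_mod_cast Finset.card_le_card hsub
    have hcard' : ((R'.filter (fun A => x ∈ A)).card : ℝ) +
        ((R'.filter (fun A => ¬ x ∈ A)).card : ℝ) = R'.card := by exact_mod_cast hcard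
    have h1e : 0 ≤ 1 - ε := by linarith
    calc ((R.filter (fun A => ¬ (insert x N ∩ A).Nonempty)).card : ℝ)
        ≤ ((R'.filter (fun A => ¬ x ∈ A)).card : ℝ) := hle
      _ ≤ (1 - ε) * R'.card := by linarith
      _ ≤ (1 - ε) * (R.card * (1 - ε) ^ s) := mul_le_mul_of_nonneg_left hN h1e
      _ = R.card * (1 - ε) ^ (s + 1) := by ring

/-- P1 weighted greedy hitting set -/
theorem hitting {α : Type} (X : Finset α) (w : α → ℝ) (hw : ∀ a ∈ X, 0 ≤ w a)
    (hW : 0 < ∑ a ∈ X, w a) (R : Finset (Finset α)) (hR : ∀ A ∈ R, A ⊆ X)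
    (ε Λ : ℝ) (hε : 0 < ε) (hε1 : ε ≤ 1)
    (hwR : ∀ A ∈ R, ε * ∑ a ∈ X, w a ≤ ∑ a ∈ A, w a)
    (hΛ : Real.log (R.card : ℝ) < Λ) (s : ℕ) (hs : Λ ≤ ε * s) :
    ∃ N ⊆ X, N.card ≤ s ∧ ∀ A ∈ R, (N ∩ A).Nonempty := by
  obtain ⟨N, hNX, hNc, hN⟩ := hitting_aux X w hw hW R hR ε hε1 hwR s
  refine ⟨N, hNX, hNc, ?_⟩
  intro A hA
  by_contra hcon
  have hRpos : (0 : ℝ) < R.card := by exact_mod_cast Finset.card_pos.2 ⟨A, hA⟩
  have h1 : (1 : ℝ) ≤ ((R.filter (fun A => ¬ (N ∩ A).Nonempty)).card : ℝ) := by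
    have : 0 < (R.filter (fun A => ¬ (N ∩ A).Nonempty)).card :=
      Finset.card_pos.2 ⟨A, Finset.mem_filter.2 ⟨hA, hcon⟩⟩
    exact_mod_cast this
  have h2 : (1 - ε) ^ s ≤ Real.exp (-(ε * s)) := by
    have h3 : 1 - ε ≤ Real.exp (-ε) := Real.one_sub_le_exp_neg ε
    calc (1 - ε) ^ s ≤ (Real.exp (-ε)) ^ s := pow_le_pow_left₀ (by linarith) h3 s
      _ = Real.exp (-(ε * s)) := by
        rw [← Real.exp_nat_mul]
        congr 1
        ring
  have h4 : (R.card : ℝ) < Real.exp (ε * s) := by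
    have : Real.log (R.card : ℝ) < ε * s := lt_of_lt_of_le hΛ hs
    exact (Real.log_lt_iff_lt_exp hRpos).1 this
  have h5 : (R.card : ℝ) * Real.exp (-(ε * s)) < 1 := by
    rw [Real.exp_neg]
    rw [mul_inv_lt_iff₀ (Real.exp_pos _)]
    linarith
  have h6 : (R.card : ℝ) * (1 - ε) ^ s ≤ R.card * Real.exp (-(ε * s)) :=
    mul_le_mul_of_nonneg_left h2 hRpos.le
  linarith

end

end MPa20b56
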