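import Pool.Agent.Lib_MP_a20b56_co.Verts

namespace MPa20b56

open scoped BigOperators Classical
open MeasureTheory

noncomputable section

/-! ### affine functionals -/

/-- linear part of an affine functional -/
def triLin {d : ℕ} (f : Aff d) (w : V d) : ℝ := ∑ i, f.1 i * w i

theorem triEv_add {d : ℕ} (f : Aff d) (x w : V d) (t : ℝ) :
    ev f (x + t • w) = ev f x + t * triLin f w := by
  unfold ev triLin
  simp only [Pi.add_apply, Pi.smul_apply, smul_eq_mul]
  rw [Finset.mul_sum, add_right_comm, ← Finset.sum_add_distrib]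
  congr 1
  refine Finset.sum_congr rfl fun i _ => ?_
  ring

theorem triLin_sub {d : ℕ} (f : Aff d) (x y : V d) :
    triLin f (x - y) = ev f x - ev f y := by
  unfold ev triLin
  simp only [Pi.sub_apply]
  rw [add_sub_add_right_eq_sub, ← Finset.sum_sub_distrib]
  refine Finset.sum_congr rfl fun i _ => ?_
  ring

/-- evaluation as a linear map in the functional -/
def triEvL {d : ℕ} (x : V d) : Aff d →ₗ[ℝ] ℝ where
  toFun f := ev f x
  map_add' f g := by
    simp only [ev, Prod.fst_add, Prod.snd_add, Pi.add_apply, add_mul, Finset.sum_add_distrib]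
    ring
  map_smul' a f := by
    simp only [ev, Prod.smul_fst, Prod.smul_snd, Pi.smul_apply, smul_eq_mul, RingHom.id_apply,
      mul_add, Finset.mul_sum, mul_assoc]

theorem triEvL_apply {d : ℕ} (x : V d) (f : Aff d) : triEvL x f = ev f x := rfl

theorem triFinrank (d : ℕ) : Module.finrank ℝ (Aff d) = d + 1 := by
  rw [Module.finrank_prod]
  simp

/-- at most `d` functionals vanish at a point -/
theorem tri_zero_card {d : ℕ} {L : Finset (Aff d)} (hgp : GenPos L) (x : V d) :
    (L.filter fun f => ev f x = 0).card ≤ d := by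
  by_contra hcon
  push Not at hcon
  obtain ⟨T, hT, hTc⟩ := Finset.exists_subset_card_eq (s := L.filter fun f => ev f x = 0)
    (n := d + 1) hcon
  have hTL : T ⊆ L := hT.trans (Finset.filter_subset _ _)
  have hli := hgp T hTL hTc.le
  have hcard : Fintype.card T = Module.finrank ℝ (Aff d) := by
    rw [triFinrank, Fintype.card_coe, hTc]
  have : Nonempty T := by
    have h0 : 0 < T.card := by omega
    obtain ⟨g, hg⟩ := Finset.card_pos.mp h0
    exact ⟨⟨g, hg⟩⟩
  have hspan := hli.span_eq_top_of_card_eq_finrank hcard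
  have hzero : ∀ f : Aff d, triEvL x f = 0 := by
    intro f
    have hf : f ∈ Submodule.span ℝ (Set.range fun f : T => (f : Aff d)) := by
      rw [hspan]; trivial
    have hle : Submodule.span ℝ (Set.range fun f : T => (f : Aff d)) ≤
        LinearMap.ker (triEvL x) := by
      rw [Submodule.span_le]
      rintro _ ⟨g, rfl⟩
      have := Finset.mem_filter.mp (hT g.2)
      simpa [LinearMap.mem_ker, triEvL_apply] using this.2
    exact hle hf
  have h1 := hzero (0, 1)
  simp [triEvL_apply, ev] at h1

/-- the linear parts of the functionals in `Z` -/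
def triPhi {d : ℕ} (Z : Finset (Aff d)) : V d →ₗ[ℝ] (Z → ℝ) where
  toFun w f := triLin f.1 w
  map_add' w w' := by
    funext f
    simp only [triLin, Pi.add_apply, mul_add, Finset.sum_add_distrib]
  map_smul' a w := by
    funext f
    simp only [triLin, Pi.smul_apply, smul_eq_mul, RingHom.id_apply, Finset.mul_sum]
    refine Finset.sum_congr rfl fun i _ => ?_
    ring

theorem triPhi_apply {d : ℕ} (Z : Finset (Aff d)) (w : V d) (f : Z) :
    triPhi Z w f = triLin f.1 w := rfl

/-- independent functionals with a common zero have independent linear parts -/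
theorem tri_surj {d : ℕ} {L : Finset (Aff d)} (hgp : GenPos L) (Z : Finset (Aff d)) (hZ : Z ⊆ L)
    (hc : Z.card ≤ d + 1) (x : V d) (hx : ∀ f ∈ Z, ev f x = 0) :
    Function.Surjective (triPhi Z) := by
  rw [← LinearMap.range_eq_top]
  by_contra hne
  obtain ⟨F, hF0, hF⟩ := Submodule.exists_le_ker_of_lt_top _ (lt_top_iff_ne_top.mpr hne)
  apply hF0
  set c : Z → ℝ := fun f => F (Pi.single f 1) with hcdef
  have hFc : ∀ y : Z → ℝ, F y = ∑ f, y f * c f := by
    intro y
    conv_lhs => rw [← Finset.univ_sum_single y]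
    rw [map_sum]
    refine Finset.sum_congr rfl fun f _ => ?_
    have : (Pi.single f (y f) : Z → ℝ) = y f • (Pi.single f 1 : Z → ℝ) := by
      rw [← Pi.single_smul, smul_eq_mul, mul_one]
    rw [this, map_smul, smul_eq_mul]
  have hker : ∀ w : V d, ∑ f : Z, triLin f.1 w * c f = 0 := by
    intro w
    have h1 : triPhi Z w ∈ LinearMap.ker F := hF ⟨w, rfl⟩
    rw [LinearMap.mem_ker, hFc] at h1
    simpa only [triPhi_apply] using h1
  have hli := hgp Z hZ hc
  rw [Fintype.linearIndependent_iff] at hli
  have hsum : ∑ f : Z, c f • (f : Aff d) = 0 := by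
    have hfst : (∑ f : Z, c f • (f : Aff d)).1 = 0 := by
      funext i
      have h2 := hker (Pi.single i 1)
      rw [Prod.fst_sum, Finset.sum_apply, Pi.zero_apply, ← h2]
      refine Finset.sum_congr rfl fun f _ => ?_
      simp only [Prod.smul_fst, Pi.smul_apply, smul_eq_mul, triLin]
      rw [Finset.sum_eq_single i]
      · simp [mul_comm]
      · intro j _ hj
        simp [hj]
      · simp
    have hev : triEvL x (∑ f : Z, c f • (f : Aff d)) = 0 := by
      rw [map_sum]
      apply Finset.sum_eq_zero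
      intro f _
      rw [map_smul, triEvL_apply, hx f.1 f.2, smul_zero]
    have hsnd : (∑ f : Z, c f • (f : Aff d)).2 = 0 := by
      rw [triEvL_apply] at hev
      unfold ev at hev
      rw [hfst] at hev
      simpa using hev
    exact Prod.ext hfst hsnd
  have hc0 := hli c hsum
  ext y
  simp [hFc, hc0]

/-- `d` functionals in general position have at most one common zero -/
theorem tri_unique {d : ℕ} {L : Finset (Aff d)} (hgp : GenPos L) (S : Finset (Aff d)) (hS : S ⊆ L)
    (hc : S.card = d) (x y : V d) (hx : ∀ f ∈ S, ev f x = 0) (hy : ∀ f ∈ S, ev f y = 0) :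
    x = y := by
  have hsurj := tri_surj hgp S hS (by omega) x hx
  have hinj : Function.Injective (triPhi S) := by
    rw [LinearMap.injective_iff_surjective_of_finrank_eq_finrank]
    · exact hsurj
    · simp [hc]
  rw [← sub_eq_zero]
  apply hinj
  funext f
  rw [triPhi_apply, triLin_sub, hx f.1 f.2, hy f.1 f.2, map_zero]
  simp

/-! ### cells -/

/-- signs -/
def triSgn {d : ℕ} (P : Finset (Aff d)) (f : Aff d) : ℝ := if f ∈ P then 1 else -1

theorem triSgn_cases {d : ℕ} (P : Finset (Aff d)) (f : Aff d) :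
    triSgn P f = 1 ∨ triSgn P f = -1 := by
  unfold triSgn
  split_ifs
  · exact Or.inl rfl
  · exact Or.inr rfl

theorem triSgn_mul_self {d : ℕ} (P : Finset (Aff d)) (f : Aff d) :
    triSgn P f * triSgn P f = 1 := by
  rcases triSgn_cases P f with h | h <;> rw [h] <;> norm_num

/-- cells of the arrangement inside the flat given by `S` -/
def triCell {d : ℕ} (L S P : Finset (Aff d)) : Set (V d) :=
  {x : V d | (∀ f ∈ S, ev f x = 0) ∧ ∀ f ∈ L, 0 ≤ triSgn P f * ev f x}

theorem triCell_mono {d : ℕ} {L S S' P : Finset (Aff d)} (h : S ⊆ S') :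
    triCell L S' P ⊆ triCell L S P := fun _ hx => ⟨fun f hf => hx.1 f (h hf), hx.2⟩

theorem triCell_bdd {d : ℕ} {B L S P : Finset (Aff d)} (hBL : B ⊆ L) (hBP : B ⊆ P)
    (hb : Bornology.IsBounded {x : V d | ∀ f ∈ B, 0 ≤ ev f x}) :
    Bornology.IsBounded (triCell L S P) := by
  refine hb.subset ?_
  intro x hx f hf
  have := hx.2 f (hBL hf)
  rwa [triSgn, if_pos (hBP hf), one_mul] at this

/-- a cell of positive dimension contains a second point -/
theorem tri_second {d : ℕ} {L : Finset (Aff d)} (hgp : GenPos L) (S P : Finset (Aff d))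
    (hS : S ⊆ L) (hc : S.card < d) (v : V d) (hv : v ∈ triCell L S P) :
    ∃ p ∈ triCell L S P, p ≠ v := by
  set Z := L.filter fun f => ev f v = 0 with hZ
  have hSZ : S ⊆ Z := fun f hf => Finset.mem_filter.mpr ⟨hS hf, hv.1 f hf⟩
  have hZc : Z.card ≤ d := tri_zero_card hgp v
  have hZL : Z ⊆ L := Finset.filter_subset _ _
  obtain ⟨w, hw0, hwS, hwZ⟩ : ∃ w : V d, w ≠ 0 ∧ (∀ f ∈ S, triLin f w = 0) ∧
      ∀ f ∈ Z, 0 ≤ triSgn P f * triLin f w := by
    by_cases hSZ' : Z ⊆ S
    · -- kernel of `S`
      have hker : LinearMap.ker (triPhi S) ≠ ⊥ := by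
        apply LinearMap.ker_ne_bot_of_finrank_lt
        simpa using hc
      obtain ⟨w, hw, hw0⟩ := Submodule.exists_mem_ne_zero_of_ne_bot hker
      have hwS : ∀ f ∈ S, triLin f w = 0 := by
        intro f hf
        rw [LinearMap.mem_ker] at hw
        have := congrFun hw ⟨f, hf⟩
        simpa [triPhi_apply] using this
      refine ⟨w, hw0, hwS, fun f hf => ?_⟩
      rw [hwS f (hSZ' hf), mul_zero]
    · obtain ⟨g, hgZ, hgS⟩ := Finset.not_subset.mp hSZ'
      obtain ⟨w, hw⟩ := tri_surj hgp Z hZL (by omega) v (fun f hf => (Finset.mem_filter.mp hf).2)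
        (fun f => if f.1 ∈ S then 0 else triSgn P f.1)
      have hwf : ∀ f ∈ Z, triLin f w = if f ∈ S then 0 else triSgn P f := by
        intro f hf
        have := congrFun hw ⟨f, hf⟩
        simpa [triPhi_apply] using this
      refine ⟨w, ?_, ?_, ?_⟩
      · intro h0
        have h1 := hwf g hgZ
        rw [if_neg hgS, h0] at h1
        have h2 := triSgn_mul_self P g
        rw [← h1] at h2
        simp [triLin] at h2
      · intro f hf
        rw [hwf f (hSZ hf), if_pos hf]
      · intro f hf
        rw [hwf f hf]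
        split_ifs
        · rw [mul_zero]
        · rw [triSgn_mul_self]; norm_num
  have hev : ∀ᶠ t in nhdsWithin (0 : ℝ) (Set.Ioi 0), ∀ f ∈ L,
      0 ≤ triSgn P f * ev f (v + t • w) := by
    rw [Filter.eventually_all_finset]
    intro f hf
    by_cases hfZ : ev f v = 0
    · filter_upwards [self_mem_nhdsWithin] with t ht
      rw [triEv_add, hfZ, zero_add]
      have h1 := hwZ f (Finset.mem_filter.mpr ⟨hf, hfZ⟩)
      have h2 : (0 : ℝ) < t := ht
      have h3 := mul_nonneg h2.le h1
      linarith [mul_left_comm (triSgn P f) t (triLin f w)]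
    · have hpos : 0 < triSgn P f * ev f v := by
        refine lt_of_le_of_ne (hv.2 f hf) ?_
        intro h0
        rcases mul_eq_zero.mp h0.symm with h | h
        · have := triSgn_mul_self P f
          rw [h] at this
          norm_num at this
        · exact hfZ h
      have hcont : Continuous fun t : ℝ => triSgn P f * ev f (v + t • w) := by
        simp_rw [triEv_add]
        fun_prop
      have h1 : ∀ᶠ t in nhds (0 : ℝ), 0 < triSgn P f * ev f (v + t • w) := by
        apply (hcont.tendsto 0).eventually_const_lt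
        simpa using hpos
      filter_upwards [nhdsWithin_le_nhds h1] with t ht
      exact ht.le
  obtain ⟨t, ht, ht0⟩ := (hev.and self_mem_nhdsWithin).exists
  have ht0' : (0 : ℝ) < t := ht0
  refine ⟨v + t • w, ⟨?_, ht⟩, ?_⟩
  · intro f hf
    rw [triEv_add, hv.1 f hf, hwS f hf, mul_zero, add_zero]
  · intro h
    have : t • w = 0 := by simpa using h
    rcases smul_eq_zero.mp this with h1 | h1
    · exact ht0'.ne' h1
    · exact hw0 h1

/-- the ray from `v` through `p` leaves the cell through a hyperplane not containing `v` -/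
theorem tri_ray {d : ℕ} {L S P : Finset (Aff d)}
    (hb : Bornology.IsBounded (triCell L S P)) (v p : V d) (hv : v ∈ triCell L S P)
    (hp : p ∈ triCell L S P) (hpv : p ≠ v) :
    ∃ f ∈ L, f ∉ S ∧ ∃ t : ℝ, 1 ≤ t ∧ v + t • (p - v) ∈ triCell L (insert f S) P := by
  set a : Aff d → ℝ := fun f => triSgn P f * ev f v with ha
  set b : Aff d → ℝ := fun f => triSgn P f * ev f p with hbdef
  have hline : ∀ f (t : ℝ), triSgn P f * ev f (v + t • (p - v)) = a f + t * (b f - a f) := by
    intro f t
    rw [triEv_add, triLin_sub]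
    simp only [ha, hbdef]
    ring
  have hzero : ∀ f ∈ S, ∀ t : ℝ, ev f (v + t • (p - v)) = 0 := by
    intro f hf t
    rw [triEv_add, triLin_sub, hv.1 f hf, hp.1 f hf]
    ring
  have ha0 : ∀ f ∈ L, 0 ≤ a f := fun f hf => hv.2 f hf
  have hb0 : ∀ f ∈ L, 0 ≤ b f := fun f hf => hp.2 f hf
  set E := L.filter fun f => b f < a f with hE
  have hEne : E.Nonempty := by
    by_contra hcon
    rw [Finset.not_nonempty_iff_eq_empty] at hcon
    have hall : ∀ f ∈ L, a f ≤ b f := by
      intro f hf
      by_contra h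
      push Not at h
      have : f ∈ E := Finset.mem_filter.mpr ⟨hf, h⟩
      rw [hcon] at this
      simp at this
    obtain ⟨R, hR⟩ := hb.exists_norm_le
    have hpos : 0 < ‖p - v‖ := norm_pos_iff.mpr (sub_ne_zero.mpr hpv)
    have hR0 : 0 ≤ R := (norm_nonneg v).trans (hR v hv)
    set t : ℝ := (R + ‖v‖ + 1) / ‖p - v‖ with ht
    have ht0 : 0 ≤ t := by positivity
    have hmem : v + t • (p - v) ∈ triCell L S P := by
      refine ⟨fun f hf => hzero f hf t, fun f hf => ?_⟩
      rw [hline]
      have h1 := hall f hf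
      have h2 := ha0 f hf
      have h3 := mul_nonneg ht0 (sub_nonneg.mpr h1)
      linarith
    have h4 := hR _ hmem
    have h5 : ‖t • (p - v)‖ = R + ‖v‖ + 1 := by
      rw [norm_smul, Real.norm_of_nonneg ht0, ht]
      field_simp
    have h6 : ‖t • (p - v)‖ ≤ ‖v + t • (p - v)‖ + ‖v‖ := by
      have := norm_sub_le (v + t • (p - v)) v
      simpa using this
    linarith
  obtain ⟨f, hfE, hmin⟩ := E.exists_min_image (fun f => a f / (a f - b f)) hEne
  have hf := Finset.mem_filter.mp hfE
  have hpos : 0 < a f - b f := by linarith [hf.2]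
  have hbf := hb0 f hf.1
  have hapos : 0 < a f := by linarith
  have hfS : f ∉ S := by
    intro h
    have : a f = 0 := by simp only [ha]; rw [hv.1 f h, mul_zero]
    linarith
  refine ⟨f, hf.1, hfS, a f / (a f - b f), ?_, ?_, ?_⟩
  · rw [one_le_div hpos]; linarith
  · intro g hg
    rcases Finset.mem_insert.mp hg with rfl | hg
    · have h1 := hline g (a g / (a g - b g))
      have h2 : a g + a g / (a g - b g) * (b g - a g) = 0 := by
        have hne : a g - b g ≠ 0 := hpos.ne'
        field_simp
        ring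
      rw [h2] at h1
      rcases mul_eq_zero.mp h1 with h | h
      · have := triSgn_mul_self P g
        rw [h] at this
        norm_num at this
      · exact h
    · exact hzero g hg _
  · intro g hg
    rw [hline]
    have hag := ha0 g hg
    have ht0 : 0 ≤ a f / (a f - b f) := by positivity
    by_cases hgE : b g < a g
    · have h1 := hmin g (Finset.mem_filter.mpr ⟨hg, hgE⟩)
      have h2 : 0 < a g - b g := by linarith
      have h3 : a f / (a f - b f) * (a g - b g) ≤ a g := by
        calc a f / (a f - b f) * (a g - b g) ≤ a g / (a g - b g) * (a g - b g) :=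
              mul_le_mul_of_nonneg_right h1 h2.le
          _ = a g := by field_simp
      linarith
    · push Not at hgE
      have h3 := mul_nonneg ht0 (sub_nonneg.mpr hgE)
      linarith

/-- number of cells containing a point -/
theorem tri_count {d : ℕ} {L : Finset (Aff d)} (hgp : GenPos L) (S : Finset (Aff d)) (x : V d) :
    (L.powerset.filter fun P => x ∈ triCell L S P).card ≤ 2 ^ d := by
  set Z := L.filter fun f => ev f x = 0 with hZ
  have hZc : Z.card ≤ d := tri_zero_card hgp x
  calc (L.powerset.filter fun P => x ∈ triCell L S P).card ≤ Z.powerset.card := by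
        apply Finset.card_le_card_of_injOn (fun P => P ∩ Z)
        · intro P _
          simp only [Finset.coe_powerset, Set.mem_preimage, Set.mem_powerset_iff,
            Finset.coe_subset]
          exact Finset.inter_subset_right
        · intro P hP P' hP' hPP
          have hP := Finset.mem_filter.mp (Finset.mem_coe.mp hP)
          have hP' := Finset.mem_filter.mp (Finset.mem_coe.mp hP')
          have hPL := Finset.mem_powerset.mp hP.1
          have hPL' := Finset.mem_powerset.mp hP'.1
          have key : ∀ Q Q' : Finset (Aff d), Q ⊆ L → x ∈ triCell L S Q → x ∈ triCell L S Q' →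
              Q ∩ Z = Q' ∩ Z → Q ⊆ Q' := by
            intro Q Q' hQL hxQ hxQ' hQQ f hf
            by_cases hfZ : f ∈ Z
            · have : f ∈ Q ∩ Z := Finset.mem_inter.mpr ⟨hf, hfZ⟩
              rw [hQQ] at this
              exact (Finset.mem_inter.mp this).1
            · by_contra hfQ
              have h1 := hxQ.2 f (hQL hf)
              have h2 := hxQ'.2 f (hQL hf)
              rw [triSgn, if_pos hf, one_mul] at h1
              rw [triSgn, if_neg hfQ] at h2
              apply hfZ
              exact Finset.mem_filter.mpr ⟨hQL hf, by linarith⟩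
          exact Finset.Subset.antisymm (key P P' hPL hP.2 hP'.2 hPP)
            (key P' P hPL' hP'.2 hP.2 hPP.symm)
    _ = 2 ^ Z.card := Finset.card_powerset Z
    _ ≤ 2 ^ d := Nat.pow_le_pow_right (by norm_num) hZc

theorem tri_aux {d : ℕ} (B L : Finset (Aff d)) (hBL : B ⊆ L)
    (hb : Bornology.IsBounded {x : V d | ∀ f ∈ B, 0 ≤ ev f x})
    (hgp : GenPos L) (k : ℕ) : ∀ S : Finset (Aff d), S ⊆ L → S.card + k = d →
    ∃ T : Finset (Finset (V d)), T.card ≤ (2 ^ (d + 1) * (L.card + 1)) ^ k ∧
      (∀ τ ∈ T, τ.Nonempty ∧ τ.card ≤ k + 1 ∧ (∀ v ∈ τ, IsVert L v) ∧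
        ∃ P ⊆ L, B ⊆ P ∧ (τ : Set (V d)) ⊆ triCell L S P) ∧
      ∀ P ⊆ L, B ⊆ P → ∀ x ∈ triCell L S P, ∃ τ ∈ T, (τ : Set (V d)) ⊆ triCell L S P ∧
        x ∈ convexHull ℝ (τ : Set (V d)) := by
  induction k with
  | zero =>
    intro S hS hSc
    by_cases hex : ∃ P ⊆ L, B ⊆ P ∧ (triCell L S P).Nonempty
    · obtain ⟨P, hPL, hBP, x, hx⟩ := hex
      have huniq : ∀ y : V d, (∀ f ∈ S, ev f y = 0) → y = x := fun y hy =>
        tri_unique hgp S hS (by omega) y x hy hx.1
      refine ⟨{{x}}, by simp, ?_, ?_⟩
      · intro τ hτ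
        rw [Finset.mem_singleton] at hτ
        subst hτ
        refine ⟨Finset.singleton_nonempty _, by simp, ?_, P, hPL, hBP, by simpa using hx⟩
        intro v hv
        rw [Finset.mem_singleton] at hv
        subst hv
        exact ⟨S, hS, by omega, fun y => ⟨huniq y, fun h => by rw [h]; exact hx.1⟩⟩
      · intro P' _ _ y hy
        have hyx := huniq y hy.1
        subst hyx
        exact ⟨{y}, by simp, by simpa using hy, by simp⟩
    · push Not at hex
      refine ⟨∅, by simp, by simp, ?_⟩
      intro P hPL hBP x hx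
      exact absurd hx (by rw [hex P hPL hBP]; simp)
  | succ k ih =>
    intro S hS hSc
    have hF : ∀ f ∈ L \ S, ∃ T : Finset (Finset (V d)),
        T.card ≤ (2 ^ (d + 1) * (L.card + 1)) ^ k ∧
        (∀ τ ∈ T, τ.Nonempty ∧ τ.card ≤ k + 1 ∧ (∀ v ∈ τ, IsVert L v) ∧
          ∃ P ⊆ L, B ⊆ P ∧ (τ : Set (V d)) ⊆ triCell L (insert f S) P) ∧
        ∀ P ⊆ L, B ⊆ P → ∀ x ∈ triCell L (insert f S) P, ∃ τ ∈ T,
          (τ : Set (V d)) ⊆ triCell L (insert f S) P ∧ x ∈ convexHull ℝ (τ : Set (V d)) := by
      intro f hf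
      rw [Finset.mem_sdiff] at hf
      apply ih
      · intro g hg
        rcases Finset.mem_insert.mp hg with rfl | hg
        · exact hf.1
        · exact hS hg
      · rw [Finset.card_insert_of_notMem hf.2]
        omega
    choose! F hF1 hF2 hF3 using hF
    have hvex : ∀ P : Finset (Aff d), B ⊆ P → (triCell L S P).Nonempty →
        ∃ v, IsVert L v ∧ v ∈ triCell L S P := by
      intro P hBP hne
      obtain ⟨v, h1, h2, h3⟩ := exists_vertex L S hS (triSgn P)
        (fun f _ => triSgn_cases P f) hne (triCell_bdd hBL hBP hb)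
      exact ⟨v, h1, h2, h3⟩
    choose! v hv1 hv2 using hvex
    set T : Finset (Finset (V d)) := (L \ S).biUnion fun f => (F f).biUnion fun τ =>
      (L.powerset.filter fun P => B ⊆ P ∧ (τ : Set (V d)) ⊆ triCell L S P).image
        fun P => insert (v P) τ with hT
    refine ⟨T, ?_, ?_, ?_⟩
    · have h1 : T.card ≤ (L \ S).card * ((2 ^ (d + 1) * (L.card + 1)) ^ k * 2 ^ d) := by
        apply Finset.card_biUnion_le_card_mul
        intro f hf
        refine (Finset.card_biUnion_le_card_mul _ _ (2 ^ d) ?_).trans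
          (Nat.mul_le_mul_right _ (hF1 f hf))
        intro τ hτ
        refine Finset.card_image_le.trans ?_
        obtain ⟨x0, hx0⟩ := (hF2 f hf τ hτ).1
        refine le_trans (Finset.card_le_card ?_) (tri_count hgp S x0)
        intro P hP
        rw [Finset.mem_filter] at hP ⊢
        exact ⟨hP.1, hP.2.2 hx0⟩
      have h2 : (L \ S).card ≤ L.card + 1 :=
        (Finset.card_le_card Finset.sdiff_subset).trans (Nat.le_succ _)
      refine h1.trans ?_
      calc (L \ S).card * ((2 ^ (d + 1) * (L.card + 1)) ^ k * 2 ^ d) ≤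
          (L.card + 1) * ((2 ^ (d + 1) * (L.card + 1)) ^ k * 2 ^ (d + 1)) := by
            apply Nat.mul_le_mul h2
            apply Nat.mul_le_mul_left
            exact Nat.pow_le_pow_right (by norm_num) (Nat.le_succ d)
        _ = (2 ^ (d + 1) * (L.card + 1)) ^ (k + 1) := by ring
    · intro τ' hτ'
      rw [hT, Finset.mem_biUnion] at hτ'
      obtain ⟨f, hf, hτ'⟩ := hτ'
      rw [Finset.mem_biUnion] at hτ'
      obtain ⟨τ, hτ, hτ'⟩ := hτ'
      rw [Finset.mem_image] at hτ'
      obtain ⟨P, hP, rfl⟩ := hτ'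
      rw [Finset.mem_filter, Finset.mem_powerset] at hP
      obtain ⟨hne, hcard, hvert, -⟩ := hF2 f hf τ hτ
      have hcne : (triCell L S P).Nonempty := by
        obtain ⟨x0, hx0⟩ := hne
        exact ⟨x0, hP.2.2 hx0⟩
      refine ⟨Finset.insert_nonempty _ _, (Finset.card_insert_le _ _).trans (by omega), ?_, P, hP.1,
        hP.2.1, ?_⟩
      · intro y hy
        rcases Finset.mem_insert.mp hy with rfl | hy
        · exact hv1 P hP.2.1 hcne
        · exact hvert y hy
      · intro y hy
        rw [Finset.mem_coe, Finset.mem_insert] at hy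
        rcases hy with rfl | hy
        · exact hv2 P hP.2.1 hcne
        · exact hP.2.2 hy
    · intro P hPL hBP x hx
      have hcne : (triCell L S P).Nonempty := ⟨x, hx⟩
      have hvm := hv2 P hBP hcne
      obtain ⟨p, hp, hpv, hxp⟩ : ∃ p ∈ triCell L S P, p ≠ v P ∧ (x = v P ∨ x = p) := by
        by_cases hxv : x = v P
        · obtain ⟨p, hp, hpv⟩ := tri_second hgp S P hS (by omega) (v P) hvm
          exact ⟨p, hp, hpv, Or.inl hxv⟩
        · exact ⟨x, hx, hxv, Or.inr rfl⟩
      obtain ⟨f, hfL, hfS, t, ht, hmem⟩ := tri_ray (triCell_bdd hBL hBP hb) (v P) p hvm hp hpv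
      have hfLS : f ∈ L \ S := Finset.mem_sdiff.mpr ⟨hfL, hfS⟩
      obtain ⟨τ, hτ, hτc, hτx⟩ := hF3 f hfLS P hPL hBP _ hmem
      have hτc' : (τ : Set (V d)) ⊆ triCell L S P :=
        hτc.trans (triCell_mono (Finset.subset_insert _ _))
      refine ⟨insert (v P) τ, ?_, ?_, ?_⟩
      · rw [hT, Finset.mem_biUnion]
        refine ⟨f, hfLS, ?_⟩
        rw [Finset.mem_biUnion]
        refine ⟨τ, hτ, ?_⟩
        rw [Finset.mem_image]
        exact ⟨P, Finset.mem_filter.mpr ⟨Finset.mem_powerset.mpr hPL, hBP, hτc'⟩, rfl⟩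
      · intro y hy
        rw [Finset.mem_coe, Finset.mem_insert] at hy
        rcases hy with rfl | hy
        · exact hvm
        · exact hτc' hy
      · have hvin : v P ∈ convexHull ℝ ((insert (v P) τ : Finset (V d)) : Set (V d)) :=
          subset_convexHull ℝ _ (by simp)
        rcases hxp with rfl | rfl
        · exact hvin
        · have hpin : v P + t • (x - v P) ∈
              convexHull ℝ ((insert (v P) τ : Finset (V d)) : Set (V d)) := by
            refine convexHull_mono ?_ hτx
            rw [Finset.coe_insert]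
            exact Set.subset_insert _ _
          have ht0 : 0 < t := by linarith
          have hconv := convex_convexHull ℝ ((insert (v P) τ : Finset (V d)) : Set (V d))
          have h1 := hconv hvin hpin (a := 1 - 1 / t) (b := 1 / t)
            (by rw [sub_nonneg, div_le_one ht0]; exact ht) (by positivity) (by ring)
          have h2 : (1 - 1 / t) • v P + (1 / t) • (v P + t • (x - v P)) = x := by
            rw [smul_add, smul_smul, one_div, inv_mul_cancel₀ ht0.ne', one_smul, sub_smul, one_smul]
            abel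
          rwa [h2] at h1

/-- P7 triangulation -/
theorem triang {d : ℕ} (B L : Finset (Aff d)) (hBL : B ⊆ L)
    (hb : Bornology.IsBounded {x : V d | ∀ f ∈ B, 0 ≤ ev f x})
    (hgp : GenPos L) :
    ∃ T : Finset (Finset (V d)), T.card ≤ (2 ^ (d + 1) * (L.card + 1)) ^ d ∧
      (∀ τ ∈ T, τ.card ≤ d + 1 ∧ (∀ v ∈ τ, IsVert L v) ∧
        ∀ f ∈ L, (∀ v ∈ τ, 0 ≤ ev f v) ∨ (∀ v ∈ τ, ev f v ≤ 0)) ∧
      ∀ x : V d, (∀ f ∈ B, 0 ≤ ev f x) → ∃ τ ∈ T, x ∈ convexHull ℝ (τ : Set (V d)) := by
  obtain ⟨T, h1, h2, h3⟩ := tri_aux B L hBL hb hgp d ∅ (Finset.empty_subset _) (by simp)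
  refine ⟨T, h1, ?_, ?_⟩
  · intro τ hτ
    obtain ⟨-, hc, hv, P, hPL, hBP, hcell⟩ := h2 τ hτ
    refine ⟨hc, hv, fun f hf => ?_⟩
    by_cases hfP : f ∈ P
    · left
      intro v hv
      have := (hcell hv).2 f hf
      rwa [triSgn, if_pos hfP, one_mul] at this
    · right
      intro v hv
      have := (hcell hv).2 f hf
      rw [triSgn, if_neg hfP] at this
      linarith
  · intro x hx
    set P := L.filter fun f => 0 ≤ ev f x with hP
    have hBP : B ⊆ P := fun f hf => Finset.mem_filter.mpr ⟨hBL hf, hx f hf⟩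
    have hmem : x ∈ triCell L ∅ P := by
      refine ⟨by simp, fun f hf => ?_⟩
      unfold triSgn
      split_ifs with h
      · rw [one_mul]
        exact (Finset.mem_filter.mp h).2
      · have : ¬ 0 ≤ ev f x := fun h' => h (Finset.mem_filter.mpr ⟨hf, h'⟩)
        push Not at this
        linarith
    obtain ⟨τ, hτ, -, hxτ⟩ := h3 P (Finset.filter_subset _ _) hBP x hmem
    exact ⟨τ, hτ, hxτ⟩

end

end MPa20b56
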