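import Pool.Agent.Lib_MP_a20b56_co.Hitting
import Pool.Agent.Lib_MP_a20b56_co.Triang

namespace MPa20b56

open scoped BigOperators Classical
open MeasureTheory

noncomputable section

theorem partStep_isVert_mono {d : ℕ} {L L' : Finset (Aff d)} (h : L ⊆ L') {v : V d}
    (hv : IsVert L v) : IsVert L' v := by
  obtain ⟨T, hT, h1, h2⟩ := hv
  exact ⟨T, hT.trans h, h1, h2⟩

theorem partStep_genPos_mono {d : ℕ} {L L' : Finset (Aff d)} (h : L ⊆ L') (hg : GenPos L') :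
    GenPos L := fun T hT hc => hg T (hT.trans h) hc

theorem partStep_ev_convex {d : ℕ} (f : Aff d) (x y : V d) (a b : ℝ) (hab : a + b = 1) :
    ev f (a • x + b • y) = a * ev f x + b * ev f y := by
  unfold ev
  have h1 : ∑ i, f.1 i * (a • x + b • y) i = a * ∑ i, f.1 i * x i + b * ∑ i, f.1 i * y i := by
    rw [Finset.mul_sum, Finset.mul_sum, ← Finset.sum_add_distrib]
    refine Finset.sum_congr rfl fun i _ => ?_
    simp only [Pi.add_apply, Pi.smul_apply, smul_eq_mul]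
    ring
  rw [h1]
  linear_combination (-f.2) * hab

theorem partStep_nonneg {d : ℕ} (f : Aff d) (τ : Set (V d)) (h : ∀ v ∈ τ, 0 ≤ ev f v) (x : V d)
    (hx : x ∈ convexHull ℝ τ) : 0 ≤ ev f x := by
  have hconv : Convex ℝ {x : V d | 0 ≤ ev f x} := by
    intro x hx y hy a b ha hb hab
    simp only [Set.mem_ofPred_eq] at *
    rw [partStep_ev_convex f x y a b hab]
    positivity
  exact convexHull_min h hconv hx

theorem partStep_nonpos {d : ℕ} (f : Aff d) (τ : Set (V d)) (h : ∀ v ∈ τ, ev f v ≤ 0) (x : V d)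
    (hx : x ∈ convexHull ℝ τ) : ev f x ≤ 0 := by
  have hconv : Convex ℝ {x : V d | ev f x ≤ 0} := by
    intro x hx y hy a b ha hb hab
    simp only [Set.mem_ofPred_eq] at *
    rw [partStep_ev_convex f x y a b hab]
    nlinarith [mul_nonneg ha (neg_nonneg.2 hx), mul_nonneg hb (neg_nonneg.2 hy)]
  exact convexHull_min h hconv hx

/-- enumeration of a small nonempty finite set -/
theorem partStep_enum {α : Type} (τ : Finset α) (k : ℕ) (hne : τ.Nonempty) (hk : τ.card ≤ k) :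
    ∃ f : Fin k → α, ∀ v, v ∈ τ ↔ ∃ i, f i = v := by
  obtain ⟨v0, hv0⟩ := hne
  have e : τ ≃ Fin τ.card := τ.equivFin
  refine ⟨fun i => if h : i.1 < τ.card then (e.symm ⟨i.1, h⟩).1 else v0, fun v => ⟨fun hv => ?_, ?_⟩⟩
  · refine ⟨⟨(e ⟨v, hv⟩).1, lt_of_lt_of_le (e ⟨v, hv⟩).2 hk⟩, ?_⟩
    have h : (e ⟨v, hv⟩).1 < τ.card := (e ⟨v, hv⟩).2
    simp only [h, dif_pos]
    simp
  · rintro ⟨i, rfl⟩
    by_cases h : i.1 < τ.card
    · simp only [h, dif_pos]
      exact (e.symm ⟨i.1, h⟩).2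
    · simp only [h, dif_neg, not_false_iff]
      exact hv0

/-- the main case -/
theorem partStep_main {d : ℕ} (hd : 1 ≤ d) (ι : Type) (J : Finset ι) (c : ι → V d)
    (B H : Finset (Aff d)) (w : Aff d → ℝ) (R : Finset ι) (m k s : ℕ)
    (hB : B.card ≤ d + 1) (hb : Bornology.IsBounded {x : V d | ∀ f ∈ B, 0 ≤ ev f x})
    (hJB : ∀ j ∈ J, ∀ f ∈ B, 0 ≤ ev f (c j)) (hgp : GenPos (B ∪ H))
    (hH : H.card ≤ (J.card + 1) ^ (d + 1)) (hw : ∀ h ∈ H, 0 < w h) (hHne : H.Nonempty)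
    (hRJ : R ⊆ J) (hm : 1 ≤ m) (hk : 1 ≤ k) (hkm : k * m ≤ R.card)
    (hs : (2 ^ (d + 1) * (s + d + 2)) ^ d ≤ k) (Λ : ℝ)
    (hΛ : ((d : ℝ) * (d + 1)) * (Real.log (d + 3) + (d + 1) * Real.log (J.card + 1)) < Λ)
    (hΛs : Λ ≤ s) :
    ∃ P ⊆ R, P.card = m ∧
      ∑ h ∈ H.filter (fun h => ∃ j ∈ P, ∃ j' ∈ P, ev h (c j) < 0 ∧ 0 < ev h (c j')), w h ≤
        Λ / s * ∑ h ∈ H, w h := by
  obtain ⟨W, hWcard, hW⟩ := verts (B ∪ H)
  have hlog3 : 0 ≤ Real.log ((d : ℝ) + 3) := Real.log_nonneg (by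
    have : (0 : ℝ) ≤ d := Nat.cast_nonneg d
    linarith)
  have hlogJ : 0 ≤ Real.log ((J.card : ℝ) + 1) := Real.log_nonneg (by
    have : (0 : ℝ) ≤ J.card := Nat.cast_nonneg _
    linarith)
  have hΛ0 : 0 < Λ := lt_of_le_of_lt (by positivity) hΛ
  have hs0 : (0 : ℝ) < s := lt_of_lt_of_le hΛ0 hΛs
  set w0 := ∑ h ∈ H, w h with hw0
  have hw0pos : 0 < w0 := Finset.sum_pos hw hHne
  -- the family of ranges
  let RR : (Fin (d + 1) → V d) → Finset (Aff d) := fun f =>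
    H.filter (fun h => (∃ a, ev h (f a) < 0) ∧ ∃ b, 0 < ev h (f b))
  let 𝓡 : Finset (Finset (Aff d)) :=
    ((Fintype.piFinset fun _ : Fin (d + 1) => W).image RR).filter
      (fun A => Λ / s * w0 ≤ ∑ h ∈ A, w h)
  have hcard : (𝓡.card : ℝ) ≤ ((((d : ℝ) + 3) * ((J.card : ℝ) + 1) ^ (d + 1)) ^ d) ^ (d + 1) := by
    have h1 : 𝓡.card ≤ W.card ^ (d + 1) := by
      refine (Finset.card_filter_le _ _).trans (Finset.card_image_le.trans ?_)
      rw [Fintype.card_piFinset]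
      simp
    have h2 : (B ∪ H).card + 1 ≤ (d + 3) * (J.card + 1) ^ (d + 1) := by
      have h3 := Finset.card_union_le B H
      have h4 : 1 ≤ (J.card + 1) ^ (d + 1) := Nat.one_le_pow _ _ (by omega)
      nlinarith
    have h5 : 𝓡.card ≤ (((d + 3) * (J.card + 1) ^ (d + 1)) ^ d) ^ (d + 1) :=
      h1.trans (Nat.pow_le_pow_left (hWcard.trans (Nat.pow_le_pow_left h2 _)) _)
    exact_mod_cast h5
  have hlogR : Real.log (𝓡.card : ℝ) < Λ := by
    rcases Nat.eq_zero_or_pos 𝓡.card with h0 | hpos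
    · rw [h0, Nat.cast_zero, Real.log_zero]
      exact hΛ0
    · have hpos' : (0 : ℝ) < 𝓡.card := by exact_mod_cast hpos
      refine lt_of_le_of_lt (Real.log_le_log hpos' hcard) ?_
      rw [Real.log_pow, Real.log_pow, Real.log_mul (by positivity) (by positivity), Real.log_pow]
      refine lt_of_le_of_lt (le_of_eq ?_) hΛ
      push_cast
      ring
  have hε0 : 0 < Λ / s := by positivity
  have hε1 : Λ / s ≤ 1 := by
    rw [div_le_one hs0]
    exact hΛs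
  obtain ⟨N, hNH, hNs, hN⟩ := hitting H w (fun a ha => (hw a ha).le) hw0pos 𝓡
    (by
      intro A hA
      rw [Finset.mem_filter, Finset.mem_image] at hA
      obtain ⟨⟨f, -, rfl⟩, -⟩ := hA
      exact Finset.filter_subset _ _)
    (Λ / s) Λ hε0 hε1
    (by
      intro A hA
      rw [Finset.mem_filter] at hA
      exact hA.2)
    hlogR s (by
      rw [div_mul_cancel₀ _ hs0.ne'])
  -- triangulation
  have hLsub : B ∪ N ⊆ B ∪ H := Finset.union_subset_union_right hNH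
  obtain ⟨T, hTcard, hT1, hT2⟩ := triang B (B ∪ N) Finset.subset_union_left hb
    (partStep_genPos_mono hLsub hgp)
  have hTk : T.card ≤ k := by
    refine hTcard.trans (le_trans (Nat.pow_le_pow_left (Nat.mul_le_mul_left _ ?_) _) hs)
    have := Finset.card_union_le B N
    omega
  have hcover : ∀ j : ι, ∃ τ : Finset (V d), j ∈ R → τ ∈ T ∧ c j ∈ convexHull ℝ (τ : Set (V d)) := by
    intro j
    by_cases hj : j ∈ R
    · obtain ⟨τ, h1, h2⟩ := hT2 (c j) (hJB j (hRJ hj))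
      exact ⟨τ, fun _ => ⟨h1, h2⟩⟩
    · exact ⟨∅, fun h => absurd h hj⟩
  choose τ hτ using hcover
  have hRne : R.Nonempty := by
    rw [← Finset.card_pos]
    have : 0 < k * m := Nat.mul_pos hk hm
    omega
  have hTne : T.Nonempty := by
    obtain ⟨j, hj⟩ := hRne
    exact ⟨τ j, (hτ j hj).1⟩
  obtain ⟨σ, hσT, hσm⟩ := Finset.exists_le_card_fiber_of_mul_le_card_of_maps_to
    (f := τ) (fun a ha => (hτ a ha).1) hTne (n := m)
    ((Nat.mul_le_mul_right m hTk).trans hkm)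
  obtain ⟨P, hPsub, hPcard⟩ := Finset.exists_subset_card_eq hσm
  have hPR : P ⊆ R := hPsub.trans (Finset.filter_subset _ _)
  have hPσ : ∀ j ∈ P, c j ∈ convexHull ℝ (σ : Set (V d)) := by
    intro j hj
    have := hPsub hj
    rw [Finset.mem_filter] at this
    have h2 := (hτ j this.1).2
    rwa [this.2] at h2
  refine ⟨P, hPR, hPcard, ?_⟩
  obtain ⟨hσc, hσv, hσs⟩ := hT1 σ hσT
  have hσne : σ.Nonempty := by
    have hPne : P.Nonempty := by
      rw [← Finset.card_pos]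
      omega
    obtain ⟨j, hj⟩ := hPne
    by_contra hcon
    rw [Finset.not_nonempty_iff_eq_empty] at hcon
    have := hPσ j hj
    rw [hcon] at this
    simp at this
  obtain ⟨f, hf⟩ := partStep_enum σ (d + 1) hσne hσc
  have hsubset : H.filter (fun h => ∃ j ∈ P, ∃ j' ∈ P, ev h (c j) < 0 ∧ 0 < ev h (c j')) ⊆ RR f := by
    intro h hh
    rw [Finset.mem_filter] at hh
    obtain ⟨hhH, j, hj, j', hj', h1, h2⟩ := hh
    rw [Finset.mem_filter]
    refine ⟨hhH, ?_, ?_⟩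
    · by_contra hcon
      push Not at hcon
      have := partStep_nonneg h (σ : Set (V d)) (fun v hv => by
        obtain ⟨i, rfl⟩ := (hf v).1 hv
        exact hcon i) (c j) (hPσ j hj)
      linarith
    · by_contra hcon
      push Not at hcon
      have := partStep_nonpos h (σ : Set (V d)) (fun v hv => by
        obtain ⟨i, rfl⟩ := (hf v).1 hv
        exact hcon i) (c j') (hPσ j' hj')
      linarith
  have hle1 : ∑ h ∈ H.filter (fun h => ∃ j ∈ P, ∃ j' ∈ P, ev h (c j) < 0 ∧ 0 < ev h (c j')), w h ≤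
      ∑ h ∈ RR f, w h :=
    Finset.sum_le_sum_of_subset_of_nonneg hsubset fun h hh _ =>
      (hw h (Finset.mem_filter.1 hh).1).le
  refine hle1.trans ?_
  by_contra hcon
  push Not at hcon
  have hmem : RR f ∈ 𝓡 := by
    rw [Finset.mem_filter, Finset.mem_image]
    refine ⟨⟨f, ?_, rfl⟩, hcon.le⟩
    rw [Fintype.mem_piFinset]
    intro i
    apply hW
    exact partStep_isVert_mono hLsub (hσv (f i) ((hf (f i)).2 ⟨i, rfl⟩))
  obtain ⟨h, hh⟩ := hN _ hmem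
  obtain ⟨hhN, hhA⟩ := (@Finset.mem_inter _ (fun a b => Classical.propDecidable (a = b)) _ _ _).1 hh
  obtain ⟨-, ⟨a, ha⟩, ⟨b, hb'⟩⟩ := Finset.mem_filter.1 hhA
  rcases hσs h (Finset.mem_union_right _ hhN) with h1 | h1
  · have := h1 (f a) ((hf _).2 ⟨a, rfl⟩)
    linarith
  · have := h1 (f b) ((hf _).2 ⟨b, rfl⟩)
    linarith

/-- P8a one step of the construction of the partition -/
theorem part_step {d : ℕ} (hd : 1 ≤ d) : ∃ C : ℝ, 1 ≤ C ∧
    ∀ (ι : Type) (J : Finset ι) (c : ι → V d) (B H : Finset (Aff d)) (w : Aff d → ℝ)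
      (R : Finset ι) (m k : ℕ),
    B.card ≤ d + 1 → Bornology.IsBounded {x : V d | ∀ f ∈ B, 0 ≤ ev f x} →
    (∀ j ∈ J, ∀ f ∈ B, 0 ≤ ev f (c j)) → GenPos (B ∪ H) → H.card ≤ (J.card + 1) ^ (d + 1) →
    (∀ h ∈ H, 0 < w h) → R ⊆ J → 1 ≤ m → 1 ≤ k → k * m ≤ R.card →
    ∃ P ⊆ R, P.card = m ∧
      ∑ h ∈ H.filter (fun h => ∃ j ∈ P, ∃ j' ∈ P, ev h (c j) < 0 ∧ 0 < ev h (c j')), w h ≤
        C * (1 + Real.log (J.card + 1)) * (k : ℝ) ^ (-(1 / (d : ℝ))) * ∑ h ∈ H, w h := by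
  have hlog3 : 0 ≤ Real.log ((d : ℝ) + 3) := Real.log_nonneg (by
    have : (0 : ℝ) ≤ d := Nat.cast_nonneg d
    linarith)
  have hd0 : (0 : ℝ) < d := by exact_mod_cast hd
  set Cd : ℝ := (d : ℝ) * (d + 1) * (Real.log (d + 3) + (d + 1)) + 1 with hCd
  have hCd1 : 1 ≤ Cd := by
    rw [hCd]
    have : 0 ≤ (d : ℝ) * (d + 1) * (Real.log (d + 3) + (d + 1)) := by positivity
    linarith
  set K1 : ℝ := 2 ^ (d + 2) * (d + 3) with hK1
  have hK1pos : 1 ≤ K1 := by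
    rw [hK1]
    have h1 : (1 : ℝ) ≤ 2 ^ (d + 2) := one_le_pow₀ (by norm_num)
    nlinarith
  refine ⟨max (Cd * 2 ^ (d + 2)) K1, le_max_of_le_right hK1pos, ?_⟩
  set C := max (Cd * 2 ^ (d + 2)) K1 with hC
  intro ι J c B H w R m k hB hb hJB hgp hH hw hRJ hm hk hkm
  have hlogJ : 0 ≤ Real.log ((J.card : ℝ) + 1) := Real.log_nonneg (by
    have : (0 : ℝ) ≤ J.card := Nat.cast_nonneg _
    linarith)
  have hkR : (1 : ℝ) ≤ k := by exact_mod_cast hk
  have hk0 : (0 : ℝ) < k := by linarith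
  have hmR : m ≤ R.card := le_trans (by nlinarith) hkm
  set X : ℝ := (k : ℝ) ^ (1 / (d : ℝ)) with hX
  have hX0 : 0 < X := Real.rpow_pos_of_pos hk0 _
  have hXinv : (k : ℝ) ^ (-(1 / (d : ℝ))) = X⁻¹ := Real.rpow_neg hk0.le _
  have hXd : X ^ d = k := by
    rw [hX, one_div]
    exact Real.rpow_inv_natCast_pow hk0.le (by omega)
  rw [hXinv]
  have hWnn : 0 ≤ ∑ h ∈ H, w h := Finset.sum_nonneg fun h hh => (hw h hh).le
  -- the trivial case
  have htriv : 1 ≤ C * (1 + Real.log (J.card + 1)) * X⁻¹ →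
      ∃ P ⊆ R, P.card = m ∧
      ∑ h ∈ H.filter (fun h => ∃ j ∈ P, ∃ j' ∈ P, ev h (c j) < 0 ∧ 0 < ev h (c j')), w h ≤
        C * (1 + Real.log (J.card + 1)) * X⁻¹ * ∑ h ∈ H, w h := by
    intro h1
    obtain ⟨P, hPR, hPc⟩ := Finset.exists_subset_card_eq hmR
    refine ⟨P, hPR, hPc, ?_⟩
    calc ∑ h ∈ H.filter (fun h => ∃ j ∈ P, ∃ j' ∈ P, ev h (c j) < 0 ∧ 0 < ev h (c j')), w h
        ≤ ∑ h ∈ H, w h := Finset.sum_le_sum_of_subset_of_nonneg (Finset.filter_subset _ _)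
          fun h hh _ => (hw h hh).le
      _ ≤ _ := by nlinarith
  by_cases hcase1 : X < K1
  · apply htriv
    have h1 : K1 ≤ C := le_max_right _ _
    have h2 : 1 ≤ K1 * X⁻¹ := by
      rw [← div_eq_mul_inv, one_le_div hX0]
      exact hcase1.le
    have h3 : 0 ≤ X⁻¹ := by positivity
    have h4 : K1 * X⁻¹ ≤ C * X⁻¹ := mul_le_mul_of_nonneg_right h1 h3
    have h5 : 0 ≤ C * X⁻¹ := by linarith
    nlinarith
  push Not at hcase1
  -- the number s
  set s : ℕ := ⌊X / 2 ^ (d + 1) - (d + 2)⌋₊ with hsdef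
  have h2p : (0 : ℝ) < 2 ^ (d + 1) := by positivity
  have h2q : (2 : ℝ) ^ (d + 2) = 2 * 2 ^ (d + 1) := by
    rw [pow_succ]; ring
  have hXbig : (d : ℝ) + 3 ≤ X / 2 ^ (d + 2) := by
    rw [le_div_iff₀ (by positivity)]
    rw [hK1] at hcase1
    linarith
  have hXhalf : X / 2 ^ (d + 1) = 2 * (X / 2 ^ (d + 2)) := by
    rw [h2q]
    field_simp
  have hsle : (s : ℝ) ≤ X / 2 ^ (d + 1) - (d + 2) :=
    Nat.floor_le (by rw [hXhalf]; linarith)
  have hsge : X / 2 ^ (d + 2) ≤ s := by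
    have := Nat.lt_floor_add_one (X / 2 ^ (d + 1) - (d + 2))
    rw [← hsdef] at this
    rw [hXhalf] at this
    linarith
  have hspow : (2 ^ (d + 1) * (s + d + 2)) ^ d ≤ k := by
    have h1 : (2 : ℝ) ^ (d + 1) * (s + d + 2) ≤ X := by
      have := mul_le_mul_of_nonneg_left hsle h2p.le
      have h3 : (2 : ℝ) ^ (d + 1) * (X / 2 ^ (d + 1)) = X := by field_simp
      nlinarith
    have h2 : ((2 : ℝ) ^ (d + 1) * (s + d + 2)) ^ d ≤ k := by
      rw [← hXd]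
      exact pow_le_pow_left₀ (by positivity) h1 d
    exact_mod_cast h2
  set Λ : ℝ := Cd * (1 + Real.log (J.card + 1)) with hΛ
  have hΛ1 : ((d : ℝ) * (d + 1)) * (Real.log (d + 3) + (d + 1) * Real.log (J.card + 1)) < Λ := by
    rw [hΛ, hCd]
    have h1 : 0 ≤ (d : ℝ) * (d + 1) * Real.log (d + 3) * Real.log (J.card + 1) := by positivity
    have h2 : 0 ≤ (d : ℝ) * (d + 1) * (d + 1) := by positivity
    nlinarith
  have hX2 : 0 < X / 2 ^ (d + 2) := by positivity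
  by_cases hcase2 : (s : ℝ) < Λ
  · apply htriv
    have h1 : Cd * 2 ^ (d + 2) ≤ C := le_max_left _ _
    have h2 : X / 2 ^ (d + 2) ≤ Λ := hsge.trans hcase2.le
    have h3 : 1 ≤ Cd * 2 ^ (d + 2) * (1 + Real.log (J.card + 1)) * X⁻¹ := by
      rw [← div_eq_mul_inv, one_le_div hX0]
      rw [div_le_iff₀ (by positivity)] at h2
      rw [hΛ] at h2
      linarith
    refine h3.trans ?_
    gcongr
  push Not at hcase2
  rcases H.eq_empty_or_nonempty with hHe | hHne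
  · obtain ⟨P, hPR, hPc⟩ := Finset.exists_subset_card_eq hmR
    refine ⟨P, hPR, hPc, ?_⟩
    rw [hHe]
    simp
  obtain ⟨P, hPR, hPc, hP⟩ := partStep_main hd ι J c B H w R m k s hB hb hJB hgp hH hw hHne hRJ hm
    hk hkm hspow Λ hΛ1 hcase2
  refine ⟨P, hPR, hPc, hP.trans ?_⟩
  apply mul_le_mul_of_nonneg_right _ hWnn
  have hs0 : (0 : ℝ) < s := lt_of_lt_of_le hX2 hsge
  have h1 : Cd * 2 ^ (d + 2) ≤ C := le_max_left _ _
  calc Λ / s ≤ Λ / (X / 2 ^ (d + 2)) := by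
        apply div_le_div_of_nonneg_left _ hX2 hsge
        rw [hΛ]
        positivity
    _ = Cd * 2 ^ (d + 2) * (1 + Real.log (J.card + 1)) * X⁻¹ := by
        rw [hΛ]
        field_simp
    _ ≤ _ := by gcongr

end

end MPa20b56
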