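import Pool.Agent.Lib_MP_a20b56_co.Generic
import Pool.Agent.Lib_MP_a20b56_co.PartStep

namespace MPa20b56

open scoped BigOperators Classical
open MeasureTheory

noncomputable section

/-- the functional takes both strict signs on the index set -/
def PCr {d : ℕ} {ι : Type} (c : ι → V d) (h : Aff d) (S : Finset ι) : Prop :=
  ∃ j ∈ S, ∃ j' ∈ S, ev h (c j) < 0 ∧ 0 < ev h (c j')

/-- number of crossed parts among the first `i` -/
def pcnt {d : ℕ} {ι : Type} (c : ι → V d) (P : ℕ → Finset ι) (i : ℕ) (h : Aff d) : ℕ :=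
  ((Finset.range i).filter (fun a => PCr c h (P a))).card

theorem pcnt_congr {d : ℕ} {ι : Type} (c : ι → V d) (P P' : ℕ → Finset ι) (i : ℕ) (h : Aff d)
    (hP : ∀ a < i, P a = P' a) : pcnt c P i h = pcnt c P' i h := by
  unfold pcnt
  congr 1
  apply Finset.filter_congr
  intro a ha
  rw [Finset.mem_range] at ha
  rw [hP a ha]

theorem pcnt_succ {d : ℕ} {ι : Type} (c : ι → V d) (P : ℕ → Finset ι) (i : ℕ) (h : Aff d) :
    pcnt c P (i + 1) h = pcnt c P i h + if PCr c h (P i) then 1 else 0 := by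
  unfold pcnt
  rw [Finset.range_add_one, Finset.filter_insert]
  split_ifs with h1
  · rw [Finset.card_insert_of_notMem]
    simp
  · rw [add_zero]

theorem partition_iter {d : ℕ} (C : ℝ) (_hC : 1 ≤ C)
    (hstep : ∀ (ι : Type) (J : Finset ι) (c : ι → V d) (B H : Finset (Aff d)) (w : Aff d → ℝ)
      (R : Finset ι) (m k : ℕ),
    B.card ≤ d + 1 → Bornology.IsBounded {x : V d | ∀ f ∈ B, 0 ≤ ev f x} →
    (∀ j ∈ J, ∀ f ∈ B, 0 ≤ ev f (c j)) → GenPos (B ∪ H) → H.card ≤ (J.card + 1) ^ (d + 1) →
    (∀ h ∈ H, 0 < w h) → R ⊆ J → 1 ≤ m → 1 ≤ k → k * m ≤ R.card →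
    ∃ P ⊆ R, P.card = m ∧
      ∑ h ∈ H.filter (fun h => ∃ j ∈ P, ∃ j' ∈ P, ev h (c j) < 0 ∧ 0 < ev h (c j')), w h ≤
        C * (1 + Real.log (J.card + 1)) * (k : ℝ) ^ (-(1 / (d : ℝ))) * ∑ h ∈ H, w h)
    (ι : Type) (J : Finset ι) (c : ι → V d) (B H : Finset (Aff d))
    (hB : B.card ≤ d + 1) (hb : Bornology.IsBounded {x : V d | ∀ f ∈ B, 0 ≤ ev f x})
    (hJB : ∀ j ∈ J, ∀ f ∈ B, 0 ≤ ev f (c j)) (hgp : GenPos (B ∪ H))
    (hH : H.card ≤ (J.card + 1) ^ (d + 1)) (m q : ℕ) (hm : 1 ≤ m) (hq : q * m ≤ J.card) (i : ℕ)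
    (hi : i ≤ q) :
    ∃ P : ℕ → Finset ι, (∀ a < i, P a ⊆ J ∧ (P a).card = m) ∧
      (∀ a < i, ∀ b < i, a ≠ b → Disjoint (P a) (P b)) ∧
      ∑ h ∈ H, (2 : ℝ) ^ pcnt c P i h ≤ H.card *
        Real.exp (∑ a ∈ Finset.range i,
          C * (1 + Real.log (J.card + 1)) * ((q - a : ℕ) : ℝ) ^ (-(1 / (d : ℝ)))) := by
  induction i with
  | zero =>
    refine ⟨fun _ => ∅, by simp, by simp, ?_⟩
    simp [pcnt]
  | succ i ih =>
    obtain ⟨P, hP1, hP2, hP3⟩ := ih (by omega)
    set U : Finset ι := (Finset.range i).biUnion P with hU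
    have hUJ : U ⊆ J := by
      rw [hU, Finset.biUnion_subset]
      intro a ha
      exact (hP1 a (Finset.mem_range.1 ha)).1
    have hUc : U.card = i * m := by
      rw [hU, Finset.card_biUnion]
      · rw [Finset.sum_congr rfl (fun a ha => (hP1 a (Finset.mem_range.1 ha)).2)]
        simp
      · intro a ha b hb hab
        exact hP2 a (Finset.mem_range.1 ha) b (Finset.mem_range.1 hb) hab
    have hRc : (J \ U).card = J.card - i * m := by
      rw [Finset.card_sdiff_of_subset hUJ, hUc]
    have hk : 1 ≤ q - i := by omega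
    have hkm : (q - i) * m ≤ (J \ U).card := by
      rw [hRc, Nat.sub_mul]
      omega
    obtain ⟨P', hP'R, hP'c, hP'w⟩ := hstep ι J c B H (fun h => (2 : ℝ) ^ pcnt c P i h) (J \ U) m
      (q - i) hB hb hJB hgp hH (fun h _ => by positivity) Finset.sdiff_subset hm hk hkm
    refine ⟨fun a => if a = i then P' else P a, ?_, ?_, ?_⟩
    · intro a ha
      by_cases hai : a = i
      · simp only [hai, if_true]
        exact ⟨hP'R.trans Finset.sdiff_subset, hP'c⟩
      · simp only [hai, if_false]
        exact hP1 a (by omega)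
    · have key : ∀ a < i, Disjoint (P a) P' := by
        intro a ha
        rw [Finset.disjoint_left]
        intro x hx hx'
        have h1 := hP'R hx'
        rw [Finset.mem_sdiff] at h1
        exact h1.2 (Finset.mem_biUnion.2 ⟨a, Finset.mem_range.2 ha, hx⟩)
      intro a ha b hb hab
      by_cases hai : a = i
      · by_cases hbi : b = i
        · omega
        · simp only [hai, hbi, if_true, if_false]
          exact (key b (by omega)).symm
      · by_cases hbi : b = i
        · simp only [hai, hbi, if_true, if_false]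
          exact key a (by omega)
        · simp only [hai, hbi, if_false]
          exact hP2 a (by omega) b (by omega) hab
    · have e1 : ∀ h : Aff d, (2 : ℝ) ^ pcnt c (fun a => if a = i then P' else P a) (i + 1) h =
          (2 : ℝ) ^ pcnt c P i h + if PCr c h P' then (2 : ℝ) ^ pcnt c P i h else 0 := by
        intro h
        rw [pcnt_succ, pcnt_congr c _ P i h (fun a ha => by
          simp only [show a ≠ i by omega, if_false])]
        simp only [if_true]
        split_ifs with h1
        · rw [pow_succ]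
          ring
        · rw [add_zero, add_zero]
      simp_rw [e1]
      rw [Finset.sum_add_distrib, ← Finset.sum_filter, Finset.sum_range_succ, Real.exp_add]
      set A := C * (1 + Real.log (J.card + 1)) * ((q - i : ℕ) : ℝ) ^ (-(1 / (d : ℝ))) with hA
      set W := ∑ h ∈ H, (2 : ℝ) ^ pcnt c P i h with hW
      have hW0 : 0 ≤ W := Finset.sum_nonneg fun h _ => by positivity
      have h3 : ∑ h ∈ H.filter (fun h => PCr c h P'), (2 : ℝ) ^ pcnt c P i h ≤ A * W := by
        refine le_trans (le_of_eq (Finset.sum_congr ?_ fun _ _ => rfl)) hP'w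
        ext h
        simp only [Finset.mem_filter, PCr]
      have h4 : 1 + A ≤ Real.exp A := by
        have := Real.add_one_le_exp A
        linarith
      calc W + ∑ h ∈ H.filter (fun h => PCr c h P'), (2 : ℝ) ^ pcnt c P i h ≤ W + A * W := by
            linarith
        _ = W * (1 + A) := by ring
        _ ≤ W * Real.exp A := mul_le_mul_of_nonneg_left h4 hW0
        _ ≤ _ := by
            rw [← mul_assoc]
            exact mul_le_mul_of_nonneg_right hP3 (Real.exp_pos A).le

theorem partition_sum {d : ℕ} (hd : 1 ≤ d) (q r : ℕ) (hq : q ≤ r) (hr : 1 ≤ r) :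
    ∑ a ∈ Finset.range q, ((q - a : ℕ) : ℝ) ^ (-(1 / (d : ℝ))) ≤
      (1 + Real.log r) * (r : ℝ) ^ (1 - 1 / (d : ℝ)) := by
  have hd0 : (1 : ℝ) ≤ d := by exact_mod_cast hd
  have hexp : 0 ≤ 1 - 1 / (d : ℝ) := by
    rw [sub_nonneg, div_le_one (by linarith)]
    exact hd0
  have h1 : ∑ a ∈ Finset.range q, ((q - a : ℕ) : ℝ) ^ (-(1 / (d : ℝ))) =
      ∑ a ∈ Finset.range q, ((a + 1 : ℕ) : ℝ) ^ (-(1 / (d : ℝ))) := by
    rw [← Finset.sum_range_reflect]
    refine Finset.sum_congr rfl fun a ha => ?_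
    rw [Finset.mem_range] at ha
    congr 2
    omega
  rw [h1]
  have h2 : ∀ a ∈ Finset.range q, ((a + 1 : ℕ) : ℝ) ^ (-(1 / (d : ℝ))) ≤
      (r : ℝ) ^ (1 - 1 / (d : ℝ)) * ((a : ℝ) + 1)⁻¹ := by
    intro a ha
    rw [Finset.mem_range] at ha
    have ha0 : (0 : ℝ) < ((a + 1 : ℕ) : ℝ) := by positivity
    have e1 : ((a + 1 : ℕ) : ℝ) ^ (-(1 / (d : ℝ))) =
        ((a + 1 : ℕ) : ℝ) ^ (1 - 1 / (d : ℝ)) * (((a + 1 : ℕ) : ℝ))⁻¹ := by
      rw [← Real.rpow_neg_one (((a + 1 : ℕ) : ℝ)), ← Real.rpow_add ha0]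
      congr 1
      ring
    rw [e1]
    have h3 : ((a + 1 : ℕ) : ℝ) ≤ r := by
      have : a + 1 ≤ r := by omega
      exact_mod_cast this
    have h4 := Real.rpow_le_rpow ha0.le h3 hexp
    have h5 : (((a + 1 : ℕ) : ℝ))⁻¹ = ((a : ℝ) + 1)⁻¹ := by push_cast; rfl
    rw [h5]
    exact mul_le_mul_of_nonneg_right h4 (by positivity)
  refine (Finset.sum_le_sum h2).trans ?_
  rw [← Finset.mul_sum, mul_comm]
  apply mul_le_mul_of_nonneg_right _ (by positivity)
  have h3 := harmonic_le_one_add_log q
  have h4 : ((harmonic q : ℚ) : ℝ) = ∑ i ∈ Finset.range q, ((i : ℝ) + 1)⁻¹ := by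
    unfold harmonic
    push_cast
    rfl
  rw [h4] at h3
  refine h3.trans ?_
  rcases Nat.eq_zero_or_pos q with h0 | hpos
  · rw [h0]
    have : 0 ≤ Real.log r := Real.log_natCast_nonneg r
    simp
    exact this
  · have h5 : (0 : ℝ) < q := by exact_mod_cast hpos
    have h6 : (q : ℝ) ≤ r := by exact_mod_cast hq
    have := Real.log_le_log h5 h6
    linarith

/-- P8 simplicial partition theorem, weak form -/
theorem partition {d : ℕ} (hd : 1 ≤ d) : ∃ C : ℝ, 0 < C ∧
    ∀ (ι : Type) (J : Finset ι) (c : ι → V d) (r : ℕ), 1 ≤ r → r ≤ J.card →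
    ∃ p : ι → Fin r,
      (∀ i, ((J.filter (fun j => p j = i)).card : ℝ) ≤ 2 * J.card / r) ∧
      ∀ f : Aff d, (((Finset.univ : Finset (Fin r)).filter (fun i =>
        ∃ j ∈ J, ∃ j' ∈ J, p j = i ∧ p j' = i ∧ ev f (c j) < 0 ∧ 0 < ev f (c j'))).card : ℝ)
        ≤ C * (1 + Real.log (J.card + 1)) ^ 2 * (r : ℝ) ^ (1 - 1 / (d : ℝ)) := by
  obtain ⟨C, hC, hstep⟩ := part_step hd
  have hlog2 : 0 < Real.log 2 := Real.log_pos (by norm_num)
  refine ⟨1 + ((d + 1) + C) / Real.log 2, by positivity, ?_⟩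
  intro ι J c r hr hrJ
  obtain ⟨B, H, hB, hb, hJB, hgp, hH, hrep⟩ := generic_rep hd J c
  set n := J.card with hn
  set m := (n + r - 1) / r with hmdef
  have hn1 : 1 ≤ n := hr.trans hrJ
  have hmr : m * r ≤ n + r - 1 := Nat.div_mul_le_self _ _
  have hmr2 : n ≤ r * m := by
    have h1 : n + r - 1 < r * (m + 1) := by
      rw [hmdef]
      exact Nat.lt_mul_div_succ _ (by omega)
    have h2 : r * (m + 1) = r * m + r := by ring
    omega
  have hm1 : 1 ≤ m := by
    rw [hmdef]
    apply (Nat.one_le_div_iff (by omega)).2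
    omega
  set q := n / m with hqdef
  have hqm : q * m ≤ n := Nat.div_mul_le_self _ _
  have hqr : q ≤ r := Nat.div_le_of_le_mul (by rw [mul_comm]; exact hmr2)
  have hqlt : n < (q + 1) * m := by
    rw [hqdef, mul_comm]
    exact Nat.lt_mul_div_succ _ (by omega)
  obtain ⟨P, hP1, hP2, hP3⟩ := partition_iter C hC hstep ι J c B H hB hb hJB hgp hH m q hm1 hqm q
    le_rfl
  set U : Finset ι := (Finset.range q).biUnion P with hU
  have hUJ : U ⊆ J := by
    rw [hU, Finset.biUnion_subset]
    intro a ha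
    exact (hP1 a (Finset.mem_range.1 ha)).1
  have hUc : U.card = q * m := by
    rw [hU, Finset.card_biUnion]
    · rw [Finset.sum_congr rfl (fun a ha => (hP1 a (Finset.mem_range.1 ha)).2)]
      simp
    · intro a ha b hb hab
      exact hP2 a (Finset.mem_range.1 ha) b (Finset.mem_range.1 hb) hab
  have hRc : (J \ U).card = n - q * m := by
    rw [Finset.card_sdiff_of_subset hUJ, hUc]
  -- the colouring
  let p : ι → Fin r := fun j => if h : ∃ a, a < q ∧ j ∈ P a then
    ⟨Nat.find h, lt_of_lt_of_le (Nat.find_spec h).1 hqr⟩ else ⟨min q (r - 1), by omega⟩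
  let Q : ℕ → Finset ι := fun i => if i < q then P i else J \ U
  have hpQ : ∀ j ∈ J, j ∈ Q (p j).1 := by
    intro j hj
    by_cases h : ∃ a, a < q ∧ j ∈ P a
    · have e1 : (p j).1 = Nat.find h := by
        simp only [p]
        rw [dif_pos h]
      rw [e1]
      simp only [Q]
      rw [if_pos (Nat.find_spec h).1]
      exact (Nat.find_spec h).2
    · have e1 : (p j).1 = min q (r - 1) := by
        simp only [p]
        rw [dif_neg h]
      have hjR : j ∈ J \ U := by
        rw [Finset.mem_sdiff]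
        refine ⟨hj, fun hjU => h ?_⟩
        obtain ⟨a, ha, hja⟩ := Finset.mem_biUnion.1 hjU
        exact ⟨a, Finset.mem_range.1 ha, hja⟩
      have hpos : 0 < (J \ U).card := Finset.card_pos.2 ⟨j, hjR⟩
      have hqr' : q < r := by
        rcases Nat.lt_or_ge q r with h1 | h1
        · exact h1
        · exfalso
          have h2 : q = r := le_antisymm hqr h1
          rw [hRc, h2] at hpos
          omega
      have e2 : min q (r - 1) = q := by omega
      rw [e1, e2]
      simp only [Q]
      rw [if_neg (lt_irrefl q)]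
      exact hjR
  have hQc : ∀ i, (Q i).card ≤ m := by
    intro i
    simp only [Q]
    split_ifs with h
    · exact (hP1 i h).2.le
    · rw [hRc]
      have : (q + 1) * m = q * m + m := by ring
      omega
  have hr0 : (0 : ℝ) < r := by exact_mod_cast hr
  refine ⟨p, ?_, ?_⟩
  · intro i
    have h1 : J.filter (fun j => p j = i) ⊆ Q i.1 := by
      intro j hj
      rw [Finset.mem_filter] at hj
      have := hpQ j hj.1
      rwa [hj.2] at this
    have h2 : (J.filter (fun j => p j = i)).card ≤ m := (Finset.card_le_card h1).trans (hQc _)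
    rw [le_div_iff₀ hr0]
    have h3 : (J.filter (fun j => p j = i)).card * r ≤ 2 * n := by
      have h4 : (J.filter (fun j => p j = i)).card * r ≤ m * r := Nat.mul_le_mul_right r h2
      omega
    exact_mod_cast h3
  · intro f
    obtain ⟨h, hhH, hhf⟩ := hrep f
    have hcount : ((Finset.univ : Finset (Fin r)).filter (fun i =>
        ∃ j ∈ J, ∃ j' ∈ J, p j = i ∧ p j' = i ∧ ev f (c j) < 0 ∧ 0 < ev f (c j'))).card ≤
        pcnt c P q h + 1 := by
      have h1 : (((Finset.univ : Finset (Fin r)).filter (fun i =>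
        ∃ j ∈ J, ∃ j' ∈ J, p j = i ∧ p j' = i ∧ ev f (c j) < 0 ∧ 0 < ev f (c j'))).image
          (fun i : Fin r => i.1)) ⊆ insert q ((Finset.range q).filter (fun a => PCr c h (P a))) := by
        intro a ha
        rw [Finset.mem_image] at ha
        obtain ⟨i, hi, rfl⟩ := ha
        rw [Finset.mem_filter] at hi
        obtain ⟨-, j, hj, j', hj', hpj, hpj', hf1, hf2⟩ := hi
        have hQ1 := hpQ j hj
        have hQ2 := hpQ j' hj'
        rw [hpj] at hQ1
        rw [hpj'] at hQ2
        simp only [Q] at hQ1 hQ2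
        rw [Finset.mem_insert]
        by_cases hlt : i.1 < q
        · right
          rw [if_pos hlt] at hQ1 hQ2
          rw [Finset.mem_filter, Finset.mem_range]
          exact ⟨hlt, j, hQ1, j', hQ2, (hhf j hj).1 hf1, (hhf j' hj').2 hf2⟩
        · left
          -- index of the remainder
          by_contra hne
          rw [if_neg hlt] at hQ1
          have hnot : ¬ ∃ a, a < q ∧ j ∈ P a := by
            rintro ⟨a, ha, hja⟩
            rw [Finset.mem_sdiff] at hQ1
            exact hQ1.2 (Finset.mem_biUnion.2 ⟨a, Finset.mem_range.2 ha, hja⟩)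
          have e1 : (p j).1 = min q (r - 1) := by
            simp only [p]
            rw [dif_neg hnot]
          rw [hpj] at e1
          omega
      have h2 := Finset.card_le_card h1
      rw [Finset.card_image_of_injective _ Fin.val_injective] at h2
      refine h2.trans ((Finset.card_insert_le _ _).trans ?_)
      exact le_rfl
    have hL0 : 0 ≤ Real.log ((n : ℝ) + 1) := Real.log_nonneg (by
      have : (0 : ℝ) ≤ n := Nat.cast_nonneg n
      linarith)
    set L := Real.log ((n : ℝ) + 1) with hL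
    set X := (r : ℝ) ^ (1 - 1 / (d : ℝ)) with hX
    have hd0 : (1 : ℝ) ≤ d := by exact_mod_cast hd
    have hX1 : 1 ≤ X := by
      apply Real.one_le_rpow
      · exact_mod_cast hr
      · rw [sub_nonneg, div_le_one (by linarith)]
        exact hd0
    -- the weight bound
    have hw1 : (2 : ℝ) ^ pcnt c P q h ≤ ∑ h ∈ H, (2 : ℝ) ^ pcnt c P q h :=
      Finset.single_le_sum (f := fun h => (2 : ℝ) ^ pcnt c P q h) (fun h _ => by positivity) hhH
    have hHpos : 0 < (H.card : ℝ) := by
      have : 0 < H.card := Finset.card_pos.2 ⟨h, hhH⟩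
      exact_mod_cast this
    have hlogH : Real.log H.card ≤ (d + 1) * L := by
      have h1 : (H.card : ℝ) ≤ ((n : ℝ) + 1) ^ (d + 1) := by exact_mod_cast hH
      refine (Real.log_le_log hHpos h1).trans (le_of_eq ?_)
      rw [Real.log_pow]
      push_cast
      rfl
    have hS := partition_sum hd q r hqr hr
    rw [← hX] at hS
    have hlogr : Real.log r ≤ L := by
      apply Real.log_le_log hr0
      have : (r : ℝ) ≤ n := by exact_mod_cast hrJ
      linarith
    have hcr : (pcnt c P q h : ℝ) * Real.log 2 ≤ (d + 1) * L + C * (1 + L) ^ 2 * X := by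
      have h1 := Real.log_le_log (by positivity) (hw1.trans hP3)
      rw [Real.log_pow, Real.log_mul hHpos.ne' (Real.exp_pos _).ne', Real.log_exp,
        ← Finset.mul_sum] at h1
      have h2 : C * (1 + L) * ∑ a ∈ Finset.range q, ((q - a : ℕ) : ℝ) ^ (-(1 / (d : ℝ))) ≤
          C * (1 + L) ^ 2 * X := by
        calc _ ≤ C * (1 + L) * ((1 + Real.log r) * X) := by
              apply mul_le_mul_of_nonneg_left hS (by positivity)
          _ ≤ C * (1 + L) * ((1 + L) * X) := by
              apply mul_le_mul_of_nonneg_left _ (by positivity)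
              apply mul_le_mul_of_nonneg_right _ (by linarith)
              linarith
          _ = _ := by ring
      linarith
    have hfin : (pcnt c P q h : ℝ) + 1 ≤ (1 + ((d + 1) + C) / Real.log 2) * (1 + L) ^ 2 * X := by
      have h1 : 1 ≤ (1 + L) ^ 2 * X := by nlinarith [sq_nonneg L]
      have h2 : L ≤ (1 + L) ^ 2 * X := by nlinarith [sq_nonneg L]
      have h3 : (d + 1) * L + C * (1 + L) ^ 2 * X ≤ ((d + 1) + C) * ((1 + L) ^ 2 * X) := by
        nlinarith
      have h4 : (pcnt c P q h : ℝ) ≤ ((d + 1) + C) * ((1 + L) ^ 2 * X) / Real.log 2 := by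
        rw [le_div_iff₀ hlog2]
        linarith
      have h5 : ((d + 1) + C) * ((1 + L) ^ 2 * X) / Real.log 2 =
          ((d + 1) + C) / Real.log 2 * ((1 + L) ^ 2 * X) := by ring
      rw [h5] at h4
      nlinarith
    refine le_trans ?_ hfin
    exact_mod_cast hcount

end

end MPa20b56
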