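import Pool.Agent.Lib_MP_a20b56_co.Defs

namespace MPa20b56

open scoped BigOperators Classical
open MeasureTheory

noncomputable section

/-- P10a maximal determinant sandwich -/
theorem sandwich {d : ℕ} (K : Set (V d)) (hconv : Convex ℝ K) (hsymm : ∀ y ∈ K, -y ∈ K)
    (hcomp : IsCompact K) (w₀ : Fin d → V d) (hw₀ : ∀ i, w₀ i ∈ K)
    (hdet : Matrix.det (Matrix.of w₀) ≠ 0) :
    ∃ w : Fin d → V d, (∀ i, w i ∈ K) ∧ Matrix.det (Matrix.of w) ≠ 0 ∧
      ∀ y ∈ K, ∃ t : Fin d → ℝ, (∀ i, |t i| ≤ 1) ∧ y = ∑ i, t i • w i := by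
  have hP : IsCompact (Set.pi Set.univ fun _ : Fin d => K) := isCompact_univ_pi fun _ => hcomp
  have hcont : Continuous fun w : Fin d → V d => |Matrix.det (Matrix.of w)| := by
    refine continuous_abs.comp (Continuous.matrix_det ?_)
    exact continuous_id
  have hmem : w₀ ∈ Set.pi Set.univ fun _ : Fin d => K := fun i _ => hw₀ i
  obtain ⟨w, hw, hmax⟩ := hP.exists_isMaxOn ⟨w₀, hmem⟩ hcont.continuousOn
  have hpos : 0 < |Matrix.det (Matrix.of w)| :=
    lt_of_lt_of_le (abs_pos.mpr hdet) (hmax hmem)
  have hne : Matrix.det (Matrix.of w) ≠ 0 := abs_pos.mp hpos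
  refine ⟨w, fun i => hw i (Set.mem_univ i), hne, fun y hy => ?_⟩
  set A : Matrix (Fin d) (Fin d) ℝ := Matrix.of w with hA
  refine ⟨fun i => (A.updateRow i y).det / A.det, fun i => ?_, ?_⟩
  · rw [abs_div, div_le_one hpos]
    have hup : Function.update w i y ∈ Set.pi Set.univ fun _ : Fin d => K := by
      intro j _
      by_cases hj : j = i
      · subst hj
        rw [Function.update_self]
        exact hy
      · rw [Function.update_of_ne hj]
        exact hw j (Set.mem_univ j)
    exact hmax hup
  · have h1 := Matrix.mulVec_cramer A.transpose y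
    rw [Matrix.det_transpose] at h1
    funext k
    have h2 := congrFun h1 k
    simp only [Matrix.mulVec, dotProduct, Matrix.transpose_apply, Matrix.cramer_transpose_apply,
      Pi.smul_apply, smul_eq_mul] at h2
    rw [Finset.sum_apply]
    simp only [Pi.smul_apply, smul_eq_mul]
    have h3 : ∀ i, (A.updateRow i y).det / A.det * w i k =
        (A i k * (A.updateRow i y).det) / A.det := by
      intro i
      rw [hA, Matrix.of_apply]
      ring
    rw [Finset.sum_congr rfl fun i _ => h3 i, ← Finset.sum_div, h2]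
    field_simp

end

end MPa20b56
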