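import Pool.Agent.Lib_MP_a20b56_co.Hitting
import Pool.Agent.Lib_MP_a20b56_co.HalfGrowth
import Pool.Agent.Lib_MP_a20b56_co.Sandwich
import Pool.Agent.Lib_MP_a20b56_co.DeepPts

namespace MPa20b56

open scoped BigOperators Classical
open MeasureTheory

noncomputable section

/-- the symmetric body around `x` -/
def shapeK {d : ℕ} (H : Set (V d)) (x : V d) : Set (V d) := {y | x + y ∈ H ∧ x - y ∈ H}

lemma shape_hull_finite {d : ℕ} {ι : Type} (c : ι → V d) (u : ι → Fin d → V d) (G : Finset ι) :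
    {y | ∃ j ∈ G, ∃ i : Fin d, y = c j + u j i ∨ y = c j - u j i}.Finite := by
  have h : {y | ∃ j ∈ G, ∃ i : Fin d, y = c j + u j i ∨ y = c j - u j i} ⊆
      ⋃ j ∈ G, ⋃ i : Fin d, {c j + u j i, c j - u j i} := by
    rintro y ⟨j, hj, i, h⟩
    simp only [Set.mem_iUnion]
    exact ⟨j, hj, i, by simpa using h⟩
  refine Set.Finite.subset ?_ h
  refine Set.Finite.biUnion (Finset.finite_toSet G) fun j _ => ?_
  exact Set.finite_iUnion fun i => Set.toFinite _

lemma shape_hull_compact {d : ℕ} {ι : Type} (c : ι → V d) (u : ι → Fin d → V d) (G : Finset ι) :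
    IsCompact (Hull c u G) := by
  unfold Hull
  exact (shape_hull_finite c u G).isCompact_convexHull (𝕜 := ℝ)

lemma shape_hull_convex {d : ℕ} {ι : Type} (c : ι → V d) (u : ι → Fin d → V d) (G : Finset ι) :
    Convex ℝ (Hull c u G) := convex_convexHull ℝ _

lemma shapeK_convex {d : ℕ} {H : Set (V d)} (hH : Convex ℝ H) (x : V d) :
    Convex ℝ (shapeK H x) := by
  intro y hy z hz a b ha hb hab
  refine ⟨?_, ?_⟩
  · have h := hH hy.1 hz.1 ha hb hab
    have e : a • (x + y) + b • (x + z) = x + (a • y + b • z) := by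
      have : a • (x + y) + b • (x + z) = (a + b) • x + (a • y + b • z) := by module
      rw [this, hab, one_smul]
    rwa [e] at h
  · have h := hH hy.2 hz.2 ha hb hab
    have e : a • (x - y) + b • (x - z) = x - (a • y + b • z) := by
      have : a • (x - y) + b • (x - z) = (a + b) • x - (a • y + b • z) := by module
      rw [this, hab, one_smul]
    rwa [e] at h

lemma shapeK_symm {d : ℕ} {H : Set (V d)} (x : V d) : ∀ y ∈ shapeK H x, -y ∈ shapeK H x := by
  intro y hy
  refine ⟨?_, ?_⟩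
  · have := hy.2; rwa [sub_eq_add_neg] at this
  · have := hy.1; rwa [sub_neg_eq_add]

lemma shapeK_compact {d : ℕ} {H : Set (V d)} (hH : IsCompact H) (x : V d) :
    IsCompact (shapeK H x) := by
  have h1 : IsCompact ((fun h => h - x) '' H) := hH.image (by fun_prop)
  refine h1.of_isClosed_subset ?_ ?_
  · have c1 : IsClosed {y : V d | x + y ∈ H} := hH.isClosed.preimage (by fun_prop)
    have c2 : IsClosed {y : V d | x - y ∈ H} := hH.isClosed.preimage (by fun_prop)
    exact c1.inter c2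
  · intro y hy
    exact ⟨x + y, hy.1, by simp⟩

lemma shape_smul_mem {d : ℕ} {K : Set (V d)} (hK : Convex ℝ K) (hs : ∀ y ∈ K, -y ∈ K) {y : V d}
    (hy : y ∈ K) {s : ℝ} (h : |s| ≤ 1) : s • y ∈ K := by
  rw [abs_le] at h
  have h1 := hK hy (hs y hy) (a := (1 + s) / 2) (b := (1 - s) / 2) (by linarith [h.1])
    (by linarith [h.2]) (by ring)
  have e : ((1 + s) / 2) • y + ((1 - s) / 2) • (-y) = s • y := by module
  rwa [e] at h1

lemma shape_good {d : ℕ} (hd : 1 ≤ d) {ι : Type} (c : ι → V d) (u : ι → Fin d → V d)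
    (G : Finset ι) (x : V d) (j : ι) (hj : j ∈ G)
    (h : ∃ q ∈ convexHull ℝ (c '' (G : Set ι)), ∃ a : ℝ,
      1 / ((d : ℝ) + 1) ≤ a ∧ a ≤ 1 ∧ x = a • c j + (1 - a) • q) (i : Fin d) :
    (1 / ((d : ℝ) + 1)) • u j i ∈ shapeK (Hull c u G) x := by
  obtain ⟨q, hq, a, ha, ha1, hx⟩ := h
  have hd0 : (0:ℝ) < (d : ℝ) + 1 := by positivity
  have hda : 0 < 1 / ((d : ℝ) + 1) := by positivity
  have ha0 : 0 < a := hda.trans_le ha
  have hH := shape_hull_convex c u G
  have hp : ∀ k ∈ G, ∀ l : Fin d, c k + u k l ∈ Hull c u G := fun k hk l =>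
    subset_convexHull ℝ _ ⟨k, hk, l, Or.inl rfl⟩
  have hm : ∀ k ∈ G, ∀ l : Fin d, c k - u k l ∈ Hull c u G := fun k hk l =>
    subset_convexHull ℝ _ ⟨k, hk, l, Or.inr rfl⟩
  have hqH : q ∈ Hull c u G := by
    refine convexHull_min ?_ hH hq
    rintro _ ⟨k, hk, rfl⟩
    have h1 := hH (hp k hk ⟨0, hd⟩) (hm k hk ⟨0, hd⟩) (a := 1 / 2) (b := 1 / 2) (by norm_num)
      (by norm_num) (by norm_num)
    have e : (1 / 2 : ℝ) • (c k + u k ⟨0, hd⟩) + (1 / 2 : ℝ) • (c k - u k ⟨0, hd⟩) = c k := by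
      module
    rwa [e] at h1
  have hau : a • u j i ∈ shapeK (Hull c u G) x := by
    refine ⟨?_, ?_⟩
    · have h1 := hH (hp j hj i) hqH ha0.le (by linarith : 0 ≤ 1 - a) (by ring)
      have e : a • (c j + u j i) + (1 - a) • q = x + a • u j i := by rw [hx]; module
      rwa [e] at h1
    · have h1 := hH (hm j hj i) hqH ha0.le (by linarith : 0 ≤ 1 - a) (by ring)
      have e : a • (c j - u j i) + (1 - a) • q = x - a • u j i := by rw [hx]; module
      rwa [e] at h1
  have h2 := shape_smul_mem (shapeK_convex hH x) (shapeK_symm x) hau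
    (s := (1 / ((d : ℝ) + 1)) / a) (by
      rw [abs_of_pos (by positivity), div_le_one ha0]; exact ha)
  rw [smul_smul, div_mul_cancel₀ _ ha0.ne'] at h2
  exact h2

/-- the geometric part -/
lemma shape_main {d : ℕ} (hd : 1 ≤ d) {ι : Type} (c : ι → V d) (u : ι → Fin d → V d)
    (hu : ∀ j, Matrix.det (Matrix.of (u j)) ≠ 0) (G : Finset ι) (x : V d)
    (m : ℝ) (hm : 0 < m) (hx : Deep c G x m) :
    ∃ φ : Fin d → V d,
      m ≤ ((G.filter (fun j => ∀ i k, |∑ l, φ k l * u j i l| ≤ (d : ℝ) + 1)).card : ℝ) ∧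
      ∀ j, (∀ i k, |∑ l, φ k l * u j i l| ≤ (d : ℝ) + 1) → Box u x j ⊆ Hull c u G := by
  have hd0 : (0:ℝ) < (d : ℝ) + 1 := by positivity
  have hd1 : (0:ℝ) < (d : ℝ) := by exact_mod_cast hd
  have hdeep := deep c G x m hm hx
  set Good := G.filter (fun j => ∃ q ∈ convexHull ℝ (c '' (G : Set ι)), ∃ a : ℝ,
      1 / ((d : ℝ) + 1) ≤ a ∧ a ≤ 1 ∧ x = a • c j + (1 - a) • q) with hGood
  have hgm : ∀ j ∈ Good, ∀ i, (1 / ((d : ℝ) + 1)) • u j i ∈ shapeK (Hull c u G) x := by
    intro j hj i
    rw [hGood, Finset.mem_filter] at hj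
    exact shape_good hd c u G x j hj.1 hj.2 i
  obtain ⟨j₀, hj₀⟩ : Good.Nonempty := by
    rw [← Finset.card_pos]
    have : (0:ℝ) < (Good.card : ℝ) := hm.trans_le hdeep
    exact_mod_cast this
  have hKc := shapeK_convex (shape_hull_convex c u G) x
  have hKs := shapeK_symm (H := Hull c u G) x
  obtain ⟨w, hwK, hwdet, hw⟩ := sandwich (shapeK (Hull c u G) x) hKc hKs
    (shapeK_compact (shape_hull_compact c u G) x) (fun i => (1 / ((d : ℝ) + 1)) • u j₀ i)
    (fun i => hgm j₀ hj₀ i) (by
      have e : Matrix.of (fun i => (1 / ((d : ℝ) + 1)) • u j₀ i) =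
          (1 / ((d : ℝ) + 1)) • Matrix.of (u j₀) := by
        ext i l; simp
      rw [e, Matrix.det_smul]
      exact mul_ne_zero (by positivity) (hu j₀))
  -- the dual functionals
  set W : Matrix (Fin d) (Fin d) ℝ := Matrix.of w with hW
  have hWu : IsUnit W.det := isUnit_iff_ne_zero.mpr hwdet
  set φ : Fin d → V d := fun k l => W⁻¹ l k with hφ
  have hdual : ∀ (t : Fin d → ℝ) (k : Fin d), ∑ l, φ k l * (∑ i, t i • w i) l = t k := by
    intro t k
    have e1 : (∑ i, t i • w i) = Matrix.vecMul t W := by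
      ext l
      simp [Matrix.vecMul, dotProduct, hW, Finset.sum_apply]
    have e2 : ∑ l, φ k l * (∑ i, t i • w i) l = Matrix.vecMul (Matrix.vecMul t W) W⁻¹ k := by
      rw [e1]
      simp only [hφ]
      conv_rhs => rw [Matrix.vecMul, dotProduct]
      exact Finset.sum_congr rfl fun l _ => mul_comm _ _
    rw [e2, Matrix.vecMul_vecMul, Matrix.mul_nonsing_inv W hWu, Matrix.vecMul_one]
  have hexp : ∀ z : V d, z = ∑ k, (∑ l, φ k l * z l) • w k := by
    intro z
    have e1 : (fun k => ∑ l, φ k l * z l) = Matrix.vecMul z W⁻¹ := by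
      ext k
      simp only [hφ, Matrix.vecMul, dotProduct]
      exact Finset.sum_congr rfl fun l _ => mul_comm _ _
    have e2 : ∑ k, (∑ l, φ k l * z l) • w k = Matrix.vecMul (Matrix.vecMul z W⁻¹) W := by
      rw [← e1]
      ext l
      simp [Matrix.vecMul, dotProduct, hW, Finset.sum_apply]
    rw [e2, Matrix.vecMul_vecMul, Matrix.nonsing_inv_mul W hWu, Matrix.vecMul_one]
  refine ⟨φ, ?_, ?_⟩
  · refine hdeep.trans ?_
    have hsub : Good ⊆ G.filter (fun j => ∀ i k, |∑ l, φ k l * u j i l| ≤ (d : ℝ) + 1) := by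
      intro j hj
      have hjG : j ∈ G := (Finset.mem_filter.mp hj).1
      refine Finset.mem_filter.mpr ⟨hjG, fun i k => ?_⟩
      obtain ⟨t, ht, hte⟩ := hw _ (hgm j hj i)
      have h1 := hdual t k
      rw [← hte] at h1
      have h2 : ∑ l, φ k l * ((1 / ((d : ℝ) + 1)) • u j i) l =
          (1 / ((d : ℝ) + 1)) * ∑ l, φ k l * u j i l := by
        rw [Finset.mul_sum]
        refine Finset.sum_congr rfl fun l _ => ?_
        simp only [Pi.smul_apply, smul_eq_mul]
        ring
      rw [h2] at h1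
      have h3 := ht k
      rw [← h1, abs_mul, abs_of_pos (by positivity : (0:ℝ) < 1 / ((d : ℝ) + 1)),
        one_div_mul_eq_div, div_le_one hd0] at h3
      exact h3
    exact_mod_cast Finset.card_le_card hsub
  · intro j hj y hy
    obtain ⟨t, ht, rfl⟩ := hy
    set z : V d := ∑ i, t i • u j i with hz
    have hb : ∀ k, |∑ l, φ k l * z l| ≤ 1 / (d : ℝ) := by
      intro k
      have e : ∑ l, φ k l * z l = ∑ i, t i * ∑ l, φ k l * u j i l := by
        simp only [hz, Finset.sum_apply, Pi.smul_apply, smul_eq_mul, Finset.mul_sum]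
        rw [Finset.sum_comm]
        refine Finset.sum_congr rfl fun i _ => Finset.sum_congr rfl fun l _ => by ring
      rw [e]
      calc |∑ i, t i * ∑ l, φ k l * u j i l| ≤ ∑ i, |t i * ∑ l, φ k l * u j i l| :=
            Finset.abs_sum_le_sum_abs _ _
        _ ≤ ∑ _i : Fin d, kap d * ((d : ℝ) + 1) := by
            refine Finset.sum_le_sum fun i _ => ?_
            rw [abs_mul]
            exact mul_le_mul (ht i) (hj i k) (abs_nonneg _) (by unfold kap; positivity)
        _ = 1 / (d : ℝ) := by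
            rw [Finset.sum_const, Finset.card_univ, Fintype.card_fin, nsmul_eq_mul, kap]
            field_simp
    have hzK : z ∈ shapeK (Hull c u G) x := by
      have e : z = ∑ k, (1 / (d : ℝ)) • (((d : ℝ) * ∑ l, φ k l * z l) • w k) := by
        conv_lhs => rw [hexp z]
        refine Finset.sum_congr rfl fun k _ => ?_
        rw [smul_smul]
        congr 1
        field_simp
      rw [e]
      refine hKc.sum_mem (fun k _ => by positivity) ?_ ?_
      · rw [Finset.sum_const, Finset.card_univ, Fintype.card_fin, nsmul_eq_mul]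
        field_simp
      · intro k _
        refine shape_smul_mem hKc hKs (hwK k) ?_
        rw [abs_mul, abs_of_pos hd1]
        calc (d : ℝ) * |∑ l, φ k l * z l| ≤ (d : ℝ) * (1 / (d : ℝ)) :=
              mul_le_mul_of_nonneg_left (hb k) hd1.le
          _ = 1 := by field_simp
    exact hzK.1

/-- P10 shape nets -/
theorem shape {d : ℕ} (hd : 1 ≤ d) : ∃ C : ℝ, 0 < C ∧
    ∀ (ι : Type) (c : ι → V d) (u : ι → Fin d → V d),
    (∀ j, Matrix.det (Matrix.of (u j)) ≠ 0) → ∀ (J : Finset ι) (m : ℝ), 0 < m → J.Nonempty →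
    ∃ N ⊆ J, (N.card : ℝ) ≤ C * (1 + Real.log (J.card + 1)) * J.card / m + 1 ∧
      ∀ G ⊆ J, ∀ x : V d, Deep c G x m → ∃ j ∈ N, Box u x j ⊆ Hull c u G := by
  have hd1 : (1:ℝ) ≤ (d : ℝ) := by exact_mod_cast hd
  have hl2d : 0 ≤ Real.log (2 * d) := Real.log_nonneg (by linarith)
  refine ⟨(d : ℝ) * (d + 1) * (Real.log (2 * d) + 1) + 1, by positivity, ?_⟩
  intro ι c u hu J m hm hJ
  set C : ℝ := (d : ℝ) * (d + 1) * (Real.log (2 * d) + 1) + 1 with hC
  have hC0 : 0 < C := by positivity
  set n : ℕ := J.card with hn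
  have hn0 : 0 < n := Finset.card_pos.mpr hJ
  have hn1 : (1:ℝ) ≤ n := by exact_mod_cast hn0
  have hlog0 : 0 ≤ Real.log ((n:ℝ) + 1) := Real.log_nonneg (by linarith)
  by_cases hmn : m ≤ n
  · obtain ⟨T, hT, hTm⟩ := shape_ranges u J
    set Λ : ℝ := (d : ℝ) * (d + 1) * Real.log (2 * d * n + 1) + 1 with hΛ
    have hlogn : 0 ≤ Real.log (2 * d * n + 1) := Real.log_nonneg (by nlinarith)
    have hΛ1 : 1 ≤ Λ := by
      have : 0 ≤ (d : ℝ) * (d + 1) * Real.log (2 * d * n + 1) := by positivity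
      linarith
    set R : Finset (Finset ι) := T.filter (fun A => A ⊆ J ∧ m ≤ (A.card : ℝ)) with hR
    have hlogR : Real.log (R.card : ℝ) < Λ := by
      rcases Nat.eq_zero_or_pos R.card with h | h
      · rw [h]; simp only [Nat.cast_zero, Real.log_zero]; linarith
      · have h1 : R.card ≤ (2 * d * n + 1) ^ (d * (d + 1)) :=
          (Finset.card_filter_le _ _).trans hT
        have h2 : (R.card : ℝ) ≤ (2 * d * n + 1 : ℝ) ^ (d * (d + 1)) := by exact_mod_cast h1
        have h3 : Real.log (R.card : ℝ) ≤ (d : ℝ) * (d + 1) * Real.log (2 * d * n + 1) := by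
          calc Real.log (R.card : ℝ) ≤ Real.log ((2 * d * n + 1 : ℝ) ^ (d * (d + 1))) :=
                Real.log_le_log (by exact_mod_cast h) h2
            _ = (d : ℝ) * (d + 1) * Real.log (2 * d * n + 1) := by
                rw [Real.log_pow]; push_cast; ring
        linarith
    have hm0 : (0:ℝ) < m / n := by positivity
    set s : ℕ := ⌈Λ * n / m⌉₊ with hs
    have hs1 : Λ * n / m ≤ s := Nat.le_ceil _
    obtain ⟨N, hNJ, hNs, hN⟩ := hitting J (fun _ => (1:ℝ)) (fun _ _ => zero_le_one)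
      (by simp; exact hJ) R (fun A hA => (Finset.mem_filter.mp hA).2.1) (m / n) Λ hm0
      (by rw [div_le_one (by linarith)]; exact hmn)
      (fun A hA => by
        have := (Finset.mem_filter.mp hA).2.2
        simp only [Finset.sum_const, nsmul_eq_mul, mul_one]
        rw [← hn]
        have : m / (n:ℝ) * n = m := by field_simp
        rw [this]
        exact (Finset.mem_filter.mp hA).2.2) hlogR s (by
        have h1 : Λ = m / n * (Λ * n / m) := by field_simp
        calc Λ = m / n * (Λ * n / m) := h1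
          _ ≤ m / n * s := mul_le_mul_of_nonneg_left hs1 hm0.le)
    refine ⟨N, hNJ, ?_, ?_⟩
    · have h1 : (N.card : ℝ) ≤ s := by exact_mod_cast hNs
      have h2 : (s : ℝ) < Λ * n / m + 1 := Nat.ceil_lt_add_one (by positivity)
      have h3 : Λ ≤ C * (1 + Real.log (n + 1)) := by
        have h4 : Real.log (2 * d * n + 1) ≤ Real.log (2 * d) + Real.log (n + 1) := by
          rw [← Real.log_mul (by positivity) (by positivity)]
          apply Real.log_le_log (by positivity)
          nlinarith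
        have h5 : (d : ℝ) * (d + 1) * Real.log (2 * d * n + 1) ≤
            (d : ℝ) * (d + 1) * (Real.log (2 * d) + Real.log (n + 1)) :=
          mul_le_mul_of_nonneg_left h4 (by positivity)
        have h6 : (0:ℝ) ≤ (d : ℝ) * (d + 1) := by positivity
        have h7 : (Real.log (2 * d) + Real.log (n + 1)) ≤
            (Real.log (2 * d) + 1) * (1 + Real.log (n + 1)) := by nlinarith
        have h8 := mul_le_mul_of_nonneg_left h7 h6
        rw [hΛ, hC]
        nlinarith
      have h4 : Λ * n / m ≤ C * (1 + Real.log (n + 1)) * n / m := by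
        gcongr
      linarith
    · intro G hG x hx
      obtain ⟨φ, hφ1, hφ2⟩ := shape_main hd c u hu G x m hm hx
      have hA : J.filter (fun j => ∀ i k, |∑ l, φ k l * u j i l| ≤ (d : ℝ) + 1) ∈ R := by
        rw [hR, Finset.mem_filter]
        refine ⟨hTm φ, Finset.filter_subset _ _, hφ1.trans ?_⟩
        exact_mod_cast Finset.card_le_card (Finset.filter_subset_filter _ hG)
      obtain ⟨j, hj⟩ := hN _ hA
      rw [Finset.mem_inter, Finset.mem_filter] at hj
      exact ⟨j, hj.1, hφ2 j hj.2.2⟩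
  · refine ⟨∅, Finset.empty_subset _, ?_, ?_⟩
    · simp only [Finset.card_empty, Nat.cast_zero]
      positivity
    · intro G hG x hx
      exfalso
      have h1 := hx 0 (by simp [ev])
      have h2 : ((G.filter (fun j => ev (0 : Aff d) (c j) ≤ 0)).card : ℝ) ≤ n := by
        exact_mod_cast (Finset.card_filter_le _ _).trans (Finset.card_le_card hG)
      exact hmn (h1.trans h2)

end

end MPa20b56
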