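import Pool.Agent.Lib_MP_a20b56_co.Center
import Pool.Agent.Lib_MP_a20b56_co.Partition
import Pool.Agent.Lib_MP_a20b56_co.Shape

namespace MPa20b56

open scoped BigOperators Classical
open MeasureTheory

noncomputable section

theorem Hull_mono {d : ℕ} {ι : Type} (c : ι → V d) (u : ι → Fin d → V d) {G G' : Finset ι}
    (h : G ⊆ G') : Hull c u G ⊆ Hull c u G' := by
  unfold Hull
  apply convexHull_mono
  rintro y ⟨j, hj, i, hi⟩
  exact ⟨j, h hj, i, hi⟩

theorem HasNet.mono {d : ℕ} {ι : Type} {c : ι → V d} {u : ι → Fin d → V d} {J : Finset ι}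
    {ε ε' N N' : ℝ} (h : HasNet c u J ε N) (hε : ε ≤ ε') (hN : N ≤ N') :
    HasNet c u J ε' N' := by
  obtain ⟨S, hS, hG⟩ := h
  refine ⟨S, hS.trans hN, fun G hGJ hne hcard => hG G hGJ hne ?_⟩
  refine le_trans ?_ hcard
  exact mul_le_mul_of_nonneg_right hε (Nat.cast_nonneg _)

theorem kap_nonneg (d : ℕ) : 0 ≤ kap d := by
  unfold kap; positivity

/-- the box of a member around its own centre lies in the hull of the member -/
theorem Box_self_subset {d : ℕ} (hd : 1 ≤ d) {ι : Type} (c : ι → V d) (u : ι → Fin d → V d)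
    {G : Finset ι} {j : ι} (hj : j ∈ G) : Box u (c j) j ⊆ Hull c u G := by
  rintro y ⟨t, ht, rfl⟩
  have hconv : Convex ℝ (Hull c u G) := convex_convexHull ℝ _
  have hd0 : (0 : ℝ) < d := by exact_mod_cast hd
  -- y = ∑ i, (1/d) • (c j + (d * t i) • u j i)
  have hpt : ∀ i : Fin d, c j + ((d : ℝ) * t i) • u j i ∈ Hull c u G := by
    intro i
    have hp : c j + u j i ∈ Hull c u G := subset_convexHull ℝ _ ⟨j, hj, i, Or.inl rfl⟩
    have hm : c j - u j i ∈ Hull c u G := subset_convexHull ℝ _ ⟨j, hj, i, Or.inr rfl⟩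
    have hs : |(d : ℝ) * t i| ≤ 1 := by
      rw [abs_mul, abs_of_pos hd0]
      have h1 := ht i
      have h2 : (d : ℝ) * |t i| ≤ d * kap d := mul_le_mul_of_nonneg_left h1 hd0.le
      have h3 : (d : ℝ) * kap d ≤ 1 := by
        unfold kap
        have hd1 : (1 : ℝ) ≤ d := by exact_mod_cast hd
        rw [mul_one_div, div_le_one (by positivity)]
        nlinarith [mul_pos hd0 hd0, mul_pos (mul_pos hd0 hd0) hd0]
      linarith
    have h1 := abs_le.1 hs
    have := hconv hp hm (a := (1 + (d : ℝ) * t i) / 2) (b := (1 - (d : ℝ) * t i) / 2)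
      (by linarith [h1.1]) (by linarith [h1.2]) (by ring)
    convert this using 1
    ext k
    simp only [Pi.add_apply, Pi.smul_apply, Pi.sub_apply, smul_eq_mul]
    ring
  have hsum := hconv.sum_mem (t := Finset.univ) (w := fun _ : Fin d => (1 / (d : ℝ)))
    (z := fun i => c j + ((d : ℝ) * t i) • u j i)
    (fun i _ => by positivity)
    (by simp [Finset.sum_const, Finset.card_univ, hd0.ne'])
    (fun i _ => hpt i)
  convert hsum using 1
  simp only [smul_add, smul_smul, Finset.sum_add_distrib]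
  congr 1
  · simp only [Finset.sum_const, Finset.card_univ, Fintype.card_fin, ← Nat.cast_smul_eq_nsmul ℝ,
      smul_smul]
    rw [mul_one_div, div_self hd0.ne', one_smul]
  · apply Finset.sum_congr rfl
    intro i _
    congr 1
    field_simp

/-- a small shift making a functional strict -/
theorem exists_shift {ι : Type} (G : Finset ι) (a : ι → ℝ) :
    ∃ δ : ℝ, 0 < δ ∧ ∀ j ∈ G, 0 < a j → δ < a j := by
  induction G using Finset.induction_on with
  | empty => exact ⟨1, one_pos, by simp⟩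
  | insert j G hj ih =>
    obtain ⟨δ, hδ, h⟩ := ih
    by_cases h0 : 0 < a j
    · refine ⟨min δ (a j / 2), lt_min hδ (by linarith), ?_⟩
      intro k hk hk0
      rcases Finset.mem_insert.1 hk with rfl | hk
      · exact lt_of_le_of_lt (min_le_right _ _) (by linarith)
      · exact lt_of_le_of_lt (min_le_left _ _) (h k hk hk0)
    · refine ⟨δ, hδ, ?_⟩
      intro k hk hk0
      rcases Finset.mem_insert.1 hk with rfl | hk
      · exact absurd hk0 h0
      · exact h k hk hk0

/-- The depth of the candidate centre in the second case of the recursion. -/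
theorem node_deep {d : ℕ} {ι : Type} (c : ι → V d) (G : Finset ι) (r : ℕ) (p : ι → Fin r)
    (rep : Fin r → ι) (hrep : ∀ j ∈ G, p (rep (p j)) = p j) (J : Finset ι) (hGJ : G ⊆ J)
    (hrepJ : ∀ j ∈ G, rep (p j) ∈ J)
    (K : ℝ) (hK : 0 < K)
    (hcross : ∀ f : Aff d, (((Finset.univ : Finset (Fin r)).filter (fun i =>
        ∃ j ∈ J, ∃ j' ∈ J, p j = i ∧ p j' = i ∧ ev f (c j) < 0 ∧ 0 < ev f (c j'))).card : ℝ) ≤ K)
    (hsmall : ∀ i : Fin r, ((G.filter (fun j => p j = i)).card : ℝ)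
      ≤ (G.card : ℝ) / (6 * ((d : ℝ) + 1) * K))
    (x : V d)
    (hx : ∀ f : Aff d, ev f x ≤ 0 →
        2 * (G.card : ℝ) ≤ 3 * ((d : ℝ) + 1) *
          (G.filter (fun j => ev f (c (rep (p j))) ≤ 0)).card) :
    Deep c G x ((G.card : ℝ) / (2 * ((d : ℝ) + 1))) := by
  intro f hf
  have hd1 : (0 : ℝ) < (d : ℝ) + 1 := by positivity
  obtain ⟨δ, hδ, hδG⟩ := exists_shift G (fun j => ev f (c j))
  have hev : ∀ z : V d, ev ((f.1, f.2 - δ) : Aff d) z = ev f z - δ := by
    intro z; simp only [ev]; ring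
  set X : Finset (Fin r) := (Finset.univ : Finset (Fin r)).filter (fun i =>
        ∃ j ∈ J, ∃ j' ∈ J, p j = i ∧ p j' = i ∧ ev ((f.1, f.2 - δ) : Aff d) (c j) < 0 ∧
          0 < ev ((f.1, f.2 - δ) : Aff d) (c j')) with hX
  have hXc : (X.card : ℝ) ≤ K := hcross (f.1, f.2 - δ)
  have hsub : G.filter (fun j => ev f (c (rep (p j))) ≤ 0) ⊆
      G.filter (fun j => ev f (c j) ≤ 0) ∪ X.biUnion (fun i => G.filter (fun j => p j = i)) := by
    intro j hj
    rw [Finset.mem_filter] at hj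
    rw [Finset.mem_union]
    by_cases h0 : ev f (c j) ≤ 0
    · left; exact Finset.mem_filter.2 ⟨hj.1, h0⟩
    · right
      rw [Finset.mem_biUnion]
      refine ⟨p j, ?_, Finset.mem_filter.2 ⟨hj.1, rfl⟩⟩
      rw [hX, Finset.mem_filter]
      refine ⟨Finset.mem_univ _, rep (p j), hrepJ j hj.1, j, hGJ hj.1, hrep j hj.1, rfl, ?_, ?_⟩
      · rw [hev]; linarith [hj.2]
      · rw [hev]; linarith [hδG j hj.1 (not_le.1 h0)]
  have hcard := (Finset.card_le_card hsub).trans (Finset.card_union_le _ _)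
  have hbi : ((X.biUnion (fun i => G.filter (fun j => p j = i))).card : ℝ) ≤
      (G.card : ℝ) / (6 * ((d : ℝ) + 1)) := by
    have h1 : ((X.biUnion (fun i => G.filter (fun j => p j = i))).card : ℝ) ≤
        ∑ i ∈ X, ((G.filter (fun j => p j = i)).card : ℝ) := by
      exact_mod_cast Finset.card_biUnion_le
    have h2 : ∑ i ∈ X, ((G.filter (fun j => p j = i)).card : ℝ) ≤
        ∑ _i ∈ X, (G.card : ℝ) / (6 * ((d : ℝ) + 1) * K) := Finset.sum_le_sum (fun i _ => hsmall i)
    rw [Finset.sum_const, nsmul_eq_mul] at h2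
    have h3 : (X.card : ℝ) * ((G.card : ℝ) / (6 * ((d : ℝ) + 1) * K)) ≤
        K * ((G.card : ℝ) / (6 * ((d : ℝ) + 1) * K)) :=
      mul_le_mul_of_nonneg_right hXc (by positivity)
    have h4 : K * ((G.card : ℝ) / (6 * ((d : ℝ) + 1) * K)) = (G.card : ℝ) / (6 * ((d : ℝ) + 1)) := by
      field_simp
    linarith
  have hmain := hx f hf
  have hcard' : ((G.filter (fun j => ev f (c (rep (p j))) ≤ 0)).card : ℝ) ≤
      ((G.filter (fun j => ev f (c j) ≤ 0)).card : ℝ) +
        ((X.biUnion (fun i => G.filter (fun j => p j = i))).card : ℝ) := by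
    exact_mod_cast hcard
  have h5 : 2 * (G.card : ℝ) / (3 * ((d : ℝ) + 1)) ≤
      ((G.filter (fun j => ev f (c (rep (p j))) ≤ 0)).card : ℝ) := by
    rw [div_le_iff₀ (by positivity)]; linarith
  have h6 : 2 * (G.card : ℝ) / (3 * ((d : ℝ) + 1)) =
      (G.card : ℝ) / (2 * ((d : ℝ) + 1)) + (G.card : ℝ) / (6 * ((d : ℝ) + 1)) := by
    field_simp; ring
  linarith

/-- The recursion step. -/
theorem node {d : ℕ} (hd : 1 ≤ d) : ∃ (M : ℕ) (C : ℝ), 1 ≤ C ∧
    ∀ (ι : Type) (c : ι → V d) (u : ι → Fin d → V d),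
    (∀ j, Matrix.det (Matrix.of (u j)) ≠ 0) →
    ∀ (J : Finset ι) (n r : ℕ) (ε N' : ℝ), J.card ≤ n → J.Nonempty → 1 ≤ r → 0 < ε → 1 ≤ N' →
    (∀ J' ⊆ J, J'.Nonempty →
      HasNet c u J' ((r : ℝ) ^ (1 / (d : ℝ)) / (C * (1 + Real.log (n + 1)) ^ 2) * ε) N') →
    HasNet c u J ε (r * N' + ((r : ℝ) + 1) ^ M * (C * (1 + Real.log (n + 1)) / ε + 1)) := by
  obtain ⟨CP, hCP, hpart⟩ := partition hd
  obtain ⟨M, hcent⟩ := centers d
  obtain ⟨CS, hCS, hshape⟩ := shape hd
  refine ⟨M, max 1 (max (12 * ((d : ℝ) + 1) * CP) (CS * (2 * ((d : ℝ) + 1)))), le_max_left _ _, ?_⟩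
  set C : ℝ := max 1 (max (12 * ((d : ℝ) + 1) * CP) (CS * (2 * ((d : ℝ) + 1)))) with hC
  have hC1 : 1 ≤ C := le_max_left _ _
  have hC2 : 12 * ((d : ℝ) + 1) * CP ≤ C := (le_max_left _ _).trans (le_max_right _ _)
  have hC3 : CS * (2 * ((d : ℝ) + 1)) ≤ C := (le_max_right _ _).trans (le_max_right _ _)
  intro ι c u hdet J n r ε N' hJn hJne hr hε hN' hrec
  have hd0 : (0 : ℝ) < d := by exact_mod_cast hd
  have hr0 : (0 : ℝ) < r := by exact_mod_cast hr
  have hJ0 : (0 : ℝ) < J.card := by exact_mod_cast hJne.card_pos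
  have hJn' : (J.card : ℝ) ≤ n := by exact_mod_cast hJn
  have hn0 : (0 : ℝ) < n := lt_of_lt_of_le hJ0 hJn'
  have hlogn : 0 ≤ Real.log (n + 1) := Real.log_nonneg (by linarith)
  have hlogJ : 0 ≤ Real.log (J.card + 1) := Real.log_nonneg (by linarith)
  have hlog : Real.log (J.card + 1) ≤ Real.log (n + 1) :=
    Real.log_le_log (by linarith) (by linarith)
  set Lg : ℝ := 1 + Real.log (n + 1) with hLg
  have hLg1 : 1 ≤ Lg := by rw [hLg]; linarith
  -- the trivial case
  by_cases hJr : J.card < r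
  · refine ⟨J.image (fun j => (c j, j)), ?_, ?_⟩
    · have h1 : ((J.image (fun j => (c j, j))).card : ℝ) ≤ J.card := by
        exact_mod_cast Finset.card_image_le
      have h2 : (J.card : ℝ) ≤ r := by exact_mod_cast hJr.le
      have h3 : (r : ℝ) ≤ r * N' := le_mul_of_one_le_right hr0.le hN'
      have h4 : 0 ≤ ((r : ℝ) + 1) ^ M * (C * Lg / ε + 1) := by positivity
      linarith
    · intro G hG hGne _
      obtain ⟨j, hj⟩ := hGne
      exact ⟨(c j, j), Finset.mem_image.2 ⟨j, hG hj, rfl⟩, Box_self_subset hd c u hj⟩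
  push Not at hJr
  obtain ⟨p, hpsize, hpcross⟩ := hpart ι J c r hr hJr
  set K : ℝ := CP * Lg ^ 2 * (r : ℝ) ^ (1 - 1 / (d : ℝ)) with hK
  have hK0 : 0 < K := by rw [hK]; positivity
  have hcross : ∀ f : Aff d, (((Finset.univ : Finset (Fin r)).filter (fun i =>
        ∃ j ∈ J, ∃ j' ∈ J, p j = i ∧ p j' = i ∧ ev f (c j) < 0 ∧ 0 < ev f (c j'))).card : ℝ)
        ≤ K := by
    intro f
    refine (hpcross f).trans ?_
    rw [hK]
    have h1 : (1 + Real.log (J.card + 1)) ^ 2 ≤ Lg ^ 2 :=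
      pow_le_pow_left₀ (by linarith) (by rw [hLg]; linarith) 2
    have h2 : 0 ≤ (r : ℝ) ^ (1 - 1 / (d : ℝ)) := Real.rpow_nonneg hr0.le _
    exact mul_le_mul_of_nonneg_right (mul_le_mul_of_nonneg_left h1 hCP.le) h2
  -- representatives
  set Ji : Fin r → Finset ι := fun i => J.filter (fun j => p j = i) with hJi
  have hrepex : ∀ i : Fin r, ∃ j, (Ji i).Nonempty → j ∈ Ji i := by
    intro i
    by_cases h : (Ji i).Nonempty
    · obtain ⟨j, hj⟩ := h
      exact ⟨j, fun _ => hj⟩
    · obtain ⟨j, hj⟩ := hJne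
      exact ⟨j, fun h' => absurd h' h⟩
  choose rep hrep using hrepex
  -- nets in the classes
  set g : ℝ := (r : ℝ) ^ (1 / (d : ℝ)) / (C * Lg ^ 2) with hg
  have hg0 : 0 < g := by rw [hg]; positivity
  have hnet : ∀ i : Fin r, ∃ S : Finset (V d × ι), (S.card : ℝ) ≤ N' ∧
      ((Ji i).Nonempty → ∀ G ⊆ Ji i, G.Nonempty → g * ε * ((Ji i).card : ℝ) ≤ (G.card : ℝ) →
        ∃ q ∈ S, Box u q.1 q.2 ⊆ Hull c u G) := by
    intro i
    by_cases h : (Ji i).Nonempty
    · obtain ⟨S, hS, hS'⟩ := hrec (Ji i) (Finset.filter_subset _ _) h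
      exact ⟨S, hS, fun _ => hS'⟩
    · exact ⟨∅, by simp; linarith, fun h' => absurd h' h⟩
  choose Si hSi hSi' using hnet
  -- candidates and shapes
  obtain ⟨X, hXcard, hX⟩ := hcent ((Finset.univ : Finset (Fin r)).image (fun i => c (rep i)))
  have hm0 : 0 < ε * J.card / (2 * ((d : ℝ) + 1)) := by positivity
  obtain ⟨Nn, hNnJ, hNcard, hNn⟩ := hshape ι c u hdet J (ε * J.card / (2 * ((d : ℝ) + 1))) hm0 hJne
  refine ⟨(Finset.univ.biUnion Si) ∪ (X ×ˢ Nn), ?_, ?_⟩
  · -- cardinality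
    have h1 : (((Finset.univ.biUnion Si) ∪ (X ×ˢ Nn)).card : ℝ) ≤
        ((Finset.univ.biUnion Si).card : ℝ) + ((X ×ˢ Nn).card : ℝ) := by
      exact_mod_cast Finset.card_union_le _ _
    have h2 : ((Finset.univ.biUnion Si).card : ℝ) ≤ ∑ i : Fin r, ((Si i).card : ℝ) := by
      exact_mod_cast Finset.card_biUnion_le
    have h3 : ∑ i : Fin r, ((Si i).card : ℝ) ≤ ∑ _i : Fin r, N' :=
      Finset.sum_le_sum (fun i _ => hSi i)
    rw [Finset.sum_const, Finset.card_univ, Fintype.card_fin, nsmul_eq_mul] at h3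
    have h4 : ((X ×ˢ Nn).card : ℝ) = (X.card : ℝ) * Nn.card := by
      rw [Finset.card_product]; push_cast; ring
    have h5 : (X.card : ℝ) ≤ ((r : ℝ) + 1) ^ M := by
      have h6 : ((Finset.univ : Finset (Fin r)).image (fun i => c (rep i))).card ≤ r := by
        refine Finset.card_image_le.trans ?_
        rw [Finset.card_univ, Fintype.card_fin]
      have h7 : X.card ≤ (r + 1) ^ M := hXcard.trans (Nat.pow_le_pow_left (by omega) M)
      exact_mod_cast h7
    have h8 : (Nn.card : ℝ) ≤ C * Lg / ε + 1 := by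
      refine hNcard.trans ?_
      have h9 : CS * (1 + Real.log (J.card + 1)) * J.card / (ε * J.card / (2 * ((d : ℝ) + 1))) =
          CS * (2 * ((d : ℝ) + 1)) * (1 + Real.log (J.card + 1)) / ε := by
        field_simp
      rw [h9]
      have h10 : CS * (2 * ((d : ℝ) + 1)) * (1 + Real.log (J.card + 1)) ≤ C * Lg := by
        apply mul_le_mul hC3 (by rw [hLg]; linarith) (by linarith) (by linarith)
      have h11 := div_le_div_of_nonneg_right h10 hε.le
      linarith
    have h12 : (X.card : ℝ) * Nn.card ≤ ((r : ℝ) + 1) ^ M * (C * Lg / ε + 1) :=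
      mul_le_mul h5 h8 (Nat.cast_nonneg _) (by positivity)
    linarith
  · intro G hGJ hGne hGcard
    have hG0 : (0 : ℝ) < G.card := by exact_mod_cast hGne.card_pos
    by_cases hcase : ∃ i : Fin r, (G.card : ℝ) / (6 * ((d : ℝ) + 1) * K) <
        ((G.filter (fun j => p j = i)).card : ℝ)
    · obtain ⟨i, hi⟩ := hcase
      have hGi : (G.filter (fun j => p j = i)) ⊆ Ji i := by
        intro j hj
        rw [Finset.mem_filter] at hj
        exact Finset.mem_filter.2 ⟨hGJ hj.1, hj.2⟩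
      have hGine : (G.filter (fun j => p j = i)).Nonempty := by
        rw [← Finset.card_pos]
        have : (0 : ℝ) < ((G.filter (fun j => p j = i)).card : ℝ) :=
          lt_of_le_of_lt (by positivity) hi
        exact_mod_cast this
      have hdens : g * ε * ((Ji i).card : ℝ) ≤ ((G.filter (fun j => p j = i)).card : ℝ) := by
        refine le_trans ?_ hi.le
        have h1 : ((Ji i).card : ℝ) ≤ 2 * J.card / r := hpsize i
        have h2 : g * ε * ((Ji i).card : ℝ) ≤ g * ε * (2 * J.card / r) :=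
          mul_le_mul_of_nonneg_left h1 (by positivity)
        refine h2.trans ?_
        have h3 : g * ε * (2 * J.card / r) ≤ g * (2 * G.card / r) := by
          have : g * ε * (2 * J.card / r) = g * (2 * (ε * J.card) / r) := by ring
          rw [this]
          apply mul_le_mul_of_nonneg_left _ hg0.le
          apply div_le_div_of_nonneg_right _ hr0.le
          linarith
        refine h3.trans ?_
        -- g * 2 / r ≤ 1 / (6 (d+1) K)
        have h4 : g * (12 * ((d : ℝ) + 1) * K) ≤ r := by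
          have h5 : (12 * ((d : ℝ) + 1) * K) = (12 * ((d : ℝ) + 1) * CP) * Lg ^ 2 *
              (r : ℝ) ^ (1 - 1 / (d : ℝ)) := by rw [hK]; ring
          have h6 : g * ((12 * ((d : ℝ) + 1) * CP) * Lg ^ 2 * (r : ℝ) ^ (1 - 1 / (d : ℝ))) ≤
              g * (C * Lg ^ 2 * (r : ℝ) ^ (1 - 1 / (d : ℝ))) := by
            apply mul_le_mul_of_nonneg_left _ hg0.le
            apply mul_le_mul_of_nonneg_right _ (Real.rpow_nonneg hr0.le _)
            exact mul_le_mul_of_nonneg_right hC2 (by positivity)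
          rw [h5]
          refine h6.trans ?_
          have h7 : g * (C * Lg ^ 2 * (r : ℝ) ^ (1 - 1 / (d : ℝ))) =
              (r : ℝ) ^ (1 / (d : ℝ)) * (r : ℝ) ^ (1 - 1 / (d : ℝ)) := by
            rw [hg]
            have : C * Lg ^ 2 ≠ 0 := by positivity
            field_simp
          rw [h7, ← Real.rpow_add hr0]
          have : 1 / (d : ℝ) + (1 - 1 / (d : ℝ)) = 1 := by ring
          rw [this, Real.rpow_one]
        rw [le_div_iff₀ (by positivity)]
        have h8 : g * (2 * G.card / r) * (6 * ((d : ℝ) + 1) * K) =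
            (g * (12 * ((d : ℝ) + 1) * K)) / r * G.card := by ring
        rw [h8]
        have h9 : (g * (12 * ((d : ℝ) + 1) * K)) / r ≤ 1 := by
          rw [div_le_one hr0]; exact h4
        calc (g * (12 * ((d : ℝ) + 1) * K)) / r * G.card ≤ 1 * G.card :=
              mul_le_mul_of_nonneg_right h9 hG0.le
          _ = G.card := one_mul _
      obtain ⟨q, hq, hqs⟩ := hSi' i (hGine.mono hGi) _ hGi hGine hdens
      refine ⟨q, Finset.mem_union_left _ (Finset.mem_biUnion.2 ⟨i, Finset.mem_univ _, hq⟩), ?_⟩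
      exact hqs.trans (Hull_mono c u (Finset.filter_subset _ _))
    · push Not at hcase
      have hmemJi : ∀ j ∈ G, j ∈ Ji (p j) := fun j hj => Finset.mem_filter.2 ⟨hGJ hj, rfl⟩
      have hrepG : ∀ j ∈ G, rep (p j) ∈ Ji (p j) := fun j hj => hrep (p j) ⟨j, hmemJi j hj⟩
      obtain ⟨x, hxX, hx⟩ := hX ι G (fun j => c (rep (p j))) hGne
        (fun j _ => Finset.mem_image.2 ⟨p j, Finset.mem_univ _, rfl⟩)
      have hdeep : Deep c G x ((G.card : ℝ) / (2 * ((d : ℝ) + 1))) :=
        node_deep c G r p rep (fun j hj => (Finset.mem_filter.1 (hrepG j hj)).2) J hGJ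
          (fun j hj => (Finset.mem_filter.1 (hrepG j hj)).1) K hK0 hcross hcase x hx
      have hdeep' : Deep c G x (ε * J.card / (2 * ((d : ℝ) + 1))) := by
        intro f hf
        refine le_trans ?_ (hdeep f hf)
        exact div_le_div_of_nonneg_right hGcard (by positivity)
      obtain ⟨j, hj, hjb⟩ := hNn G hGJ x hdeep'
      exact ⟨(x, j), Finset.mem_union_right _ (Finset.mem_product.2 ⟨hxX, hj⟩), hjb⟩

end

end MPa20b56
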