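import Mathlib

/-!
# Volumetric weak epsilon-nets (MP_a20b56_co): the statement
-/

namespace MPa20b56

open MeasureTheory

noncomputable section

/-- `S` is a weak `ε`-net with sets of volume `v` for the finite family `F` of subsets of `ℝ^d`:
all members of `S` are (Lebesgue) measurable of volume `v`, and for every subfamily `G ⊆ F` with
`|G| ≥ ε |F|` some member of `S` is contained in the convex hull of the union of `G`. -/
def IsWeakNet (d : ℕ) (F : Finset (Set (Fin d → ℝ))) (ε v : ℝ)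
    (S : Finset (Set (Fin d → ℝ))) : Prop :=
  (∀ s ∈ S, MeasurableSet s ∧ volume s = ENNReal.ofReal v) ∧
  ∀ G : Finset (Set (Fin d → ℝ)), G ⊆ F → ε * (F.card : ℝ) ≤ (G.card : ℝ) →
    ∃ s ∈ S, s ⊆ convexHull ℝ (⋃ K ∈ G, K)

/-- `α` is admissible in dimension `d`. -/
def Admissible (d : ℕ) (α : ℝ) : Prop :=
  0 < α ∧ ∃ v : ℝ, 0 < v ∧ ∃ C : ℝ, ∀ ε : ℝ, 0 < ε → ε ≤ 1 →
    ∀ F : Finset (Set (Fin d → ℝ)), F.Nonempty → (∀ K ∈ F, Convex ℝ K ∧ volume K = 1) →
      ∃ S : Finset (Set (Fin d → ℝ)), (S.card : ℝ) ≤ C * ε ^ (-α) ∧ IsWeakNet d F ε v S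

/-- The exponent `α_d`: the infimum of the admissible exponents, `∞` if there is none. -/
def alpha (d : ℕ) : EReal := sInf {a : EReal | ∃ α : ℝ, Admissible d α ∧ a = (α : EReal)}

end

end MPa20b56
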