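import Pool.Agent.Lib_MP_a20b56_co.HalfGrowth
import Pool.Agent.Lib_MP_a20b56_co.Approx

namespace MPa20b56

open scoped BigOperators Classical
open MeasureTheory

noncomputable section

/-- the two points of the member `j` in direction `i` -/
def reducePt {d : ℕ} {ι : Type} (c : ι → V d) (u : ι → Fin d → V d) (z : ι × Fin d × Bool) : V d :=
  if z.2.2 then c z.1 + u z.1 z.2.1 else c z.1 - u z.1 z.2.1

/-- the members of `J` contained in finitely many half spaces -/
def reduceSet {d : ℕ} {ι : Type} (c : ι → V d) (u : ι → Fin d → V d) (J : Finset ι) {m : ℕ}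
    (f : Fin m → Aff d) : Finset ι :=
  J.filter fun j => ∀ k : Fin m, ∀ w : Fin d × Bool, ev (f k) (reducePt c u (j, w)) ≤ 0

theorem reduce_growth {d : ℕ} (hd : 1 ≤ d) {ι : Type} (c : ι → V d) (u : ι → Fin d → V d)
    (J : Finset ι) (m : ℕ) :
    Growth J {A | ∃ f : Fin m → Aff d, A = reduceSet c u J f} (2 * d * (d + 1) * m) := by
  intro Y hY
  obtain ⟨T', hT'c, hT'⟩ := halfspace_growth (Y ×ˢ (Finset.univ : Finset (Fin d × Bool)))
    (reducePt c u)
  refine ⟨(Fintype.piFinset fun _ : Fin m => T').image (fun g =>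
    Y.filter fun j => ∀ k : Fin m, ∀ w : Fin d × Bool, (j, w) ∈ g k), ?_, ?_⟩
  · refine Finset.card_image_le.trans ?_
    rw [Fintype.card_piFinset, Finset.prod_const, Finset.card_univ, Fintype.card_fin]
    have h1 : (Y ×ˢ (Finset.univ : Finset (Fin d × Bool))).card = Y.card * (2 * d) := by
      rw [Finset.card_product, Finset.card_univ, Fintype.card_prod, Fintype.card_fin,
        Fintype.card_bool]
      ring
    rw [h1] at hT'c
    have h2 : Y.card * (2 * d) + 1 ≤ (Y.card + 1) ^ (2 * d) := by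
      have h3 := one_add_mul_le_pow (a := (Y.card : ℤ)) (by omega) (2 * d)
      have h4 : (1 : ℤ) + ((2 * d : ℕ) : ℤ) * (Y.card : ℤ) ≤ (1 + (Y.card : ℤ)) ^ (2 * d) := h3
      have h5 : ((Y.card * (2 * d) + 1 : ℕ) : ℤ) ≤ (((Y.card + 1) ^ (2 * d) : ℕ) : ℤ) := by
        push_cast
        push_cast at h4
        rw [add_comm (Y.card : ℤ) 1]
        linarith
      exact_mod_cast h5
    calc T'.card ^ m ≤ ((Y.card * (2 * d) + 1) ^ (d + 1)) ^ m := Nat.pow_le_pow_left hT'c m
      _ ≤ (((Y.card + 1) ^ (2 * d)) ^ (d + 1)) ^ m :=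
          Nat.pow_le_pow_left (Nat.pow_le_pow_left h2 _) m
      _ = (Y.card + 1) ^ (2 * d * (d + 1) * m) := by
          rw [← pow_mul, ← pow_mul, mul_assoc (2 * d)]
  · rintro A ⟨f, rfl⟩
    rw [Finset.mem_image]
    refine ⟨fun k => (Y ×ˢ (Finset.univ : Finset (Fin d × Bool))).filter
      (fun z => ev (f k) (reducePt c u z) ≤ 0), ?_, ?_⟩
    · rw [Fintype.mem_piFinset]
      intro k
      exact hT' (f k)
    · ext j
      simp only [Finset.mem_filter, Finset.mem_product, Finset.mem_univ, and_true,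
        Finset.mem_inter, reduceSet]
      constructor
      · rintro ⟨hj, h⟩
        exact ⟨hj, hY hj, fun k w => (h k w).2⟩
      · rintro ⟨hj, -, h⟩
        exact ⟨hj, fun k w => ⟨hj, h k w⟩⟩

theorem reduce_finite {d : ℕ} {ι : Type} (c : ι → V d) (u : ι → Fin d → V d) (G : Finset ι) :
    Set.Finite {y | ∃ j ∈ G, ∃ i : Fin d, y = c j + u j i ∨ y = c j - u j i} := by
  have : {y | ∃ j ∈ G, ∃ i : Fin d, y = c j + u j i ∨ y = c j - u j i} ⊆
      ((G ×ˢ (Finset.univ : Finset (Fin d × Bool))).image (reducePt c u) : Set (V d)) := by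
    rintro y ⟨j, hj, i, h | h⟩
    · rw [Finset.mem_coe, Finset.mem_image]
      exact ⟨(j, i, true), by simp [hj], by simp [reducePt, h]⟩
    · rw [Finset.mem_coe, Finset.mem_image]
      exact ⟨(j, i, false), by simp [hj], by simp [reducePt, h]⟩
  exact (Finset.finite_toSet _).subset this

/-- separation of a point from the hull by an affine functional -/
theorem reduce_separate {d : ℕ} {ι : Type} (c : ι → V d) (u : ι → Fin d → V d) (G : Finset ι)
    (y : V d) (hy : y ∉ Hull c u G) :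
    ∃ f : Aff d, (∀ x ∈ Hull c u G, ev f x ≤ 0) ∧ 0 < ev f y := by
  have hcl : IsClosed (Hull c u G) := ((reduce_finite c u G).isCompact_convexHull ℝ).isClosed
  obtain ⟨f, r, h1, h2⟩ := geometric_hahn_banach_closed_point (convex_convexHull ℝ _) hcl hy
  have hf : ∀ x : V d, f x = ∑ i, f (Pi.single i 1) * x i := by
    intro x
    have hx : x = ∑ i, x i • (Pi.single i 1 : V d) := by
      ext k
      simp [Finset.sum_apply, Pi.single_apply]
    conv_lhs => rw [hx]
    rw [map_sum]
    refine Finset.sum_congr rfl fun i _ => ?_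
    rw [map_smul, smul_eq_mul, mul_comm]
  have hev : ∀ x : V d, ev ((fun i => f (Pi.single i 1)), -r) x = f x - r := by
    intro x
    rw [hf x]
    rfl
  refine ⟨((fun i => f (Pi.single i 1)), -r), ?_, ?_⟩
  · intro x hx
    rw [hev]
    have := h1 x hx
    linarith
  · rw [hev]
    linarith

theorem reduce_hull_sub {d : ℕ} {ι : Type} (c : ι → V d) (u : ι → Fin d → V d) (G : Finset ι)
    (f : Aff d) (h : ∀ j ∈ G, ∀ w : Fin d × Bool, ev f (reducePt c u (j, w)) ≤ 0) :
    ∀ x ∈ Hull c u G, ev f x ≤ 0 := by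
  have hconv : Convex ℝ {x : V d | ev f x ≤ 0} := by
    intro x hx y hy a b ha hb hab
    have hx' : ev f x ≤ 0 := hx
    have hy' : ev f y ≤ 0 := hy
    change ev f (a • x + b • y) ≤ 0
    have e : ev f (a • x + b • y) = a * ev f x + b * ev f y := by
      unfold ev
      have e1 : ∑ i, f.1 i * (a • x + b • y) i = a * ∑ i, f.1 i * x i + b * ∑ i, f.1 i * y i := by
        rw [Finset.mul_sum, Finset.mul_sum, ← Finset.sum_add_distrib]
        refine Finset.sum_congr rfl fun i _ => ?_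
        simp only [Pi.add_apply, Pi.smul_apply, smul_eq_mul]
        ring
      rw [e1]
      linear_combination (-f.2) * hab
    rw [e]
    nlinarith [mul_nonneg ha (neg_nonneg.2 hx'), mul_nonneg hb (neg_nonneg.2 hy')]
  intro x hx
  refine convexHull_min ?_ hconv hx
  rintro y ⟨j, hj, i, hy | hy⟩
  · have := h j hj (i, true)
    rw [hy]
    simpa [reducePt] using this
  · have := h j hj (i, false)
    rw [hy]
    simpa [reducePt] using this

theorem reduce_mem_hull {d : ℕ} {ι : Type} (c : ι → V d) (u : ι → Fin d → V d) (G : Finset ι)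
    (j : ι) (hj : j ∈ G) (w : Fin d × Bool) : reducePt c u (j, w) ∈ Hull c u G := by
  apply subset_convexHull
  refine ⟨j, hj, w.1, ?_⟩
  unfold reducePt
  by_cases h : w.2 = true
  · left; simp [h]
  · right; simp [h]

/-- P13 reduction to families of polynomial size -/
theorem reduce {d : ℕ} (hd : 1 ≤ d) : ∃ C : ℝ, 0 < C ∧
    ∀ (ι : Type) (c : ι → V d) (u : ι → Fin d → V d) (J : Finset ι) (ε : ℝ) (m : ℕ),
    J.Nonempty → 0 < ε → ε ≤ 1 → 1 ≤ m →
    ∃ R ⊆ J, R.Nonempty ∧ (R.card : ℝ) ≤ C * (m : ℝ) ^ 2 / ε ^ 4 ∧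
      (HasNet c u R (ε / 2) m → HasNet c u J ε m) := by
  obtain ⟨A, hA, happ⟩ := approx
  refine ⟨A * (2 * d * (d + 1)) ^ 2 * 16, ?_, ?_⟩
  · have : (1 : ℝ) ≤ d := by exact_mod_cast hd
    positivity
  intro ι c u J ε m hJ hε hε1 hm
  have hD : 1 ≤ 2 * d * (d + 1) * m := Nat.mul_pos (by positivity) hm
  obtain ⟨R, hRJ, hRne, hRc, hRe⟩ := happ ι J {A | ∃ f : Fin m → Aff d, A = reduceSet c u J f}
    (2 * d * (d + 1) * m) (ε / 2) hJ hD (by positivity) (by linarith) (reduce_growth hd c u J m)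
  refine ⟨R, hRJ, hRne, ?_, ?_⟩
  · refine hRc.trans (le_of_eq ?_)
    push_cast
    field_simp
    ring
  · rintro ⟨S, hS, hnet⟩
    refine ⟨S, hS, ?_⟩
    intro G hGJ hGne hGc
    by_contra hcon
    push Not at hcon
    have hsep : ∀ p ∈ S, ∃ f : Aff d, (∀ x ∈ Hull c u G, ev f x ≤ 0) ∧
        ∃ y ∈ Box u p.1 p.2, 0 < ev f y := by
      intro p hp
      obtain ⟨y, hy, hyn⟩ := Set.not_subset.1 (hcon p hp)
      obtain ⟨f, h1, h2⟩ := reduce_separate c u G y hyn
      exact ⟨f, h1, y, hy, h2⟩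
    choose! F hF1 hF2 using hsep
    have hSm : S.card ≤ m := by exact_mod_cast hS
    let f : Fin m → Aff d := fun k => if h : (k : ℕ) < S.card then
      F (S.equivFin.symm ⟨k, h⟩ : V d × ι) else 0
    have hfG : ∀ k : Fin m, ∀ x ∈ Hull c u G, ev (f k) x ≤ 0 := by
      intro k x hx
      by_cases h : (k : ℕ) < S.card
      · simp only [f, dif_pos h]
        exact hF1 _ (S.equivFin.symm ⟨k, h⟩).2 x hx
      · simp only [f, dif_neg h, ev]
        simp
    have hfp : ∀ p ∈ S, ∃ k : Fin m, f k = F p := by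
      intro p hp
      have hlt : ((S.equivFin ⟨p, hp⟩ : Fin S.card) : ℕ) < S.card := (S.equivFin ⟨p, hp⟩).2
      refine ⟨⟨(S.equivFin ⟨p, hp⟩ : Fin S.card), by omega⟩, ?_⟩
      simp only [f, dif_pos hlt]
      have : S.equivFin.symm ⟨(S.equivFin ⟨p, hp⟩ : Fin S.card), hlt⟩ = ⟨p, hp⟩ := by
        rw [Equiv.symm_apply_eq]
      rw [this]
    set B := reduceSet c u J f with hB
    have hGB : G ⊆ J ∩ B := by
      intro j hj
      rw [Finset.mem_inter, hB, reduceSet, Finset.mem_filter]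
      exact ⟨hGJ hj, hGJ hj, fun k w => hfG k _ (reduce_mem_hull c u G j hj w)⟩
    have herr := hRe B ⟨f, rfl⟩
    have hJpos : (0 : ℝ) < J.card := by exact_mod_cast Finset.card_pos.2 hJ
    have hRpos : (0 : ℝ) < R.card := by exact_mod_cast Finset.card_pos.2 hRne
    have h1 : ε ≤ ((J ∩ B).card : ℝ) / J.card := by
      rw [le_div_iff₀ hJpos]
      refine hGc.trans ?_
      exact_mod_cast Finset.card_le_card hGB
    have h2 : ε / 2 ≤ ((R ∩ B).card : ℝ) / R.card := by
      have := (abs_le.1 herr).1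
      linarith
    rw [le_div_iff₀ hRpos] at h2
    have hne : (R ∩ B).Nonempty := by
      rw [← Finset.card_pos]
      have : (0 : ℝ) < ((R ∩ B).card : ℝ) := lt_of_lt_of_le (by positivity) h2
      exact_mod_cast this
    obtain ⟨p, hp, hbox⟩ := hnet (R ∩ B) Finset.inter_subset_left hne h2
    obtain ⟨y, hy, hyp⟩ := hF2 p hp
    obtain ⟨k, hk⟩ := hfp p hp
    have h3 := reduce_hull_sub c u (R ∩ B) (f k) (by
      intro j hj w
      have hj' := (Finset.mem_inter.1 hj).2
      rw [hB, reduceSet, Finset.mem_filter] at hj'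
      exact hj'.2 k w) y (hbox hy)
    rw [hk] at h3
    linarith

end

end MPa20b56
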