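import Pool.Agent.Lib_MP_a20b56_co.Node
import Pool.Agent.Lib_MP_a20b56_co.Reduce

namespace MPa20b56

open scoped BigOperators Classical
open MeasureTheory

noncomputable section

/-- iterating the recursion step `k` times -/
theorem rec_iterate {d : ℕ} (hd : 1 ≤ d) : ∃ (M : ℕ) (C : ℝ), 1 ≤ C ∧
    ∀ (ι : Type) (c : ι → V d) (u : ι → Fin d → V d),
    (∀ j, Matrix.det (Matrix.of (u j)) ≠ 0) →
    ∀ (n r : ℕ), 1 ≤ n → 1 ≤ r → ∀ (k : ℕ) (J : Finset ι) (ε : ℝ), J.card ≤ n → J.Nonempty →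
    0 < ε → 1 ≤ ε * ((r : ℝ) ^ (1 / (d : ℝ)) / (C * (1 + Real.log (n + 1)) ^ 2)) ^ k →
    HasNet c u J ε (((k : ℝ) + 1) * (((r : ℝ) + 1) ^ M * (C * (1 + Real.log (n + 1)) + 2)) *
      (r : ℝ) ^ k) := by
  obtain ⟨M, C, hC, hnode⟩ := node hd
  refine ⟨M, C, hC, ?_⟩
  intro ι c u hdet n r hn hr
  have hd0 : (0 : ℝ) < d := by exact_mod_cast hd
  have hd1 : (1 : ℝ) ≤ d := by exact_mod_cast hd
  have hr0 : (0 : ℝ) < r := by exact_mod_cast hr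
  have hr1 : (1 : ℝ) ≤ r := by exact_mod_cast hr
  have hn1 : (1 : ℝ) ≤ n := by exact_mod_cast hn
  have hlogn : 0 ≤ Real.log (n + 1) := Real.log_nonneg (by linarith)
  set Lg : ℝ := 1 + Real.log (n + 1) with hLg
  have hLg1 : 1 ≤ Lg := by rw [hLg]; linarith
  set g : ℝ := (r : ℝ) ^ (1 / (d : ℝ)) / (C * Lg ^ 2) with hg
  have hC0 : 0 < C := by linarith
  have hg0 : 0 < g := by rw [hg]; positivity
  have hgr : g ≤ r := by
    have h1 : g ≤ (r : ℝ) ^ (1 / (d : ℝ)) := by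
      rw [hg]
      apply div_le_self (Real.rpow_nonneg hr0.le _)
      nlinarith [hLg1, hC]
    have h2 : (r : ℝ) ^ (1 / (d : ℝ)) ≤ (r : ℝ) ^ (1 : ℝ) := by
      apply Real.rpow_le_rpow_of_exponent_le hr1
      rw [div_le_one hd0]; exact hd1
    rw [Real.rpow_one] at h2
    exact h1.trans h2
  set Z : ℝ := ((r : ℝ) + 1) ^ M * (C * Lg + 2) with hZ
  have hr1M : (1 : ℝ) ≤ ((r : ℝ) + 1) ^ M := one_le_pow₀ (by linarith)
  have hCL : 1 ≤ C * Lg := by nlinarith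
  have hZ1 : 1 ≤ Z := by rw [hZ]; nlinarith
  intro k
  induction k with
  | zero =>
    intro J ε hJn hJne hε hε1
    obtain ⟨j, hj⟩ := hJne
    refine ⟨{(c j, j)}, ?_, ?_⟩
    · simp only [Finset.card_singleton, Nat.cast_one, CharP.cast_eq_zero, zero_add, one_mul,
        pow_zero, mul_one]
      exact hZ1
    · intro G hG hGne hGc
      have h1 : (1 : ℝ) ≤ ε := by simpa using hε1
      have h2 : (J.card : ℝ) ≤ G.card := by
        refine le_trans ?_ hGc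
        exact le_mul_of_one_le_left (Nat.cast_nonneg _) h1
      have h3 : G = J := Finset.eq_of_subset_of_card_le hG (by exact_mod_cast h2)
      exact ⟨(c j, j), Finset.mem_singleton_self _, Box_self_subset hd c u (by rw [h3]; exact hj)⟩
  | succ k ih =>
    intro J ε hJn hJne hε hε1
    have hBk : 1 ≤ ((k : ℝ) + 1) * Z * (r : ℝ) ^ k := by
      have h1 : (1 : ℝ) ≤ (r : ℝ) ^ k := one_le_pow₀ hr1
      have h2 : (1 : ℝ) ≤ (k : ℝ) + 1 := by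
        have : (0 : ℝ) ≤ k := Nat.cast_nonneg k
        linarith
      have h3 : 1 ≤ ((k : ℝ) + 1) * Z := one_le_mul_of_one_le_of_one_le h2 hZ1
      exact one_le_mul_of_one_le_of_one_le h3 h1
    have hstep := hnode ι c u hdet J n r ε (((k : ℝ) + 1) * Z * (r : ℝ) ^ k) hJn hJne hr hε hBk
      (by
        intro J' hJ' hJ'ne
        apply ih J' (g * ε) ((Finset.card_le_card hJ').trans hJn) hJ'ne (by positivity)
        calc (1 : ℝ) ≤ ε * g ^ (k + 1) := hε1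
          _ = g * ε * g ^ k := by ring)
    refine hstep.mono le_rfl ?_
    -- 1 / ε ≤ g ^ (k+1) ≤ r ^ (k+1)
    have h1 : 1 / ε ≤ g ^ (k + 1) := by
      rw [div_le_iff₀ hε]; linarith [hε1, mul_comm ε (g ^ (k + 1))]
    have h2 : g ^ (k + 1) ≤ (r : ℝ) ^ (k + 1) := pow_le_pow_left₀ hg0.le hgr _
    have h3 : C * Lg / ε ≤ C * Lg * (r : ℝ) ^ (k + 1) := by
      rw [div_eq_mul_one_div]
      exact mul_le_mul_of_nonneg_left (h1.trans h2) (by linarith)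
    have h4 : (1 : ℝ) ≤ (r : ℝ) ^ (k + 1) := one_le_pow₀ hr1
    have h5 : ((r : ℝ) + 1) ^ M * (C * Lg / ε + 1) ≤ Z * (r : ℝ) ^ (k + 1) := by
      have : ((r : ℝ) + 1) ^ M * (C * Lg / ε + 1) ≤
          ((r : ℝ) + 1) ^ M * ((C * Lg + 2) * (r : ℝ) ^ (k + 1)) := by
        apply mul_le_mul_of_nonneg_left _ (by linarith)
        nlinarith
      calc _ ≤ _ := this
        _ = Z * (r : ℝ) ^ (k + 1) := by rw [hZ]; ring
    push_cast
    calc (r : ℝ) * (((k : ℝ) + 1) * Z * (r : ℝ) ^ k) + ((r : ℝ) + 1) ^ M * (C * Lg / ε + 1)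
        ≤ (r : ℝ) * (((k : ℝ) + 1) * Z * (r : ℝ) ^ k) + Z * (r : ℝ) ^ (k + 1) := by linarith
      _ = ((k : ℝ) + 1 + 1) * Z * (r : ℝ) ^ (k + 1) := by ring

/-- logarithms are smaller than powers -/
theorem log_bound (θ : ℝ) (hθ : 0 < θ) : ∃ A : ℝ, 1 ≤ A ∧ ∀ x : ℝ, 1 ≤ x →
    1 + Real.log (x + 1) ≤ A * x ^ θ := by
  refine ⟨1 + 2 ^ θ / θ, ?_, ?_⟩
  · have : 0 < (2 : ℝ) ^ θ / θ := by positivity
    linarith
  · intro x hx
    have h1 : Real.log (x + 1) ≤ (x + 1) ^ θ / θ := Real.log_le_rpow_div (by linarith) hθ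
    have h2 : (x + 1) ^ θ ≤ (2 * x) ^ θ := Real.rpow_le_rpow (by linarith) (by linarith) hθ.le
    rw [Real.mul_rpow (by norm_num) (by linarith)] at h2
    have h3 : (1 : ℝ) ≤ x ^ θ := Real.one_le_rpow hx hθ.le
    have h4 : (x + 1) ^ θ / θ ≤ (2 ^ θ * x ^ θ) / θ := div_le_div_of_nonneg_right h2 hθ.le
    calc 1 + Real.log (x + 1) ≤ x ^ θ + (2 ^ θ * x ^ θ) / θ := by linarith
      _ = (1 + 2 ^ θ / θ) * x ^ θ := by ring

theorem HasNet.floor {d : ℕ} {ι : Type} {c : ι → V d} {u : ι → Fin d → V d} {J : Finset ι}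
    {ε x : ℝ} (h : HasNet c u J ε x) : HasNet c u J ε (⌊x⌋₊ : ℕ) := by
  obtain ⟨S, hS, hG⟩ := h
  exact ⟨S, by exact_mod_cast Nat.le_floor hS, hG⟩

/-- Nets of size `O(ε^{-(d+η)})`. -/
theorem main_net {d : ℕ} (hd : 1 ≤ d) (η : ℝ) (hη : 0 < η) : ∃ A : ℝ, 1 ≤ A ∧
    ∀ (ι : Type) (c : ι → V d) (u : ι → Fin d → V d),
    (∀ j, Matrix.det (Matrix.of (u j)) ≠ 0) →
    ∀ (J : Finset ι) (ε : ℝ), J.Nonempty → 0 < ε → ε ≤ 1 →
    HasNet c u J ε (A * ε ^ (-((d : ℝ) + η))) := by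
  obtain ⟨M, C, hC, hrec⟩ := rec_iterate hd
  obtain ⟨CR, hCR, hred⟩ := reduce hd
  have hd0 : (0 : ℝ) < d := by exact_mod_cast hd
  have hd1 : (1 : ℝ) ≤ d := by exact_mod_cast hd
  have hC0 : 0 < C := by linarith
  obtain ⟨k, hk⟩ := exists_nat_gt (4 * (d : ℝ) * M / η)
  have hk0 : (0 : ℝ) < k := lt_of_le_of_lt (by positivity) hk
  have hkη : (d : ℝ) * M / k ≤ η / 4 := by
    rw [div_lt_iff₀ hη] at hk
    rw [div_le_iff₀ hk0]
    nlinarith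
  set b : ℕ := 2 * d * (M + k) + 1 with hb
  have hb0 : (0 : ℝ) < b := by rw [hb]; positivity
  set τ : ℝ := min (1 / 4) (η / (4 * (2 * ((d : ℝ) + η) + 4))) with hτ
  have hτ0 : 0 < τ := by rw [hτ]; apply lt_min (by norm_num) (by positivity)
  have hτ1 : τ ≤ 1 / 4 := min_le_left _ _
  have hτ2 : τ * (2 * ((d : ℝ) + η) + 4) ≤ η / 4 := by
    have h1 : τ ≤ η / (4 * (2 * ((d : ℝ) + η) + 4)) := min_le_right _ _
    rw [le_div_iff₀ (by positivity)] at h1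
    linarith
  set θ : ℝ := τ / b with hθ
  have hθ0 : 0 < θ := by rw [hθ]; positivity
  obtain ⟨Aθ, hAθ, hlog⟩ := log_bound θ hθ0
  set C1 : ℝ := ((k : ℝ) + 1) * (3 * C) * 4 ^ M * 2 ^ k * C ^ (d * (M + k)) with hC1
  have hC1p : 0 < C1 := by rw [hC1]; positivity
  set CR' : ℝ := max CR 1 with hCR'
  have hCR'1 : 1 ≤ CR' := le_max_right _ _
  set C2 : ℝ := C1 * Aθ ^ b * CR' * 2 ^ ((d : ℝ) + η / 4) with hC2
  have hC2p : 0 < C2 := by rw [hC2]; positivity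
  refine ⟨max 1 (C2 ^ 2), le_max_left _ _, ?_⟩
  set A : ℝ := max 1 (C2 ^ 2) with hA
  have hA1 : 1 ≤ A := le_max_left _ _
  have hA2 : C2 ^ 2 ≤ A := le_max_right _ _
  intro ι c u hdet J ε hJ hε hε1
  set x : ℝ := A * ε ^ (-((d : ℝ) + η)) with hx
  have hεpow : ∀ s : ℝ, 0 ≤ s → 1 ≤ ε ^ (-s) := fun s hs =>
    Real.one_le_rpow_of_pos_of_le_one_of_nonpos hε hε1 (by linarith)
  have hx1 : 1 ≤ x := by
    rw [hx]; exact one_le_mul_of_one_le_of_one_le hA1 (hεpow _ (by linarith))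
  have hx0 : 0 < x := by linarith
  have hm : 1 ≤ ⌊x⌋₊ := Nat.le_floor (by simpa using hx1)
  obtain ⟨R, hRJ, hRne, hRcard, hRnet⟩ := hred ι c u J ε ⌊x⌋₊ hJ hε hε1 hm
  suffices h : HasNet c u R (ε / 2) x from
    (hRnet h.floor).mono le_rfl (Nat.floor_le hx0.le)
  have hn1 : 1 ≤ R.card := hRne.card_pos
  have hn1' : (1 : ℝ) ≤ R.card := by exact_mod_cast hn1
  set Lg : ℝ := 1 + Real.log (R.card + 1) with hLg
  have hLg1 : 1 ≤ Lg := by
    rw [hLg]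
    have := Real.log_nonneg (show (1 : ℝ) ≤ R.card + 1 by linarith)
    linarith
  set ε' : ℝ := ε / 2 with hε'
  have hε'0 : 0 < ε' := by rw [hε']; positivity
  have hε'1 : ε' ≤ 1 := by rw [hε']; linarith
  set Y : ℝ := C * Lg ^ 2 * ε' ^ (-(1 / (k : ℝ))) with hY
  have hCL : 1 ≤ C * Lg ^ 2 := one_le_mul_of_one_le_of_one_le hC (one_le_pow₀ hLg1)
  have hε'k : 1 ≤ ε' ^ (-(1 / (k : ℝ))) :=
    Real.one_le_rpow_of_pos_of_le_one_of_nonpos hε'0 hε'1 (by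
      have : 0 < 1 / (k : ℝ) := by positivity
      linarith)
  have hY1 : 1 ≤ Y := one_le_mul_of_one_le_of_one_le hCL hε'k
  have hY0 : 0 < Y := by linarith
  have hYd1 : 1 ≤ Y ^ d := one_le_pow₀ hY1
  set r : ℕ := ⌈Y ^ d⌉₊ with hr
  have hrY : Y ^ d ≤ r := Nat.le_ceil _
  have hrY' : (r : ℝ) ≤ 2 * Y ^ d := by
    have := (Nat.ceil_lt_add_one (show (0 : ℝ) ≤ Y ^ d by linarith)).le
    rw [← hr] at this
    linarith
  have hr1 : 1 ≤ r := by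
    have : (1 : ℝ) ≤ r := hYd1.trans hrY
    exact_mod_cast this
  have hcond : 1 ≤ ε' * ((r : ℝ) ^ (1 / (d : ℝ)) / (C * (1 + Real.log (R.card + 1)) ^ 2)) ^ k := by
    rw [← hLg]
    have h1 : Y ≤ (r : ℝ) ^ (1 / (d : ℝ)) := by
      have h2 : (Y ^ d) ^ (1 / (d : ℝ)) ≤ (r : ℝ) ^ (1 / (d : ℝ)) :=
        Real.rpow_le_rpow (by linarith) hrY (by positivity)
      rw [one_div, Real.pow_rpow_inv_natCast hY0.le (by omega)] at h2
      rw [one_div]; exact h2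
    have h3 : ε' ^ (-(1 / (k : ℝ))) ≤ (r : ℝ) ^ (1 / (d : ℝ)) / (C * Lg ^ 2) := by
      rw [le_div_iff₀ (by linarith)]
      calc ε' ^ (-(1 / (k : ℝ))) * (C * Lg ^ 2) = Y := by rw [hY]; ring
        _ ≤ _ := h1
    have h4 : (ε' ^ (-(1 / (k : ℝ)))) ^ k ≤ ((r : ℝ) ^ (1 / (d : ℝ)) / (C * Lg ^ 2)) ^ k :=
      pow_le_pow_left₀ (by linarith) h3 k
    have h5 : (ε' ^ (-(1 / (k : ℝ)))) ^ k = ε'⁻¹ := by
      rw [← Real.rpow_natCast, ← Real.rpow_mul hε'0.le]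
      have : -(1 / (k : ℝ)) * k = -1 := by field_simp
      rw [this, Real.rpow_neg_one]
    rw [h5] at h4
    calc (1 : ℝ) = ε' * ε'⁻¹ := (mul_inv_cancel₀ hε'0.ne').symm
      _ ≤ _ := mul_le_mul_of_nonneg_left h4 hε'0.le
  refine (hrec ι c u hdet R.card r hn1 hr1 k R ε' le_rfl hRne hε'0 hcond).mono le_rfl ?_
  rw [← hLg]
  -- first bound
  have hb1 : ((k : ℝ) + 1) * (((r : ℝ) + 1) ^ M * (C * Lg + 2)) * (r : ℝ) ^ k ≤
      C1 * Lg ^ b * ε' ^ (-((d : ℝ) + (d : ℝ) * M / k)) := by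
    have h1 : (r : ℝ) + 1 ≤ 4 * Y ^ d := by linarith
    have h2 : ((r : ℝ) + 1) ^ M ≤ (4 * Y ^ d) ^ M := pow_le_pow_left₀ (by positivity) h1 M
    have h3 : (r : ℝ) ^ k ≤ (2 * Y ^ d) ^ k := pow_le_pow_left₀ (by positivity) hrY' k
    have hCLg : 1 ≤ C * Lg := one_le_mul_of_one_le_of_one_le hC hLg1
    have h4 : C * Lg + 2 ≤ 3 * C * Lg := by linarith
    have h5 : ((r : ℝ) + 1) ^ M * (C * Lg + 2) ≤ (4 * Y ^ d) ^ M * (3 * C * Lg) :=
      mul_le_mul h2 h4 (by positivity) (by positivity)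
    have h6 : ((k : ℝ) + 1) * (((r : ℝ) + 1) ^ M * (C * Lg + 2)) * (r : ℝ) ^ k ≤
        ((k : ℝ) + 1) * ((4 * Y ^ d) ^ M * (3 * C * Lg)) * (2 * Y ^ d) ^ k :=
      mul_le_mul (mul_le_mul_of_nonneg_left h5 (by positivity)) h3 (by positivity) (by positivity)
    refine h6.trans (le_of_eq ?_)
    have h7 : ε' ^ (-((d : ℝ) + (d : ℝ) * M / k)) = (ε' ^ (-(1 / (k : ℝ)))) ^ (d * (M + k)) := by
      rw [← Real.rpow_natCast, ← Real.rpow_mul hε'0.le]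
      congr 1
      push_cast
      field_simp
      ring
    rw [h7, hC1, hb, hY]
    ring_nf
  refine hb1.trans ?_
  -- bound of the powers of ε'
  have hb2 : ε' ^ (-((d : ℝ) + (d : ℝ) * M / k)) ≤
      2 ^ ((d : ℝ) + η / 4) * ε ^ (-((d : ℝ) + η / 4)) := by
    have h1 : ε' ^ (-((d : ℝ) + (d : ℝ) * M / k)) ≤ ε' ^ (-((d : ℝ) + η / 4)) :=
      Real.rpow_le_rpow_of_exponent_ge hε'0 hε'1 (by linarith)
    refine h1.trans (le_of_eq ?_)
    rw [hε', Real.div_rpow hε.le (by norm_num), Real.rpow_neg (by norm_num : (0 : ℝ) ≤ 2),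
      div_inv_eq_mul, mul_comm]
  -- bound of the logarithm
  have hb3 : Lg ^ b ≤ Aθ ^ b * (CR' * A ^ (1 / 2 : ℝ) * ε ^ (-(η / 4))) := by
    have h1 : Lg ≤ Aθ * (R.card : ℝ) ^ θ := hlog _ hn1'
    have h2 : Lg ^ b ≤ (Aθ * (R.card : ℝ) ^ θ) ^ b := pow_le_pow_left₀ (by linarith) h1 b
    rw [mul_pow] at h2
    have h3 : ((R.card : ℝ) ^ θ) ^ b = (R.card : ℝ) ^ τ := by
      rw [← Real.rpow_natCast, ← Real.rpow_mul (by linarith)]
      congr 1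
      rw [hθ]; field_simp
    rw [h3] at h2
    refine h2.trans (mul_le_mul_of_nonneg_left ?_ (by positivity))
    have h4 : (R.card : ℝ) ≤ CR' * A ^ (2 : ℝ) * ε ^ (-(2 * ((d : ℝ) + η) + 4)) := by
      have h5 : ((⌊x⌋₊ : ℕ) : ℝ) ^ 2 ≤ x ^ 2 :=
        pow_le_pow_left₀ (Nat.cast_nonneg _) (Nat.floor_le hx0.le) 2
      have h6 : (R.card : ℝ) ≤ CR' * x ^ 2 / ε ^ 4 := by
        refine hRcard.trans ?_
        apply div_le_div_of_nonneg_right _ (by positivity)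
        exact mul_le_mul (le_max_left _ _) h5 (by positivity) (by linarith)
      refine h6.trans (le_of_eq ?_)
      have h7 : ε ^ (-(2 * ((d : ℝ) + η) + 4)) = (ε ^ (-((d : ℝ) + η))) ^ 2 * (ε ^ 4)⁻¹ := by
        rw [← Real.rpow_natCast, ← Real.rpow_mul hε.le, ← Real.rpow_natCast ε 4,
          ← Real.rpow_neg hε.le, ← Real.rpow_add hε]
        congr 1
        push_cast
        ring
      rw [h7, hx, Real.rpow_two]
      ring
    have h8 : (R.card : ℝ) ^ τ ≤ (CR' * A ^ (2 : ℝ) * ε ^ (-(2 * ((d : ℝ) + η) + 4))) ^ τ :=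
      Real.rpow_le_rpow (by linarith) h4 hτ0.le
    refine h8.trans ?_
    rw [Real.mul_rpow (by positivity) (by positivity), Real.mul_rpow (by positivity) (by positivity),
      ← Real.rpow_mul (by linarith), ← Real.rpow_mul hε.le]
    have h9 : CR' ^ τ ≤ CR' := by
      calc CR' ^ τ ≤ CR' ^ (1 : ℝ) := Real.rpow_le_rpow_of_exponent_le hCR'1 (by linarith)
        _ = CR' := Real.rpow_one _
    have h10 : A ^ (2 * τ) ≤ A ^ (1 / 2 : ℝ) := Real.rpow_le_rpow_of_exponent_le hA1 (by linarith)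
    have h11 : ε ^ (-(2 * ((d : ℝ) + η) + 4) * τ) ≤ ε ^ (-(η / 4)) :=
      Real.rpow_le_rpow_of_exponent_ge hε hε1 (by linarith)
    exact mul_le_mul (mul_le_mul h9 h10 (by positivity) (by positivity)) h11 (by positivity)
      (by positivity)
  have hb4 : C1 * Lg ^ b * ε' ^ (-((d : ℝ) + (d : ℝ) * M / k)) ≤
      C1 * (Aθ ^ b * (CR' * A ^ (1 / 2 : ℝ) * ε ^ (-(η / 4)))) *
        (2 ^ ((d : ℝ) + η / 4) * ε ^ (-((d : ℝ) + η / 4))) :=
    mul_le_mul (mul_le_mul_of_nonneg_left hb3 hC1p.le) hb2 (by positivity) (by positivity)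
  refine hb4.trans ?_
  have hb5 : C1 * (Aθ ^ b * (CR' * A ^ (1 / 2 : ℝ) * ε ^ (-(η / 4)))) *
        (2 ^ ((d : ℝ) + η / 4) * ε ^ (-((d : ℝ) + η / 4))) =
      C2 * A ^ (1 / 2 : ℝ) * (ε ^ (-(η / 4)) * ε ^ (-((d : ℝ) + η / 4))) := by
    rw [hC2]; ring
  rw [hb5, ← Real.rpow_add hε]
  have hb6 : ε ^ (-(η / 4) + -((d : ℝ) + η / 4)) ≤ ε ^ (-((d : ℝ) + η)) :=
    Real.rpow_le_rpow_of_exponent_ge hε hε1 (by linarith)
  have hb7 : C2 * A ^ (1 / 2 : ℝ) ≤ A := by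
    have h1 : C2 ≤ A ^ (1 / 2 : ℝ) := by
      rw [← Real.sqrt_eq_rpow]
      exact Real.le_sqrt_of_sq_le hA2
    calc C2 * A ^ (1 / 2 : ℝ) ≤ A ^ (1 / 2 : ℝ) * A ^ (1 / 2 : ℝ) :=
          mul_le_mul_of_nonneg_right h1 (by positivity)
      _ = A := by rw [← Real.rpow_add (by linarith)]; norm_num
  exact mul_le_mul hb7 hb6 (by positivity) (by positivity)

end

end MPa20b56
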