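import Pool.Agent.Lib_MP_a20b56_co.Defs

namespace MPa20b56

open scoped BigOperators Classical
open MeasureTheory

noncomputable section

/-- P6 a finite set containing all vertices -/
theorem verts {d : ℕ} (L : Finset (Aff d)) :
    ∃ W : Finset (V d), W.card ≤ (L.card + 1) ^ d ∧ ∀ v, IsVert L v → v ∈ W := by
  let Q : (Fin d → Option L) → V d → Prop := fun g v =>
    ∀ x : V d, (∀ f : L, (∃ i, g i = some f) → ev f.1 x = 0) ↔ x = v
  let vg : (Fin d → Option L) → V d := fun g => if h : ∃ v, Q g v then h.choose else 0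
  refine ⟨Finset.univ.image vg, ?_, ?_⟩
  · refine Finset.card_image_le.trans ?_
    rw [Finset.card_univ, Fintype.card_fun, Fintype.card_option, Fintype.card_coe,
      Fintype.card_fin]
  · rintro v ⟨T, hTL, hTd, hT⟩
    rw [Finset.mem_image]
    let g : Fin d → Option L := fun i =>
      if h : (i : ℕ) < T.card then some ⟨(T.equivFin.symm ⟨i, h⟩ : T), hTL (T.equivFin.symm ⟨i, h⟩).2⟩
      else none
    have hg : ∀ f : L, (∃ i, g i = some f) ↔ f.1 ∈ T := by
      intro f
      constructor
      · rintro ⟨i, hi⟩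
        by_cases h : (i : ℕ) < T.card
        · simp only [g, dif_pos h, Option.some.injEq] at hi
          rw [← hi]
          exact (T.equivFin.symm ⟨i, h⟩).2
        · simp only [g, dif_neg h] at hi
          exact absurd hi (by simp)
      · intro hf
        have hlt := (T.equivFin ⟨f.1, hf⟩).2
        refine ⟨⟨T.equivFin ⟨f.1, hf⟩, hlt.trans_le hTd⟩, ?_⟩
        simp only [g]
        rw [dif_pos hlt]
        congr 1
        apply Subtype.ext
        simp
    have hQ : Q g v := by
      intro x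
      rw [← hT x]
      constructor
      · intro h f hf
        exact h ⟨f, hTL hf⟩ ((hg ⟨f, hTL hf⟩).2 hf)
      · intro h f hf
        exact h f.1 ((hg f).1 hf)
    refine ⟨g, Finset.mem_univ _, ?_⟩
    have hex : ∃ v, Q g v := ⟨v, hQ⟩
    have h1 : vg g = hex.choose := dif_pos hex
    rw [h1]
    exact (hQ hex.choose).1 ((hex.choose_spec hex.choose).2 rfl)

theorem verts_ev_add {d : ℕ} (f : Aff d) (x w : V d) (t : ℝ) :
    ev f (x + t • w) = ev f x + t * ∑ i, f.1 i * w i := by
  unfold ev
  simp only [Pi.add_apply, Pi.smul_apply, smul_eq_mul, mul_add, Finset.sum_add_distrib,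
    Finset.mul_sum]
  have : ∑ i, f.1 i * (t * w i) = ∑ i, t * (f.1 i * w i) :=
    Finset.sum_congr rfl fun i _ => by ring
  rw [this]
  ring

/-- A set of functionals whose linear parts have trivial common kernel contains at most `d` of them
with the same property. -/
theorem verts_minimal {d : ℕ} (A : Finset (Aff d))
    (hA : ∀ w : V d, (∀ f ∈ A, ∑ i, f.1 i * w i = 0) → w = 0) :
    ∃ T ⊆ A, T.card ≤ d ∧ ∀ w : V d, (∀ f ∈ T, ∑ i, f.1 i * w i = 0) → w = 0 := by
  obtain ⟨T, hT, hmin⟩ := Finset.exists_min_image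
    (A.powerset.filter fun T => ∀ w : V d, (∀ f ∈ T, ∑ i, f.1 i * w i = 0) → w = 0)
    (fun T => T.card) ⟨A, by simpa using hA⟩
  rw [Finset.mem_filter, Finset.mem_powerset] at hT
  refine ⟨T, hT.1, ?_, hT.2⟩
  have hw : ∀ f : T, ∃ w : V d, ∑ i, f.1.1 i * w i ≠ 0 ∧ ∀ g ∈ T, g ≠ f.1 →
      ∑ i, g.1 i * w i = 0 := by
    intro f
    by_contra hcon
    push Not at hcon
    have h1 : ∀ w : V d, (∀ g ∈ T.erase f.1, ∑ i, g.1 i * w i = 0) → w = 0 := by
      intro w hw
      apply hT.2 w
      intro g hg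
      by_cases hgf : g = f.1
      · by_contra hne
        rw [hgf] at hne
        obtain ⟨g', hg', hgf', hne'⟩ := hcon w hne
        exact hne' (hw g' (Finset.mem_erase.2 ⟨hgf', hg'⟩))
      · exact hw g (Finset.mem_erase.2 ⟨hgf, hg⟩)
    have h2 := hmin (T.erase f.1) (by
      rw [Finset.mem_filter, Finset.mem_powerset]
      exact ⟨(Finset.erase_subset _ _).trans hT.1, h1⟩)
    have h3 := Finset.card_erase_lt_of_mem f.2
    omega
  choose w hw1 hw2 using hw
  have hli : LinearIndependent ℝ (fun f : T => (f.1.1 : V d)) := by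
    rw [Fintype.linearIndependent_iff]
    intro c hc f
    have h1 : ∑ i, (∑ g : T, c g • (g.1.1 : V d)) i * w f i = 0 := by
      rw [hc]; simp
    have h2 : ∑ i, (∑ g : T, c g • (g.1.1 : V d)) i * w f i =
        ∑ g : T, c g * ∑ i, g.1.1 i * w f i := by
      simp only [Finset.sum_apply, Pi.smul_apply, smul_eq_mul, Finset.sum_mul, Finset.mul_sum]
      rw [Finset.sum_comm]
      refine Finset.sum_congr rfl fun g _ => Finset.sum_congr rfl fun i _ => by ring
    rw [h2, Finset.sum_eq_single f] at h1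
    · exact (mul_eq_zero.1 h1).resolve_right (hw1 f)
    · intro g _ hgf
      rw [hw2 f g.1 g.2 (fun h => hgf (Subtype.ext h)), mul_zero]
    · intro h
      exact absurd (Finset.mem_univ _) h
  have h4 := hli.fintype_card_le_finrank
  simpa using h4

/-- P7a existence of a vertex in a closed bounded cell -/
theorem exists_vertex {d : ℕ} (L : Finset (Aff d)) (S : Finset (Aff d)) (hS : S ⊆ L)
    (s : Aff d → ℝ) (hs : ∀ f ∈ L, s f = 1 ∨ s f = -1)
    (hne : {x : V d | (∀ f ∈ S, ev f x = 0) ∧ ∀ f ∈ L, 0 ≤ s f * ev f x}.Nonempty)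
    (hb : Bornology.IsBounded {x : V d | (∀ f ∈ S, ev f x = 0) ∧ ∀ f ∈ L, 0 ≤ s f * ev f x}) :
    ∃ v, IsVert L v ∧ (∀ f ∈ S, ev f v = 0) ∧ ∀ f ∈ L, 0 ≤ s f * ev f v := by
  set C : Set (V d) := {x : V d | (∀ f ∈ S, ev f x = 0) ∧ ∀ f ∈ L, 0 ≤ s f * ev f x} with hC
  let a : V d → ℕ := fun x => (L.filter fun f => ev f x = 0).card
  -- a point with a maximal number of active functionals
  obtain ⟨x, hx, hmax⟩ : ∃ x ∈ C, ∀ y ∈ C, a y ≤ a x := by
    have hfin : (a '' C).Finite := by
      refine (Set.finite_Iic L.card).subset ?_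
      rintro _ ⟨y, _, rfl⟩
      exact Finset.card_le_card (Finset.filter_subset _ _)
    obtain ⟨m, ⟨x, hx, rfl⟩, hm⟩ := hfin.exists_maximalFor id (a '' C) (hne.image a)
    refine ⟨x, hx, fun y hy => ?_⟩
    rcases le_total (a y) (a x) with h | h
    · exact h
    · exact hm ⟨y, hy, rfl⟩ h
  have hs0 : ∀ f ∈ L, s f ≠ 0 := by
    intro f hf
    rcases hs f hf with h | h <;> rw [h] <;> norm_num
  -- the linear parts of the active functionals have a trivial common kernel
  have hker : ∀ w : V d, (∀ f ∈ L.filter (fun f => ev f x = 0), ∑ i, f.1 i * w i = 0) → w = 0 := by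
    intro w hw
    by_contra hw0
    -- the functionals which decrease along the ray
    set N := L.filter (fun f => s f * ∑ i, f.1 i * w i < 0) with hN
    have hact : ∀ f ∈ L, ev f x = 0 → ∀ t : ℝ, ev f (x + t • w) = 0 := by
      intro f hf h0 t
      rw [verts_ev_add, h0, hw f (Finset.mem_filter.2 ⟨hf, h0⟩)]
      ring
    have hNne : N.Nonempty := by
      by_contra hcon
      rw [Finset.not_nonempty_iff_eq_empty] at hcon
      -- the whole ray is in `C`
      have hray : ∀ t : ℝ, 0 ≤ t → x + t • w ∈ C := by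
        intro t ht
        refine ⟨fun f hf => hact f (hS hf) (hx.1 f hf) t, fun f hf => ?_⟩
        have h1 : 0 ≤ s f * ∑ i, f.1 i * w i := by
          by_contra h
          rw [not_le] at h
          have : f ∈ N := Finset.mem_filter.2 ⟨hf, h⟩
          rw [hcon] at this
          exact absurd this (Finset.notMem_empty _)
        rw [verts_ev_add, mul_add]
        have h2 := hx.2 f hf
        have h3 : s f * (t * ∑ i, f.1 i * w i) = t * (s f * ∑ i, f.1 i * w i) := by ring
        rw [h3]
        positivity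
      obtain ⟨R, hR⟩ := hb.exists_norm_le
      have hwpos : 0 < ‖w‖ := norm_pos_iff.2 hw0
      have hR0 : 0 ≤ R := (norm_nonneg x).trans (hR x hx)
      have h1 := hR _ (hray ((R + ‖x‖ + 1) / ‖w‖) (by positivity))
      have h2 : ‖((R + ‖x‖ + 1) / ‖w‖) • w‖ = R + ‖x‖ + 1 := by
        rw [norm_smul, Real.norm_of_nonneg (by positivity)]
        field_simp
      have h3 : ‖((R + ‖x‖ + 1) / ‖w‖) • w‖ ≤ ‖x + ((R + ‖x‖ + 1) / ‖w‖) • w‖ + ‖x‖ := by
        have := norm_sub_le (x + ((R + ‖x‖ + 1) / ‖w‖) • w) x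
        rwa [add_sub_cancel_left] at this
      rw [h2] at h3
      linarith
    -- the first functional to become active
    obtain ⟨f₀, hf₀, hmin⟩ := Finset.exists_min_image N
      (fun f => (s f * ev f x) / (-(s f * ∑ i, f.1 i * w i))) hNne
    set t := (s f₀ * ev f₀ x) / (-(s f₀ * ∑ i, f₀.1 i * w i)) with ht
    have hf₀L : f₀ ∈ L := (Finset.mem_filter.1 hf₀).1
    have hneg : s f₀ * ∑ i, f₀.1 i * w i < 0 := (Finset.mem_filter.1 hf₀).2
    have ht0 : 0 ≤ t := div_nonneg (hx.2 f₀ hf₀L) (by linarith)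
    have hy : x + t • w ∈ C := by
      refine ⟨fun f hf => hact f (hS hf) (hx.1 f hf) t, fun f hf => ?_⟩
      rw [verts_ev_add, mul_add]
      have h3 : s f * (t * ∑ i, f.1 i * w i) = t * (s f * ∑ i, f.1 i * w i) := by ring
      rw [h3]
      by_cases hfN : f ∈ N
      · have h4 := hmin f hfN
        have h5 : s f * ∑ i, f.1 i * w i < 0 := (Finset.mem_filter.1 hfN).2
        change t ≤ _ at h4
        rw [le_div_iff₀ (by linarith)] at h4
        linarith
      · have h1 : 0 ≤ s f * ∑ i, f.1 i * w i := by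
          by_contra h
          rw [not_le] at h
          exact hfN (Finset.mem_filter.2 ⟨hf, h⟩)
        have h2 := hx.2 f hf
        positivity
    have hy0 : ev f₀ (x + t • w) = 0 := by
      have h6 : s f₀ * ev f₀ (x + t • w) = 0 := by
        rw [verts_ev_add, mul_add]
        have h3 : s f₀ * (t * ∑ i, f₀.1 i * w i) = t * (s f₀ * ∑ i, f₀.1 i * w i) := by ring
        rw [h3, ht]
        generalize s f₀ * ∑ i, f₀.1 i * w i = B at hneg
        generalize s f₀ * ev f₀ x = A
        have h7 : B ≠ 0 := hneg.ne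
        field_simp
        ring
      exact (mul_eq_zero.1 h6).resolve_left (hs0 f₀ hf₀L)
    have hx0 : ev f₀ x ≠ 0 := by
      intro h
      have := hw f₀ (Finset.mem_filter.2 ⟨hf₀L, h⟩)
      rw [this, mul_zero] at hneg
      exact lt_irrefl _ hneg
    have hlt : a x < a (x + t • w) := by
      refine Finset.card_lt_card ?_
      rw [Finset.ssubset_iff_of_subset]
      · refine ⟨f₀, Finset.mem_filter.2 ⟨hf₀L, hy0⟩, ?_⟩
        intro h
        exact hx0 (Finset.mem_filter.1 h).2
      · intro f hf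
        rw [Finset.mem_filter] at hf ⊢
        exact ⟨hf.1, hact f hf.1 hf.2 t⟩
    exact absurd (hmax _ hy) (not_le.2 hlt)
  obtain ⟨T, hTA, hTd, hT⟩ := verts_minimal _ hker
  refine ⟨x, ⟨T, hTA.trans (Finset.filter_subset _ _), hTd, fun y => ?_⟩, hx.1, hx.2⟩
  constructor
  · intro hy
    have h1 : y - x = 0 := by
      apply hT
      intro f hf
      have h2 := hy f hf
      have h3 : ev f x = 0 := (Finset.mem_filter.1 (hTA hf)).2
      have h4 := verts_ev_add f x (y - x) 1
      rw [one_smul, add_sub_cancel, h2, h3, one_mul, zero_add] at h4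
      exact h4.symm
    exact sub_eq_zero.1 h1
  · rintro rfl f hf
    exact (Finset.mem_filter.1 (hTA hf)).2

end

end MPa20b56
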